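import Pool.Agent.J4H65.GP.Inst

/-!
# The number of exceptional initial values
-/

set_option autoImplicit false

namespace Pool.Agent.J4H65.GP

open Pool.Agent.H612.LR Pool.Agent.J4H65.UP

/-- The instance of order `k` with the coefficients `a` and the initial values `v`. -/
def inst {k : ℕ} (a : Fin k → ℚ) (v : Fin k → ℤ) : Rec := List.ofFn fun i => (a i, (v i : ℚ))

theorem length_inst {k : ℕ} (a : Fin k → ℚ) (v : Fin k → ℤ) : (inst a v).length = k := by
  unfold inst
  simp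

theorem coef_inst {k : ℕ} (a : Fin k → ℚ) (v w : Fin k → ℤ) :
    coef (inst a v) = coef (inst a w) := by
  funext i
  unfold coef inst
  by_cases h : i < k
  · rw [List.getD_eq_getElem _ _ (by simpa using h), List.getD_eq_getElem _ _ (by simpa using h)]
    simp
  · rw [List.getD_eq_default _ _ (by simpa using h), List.getD_eq_default _ _ (by simpa using h)]

theorem seq_inst {k : ℕ} (a : Fin k → ℚ) (v : Fin k → ℤ) (n : Fin k) :
    seq (inst a v) n = v n := by
  rw [seq, if_pos (by rw [length_inst]; exact n.2)]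
  unfold ini inst
  rw [List.getD_eq_getElem _ _ (by simp)]
  simp

/-- if the dominant part has a negative value then the indices of the nonpositive terms have
bounded gaps -/
theorem gaps_of_phi {l : Rec} {k : ℕ} {z : Fin k → ℂ} {j : Fin k → ℕ} (ρ : ℝ) (M : ℕ)
    (hρ : 0 < ρ) (v : Fin k → ℝ) (T : ℕ) (B : ℝ) (hB : 0 ≤ B)
    (hest : ∀ t : ℕ, T ≤ t → |(seq l (t + M) : ℝ) - (((t + M).choose M : ℝ) * ρ ^ t) *
      phi z j ρ M t v| ≤ B * (((t + M).choose M : ℝ) * ρ ^ t) / ((t : ℝ) + 1)) (t0 : ℕ)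
    (hneg : phi z j ρ M t0 v < 0) : BoundedGaps {n | seq l n ≤ 0} := by
  obtain ⟨L, hL⟩ := phi_return (M := M) (j := j) hρ v (-(phi z j ρ M t0 v) / 2) (by linarith) t0
  obtain ⟨T1, hT1⟩ := exists_nat_gt (B / (-(phi z j ρ M t0 v) / 2))
  refine ⟨T + T1 + L + M, fun n => ?_⟩
  obtain ⟨t, h1, h2, h3⟩ := hL (n + T + T1)
  refine ⟨t + M, ?_, by omega, by omega⟩
  have h4 := hest t (by omega)
  have hC : (0 : ℝ) < ((t + M).choose M : ℝ) * ρ ^ t := by
    have : 0 < (t + M).choose M := Nat.choose_pos (Nat.le_add_left M t)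
    have : (0 : ℝ) < ((t + M).choose M : ℝ) := by exact_mod_cast this
    positivity
  set E : ℝ := ((t + M).choose M : ℝ) * ρ ^ t with hE
  set φ0 := phi z j ρ M t0 v with hφ0
  have h5 : phi z j ρ M t v < φ0 / 2 := by
    rw [abs_lt] at h3
    linarith [h3.2]
  have h6 : B / ((t : ℝ) + 1) < -φ0 / 2 := by
    have h7 : (T1 : ℝ) ≤ t := by exact_mod_cast (by omega : T1 ≤ t)
    rw [div_lt_iff₀ (by linarith)] at hT1
    rw [div_lt_iff₀ (by positivity)]
    nlinarith
  have h8 : (seq l (t + M) : ℝ) ≤ E * phi z j ρ M t v + E * (B / ((t : ℝ) + 1)) := by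
    rw [abs_le] at h4
    have := h4.2
    have e : B * E / ((t : ℝ) + 1) = E * (B / ((t : ℝ) + 1)) := by ring
    rw [e] at this
    linarith
  have h9 : (seq l (t + M) : ℝ) < 0 := by
    have : E * phi z j ρ M t v + E * (B / ((t : ℝ) + 1)) < 0 := by
      rw [← mul_add]
      exact mul_neg_of_pos_of_neg hC (by linarith)
    linarith
  show seq l (t + M) ≤ 0
  exact_mod_cast h9.le

/-- the initial values of an instance as a real vector -/
noncomputable def ivec (l : Rec) (k : ℕ) : Fin k → ℝ := fun i => (seq l i : ℝ)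

theorem mat_ivec {l : Rec} {k : ℕ} {z : Fin k → ℂ} {j : Fin k → ℕ} (hb : Basis l k z j) :
    (mat z j).mulVec (cvec z j (ivec l k)) = fun n : Fin k => ((seq l n : ℚ) : ℂ) := by
  rw [mat_cvec hb.det_ne]
  funext n
  unfold ivec
  push_cast
  rfl

/-- the arithmetic of the thresholds -/
theorem thresholds2 (A d N k M n0 : ℕ) (hN : 1 ≤ N) (hkN : k ≤ N) (hM : M < k)
    (hn : 2 ^ ((A + d + 30) * N ^ (A + d + 30)) ≤ n0) :
    2 ^ (A * N ^ A) ≤ n0 - M ∧
      2 ^ (A * N ^ A) * 2 ^ (d * N ^ d) * 2 ^ (20 * N ^ 3) < (n0 - M) + 1 ∧ M ≤ n0 := by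
  have h1 : A * N ^ A + d * N ^ d + 30 * N ^ 3 ≤ (A + d + 30) * N ^ (A + d + 30) := by
    have h2 : N ^ A ≤ N ^ (A + d + 30) := Nat.pow_le_pow_right hN (by omega)
    have h3 : N ^ 3 ≤ N ^ (A + d + 30) := Nat.pow_le_pow_right hN (by omega)
    have h4 : N ^ d ≤ N ^ (A + d + 30) := Nat.pow_le_pow_right hN (by omega)
    nlinarith
  have h4 : 2 ^ (A * N ^ A + d * N ^ d + 30 * N ^ 3) ≤ n0 :=
    (Nat.pow_le_pow_right (by norm_num) h1).trans hn
  have h5 : 1 ≤ N ^ 3 := Nat.one_le_pow _ _ hN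
  have h6 : N ≤ N ^ 3 := by
    calc N = N ^ 1 := (pow_one N).symm
      _ ≤ N ^ 3 := Nat.pow_le_pow_right hN (by norm_num)
  have h8 : 2 * 2 ^ (A * N ^ A + d * N ^ d + 29 * N ^ 3) ≤
      2 ^ (A * N ^ A + d * N ^ d + 30 * N ^ 3) := by
    rw [← pow_succ']
    exact Nat.pow_le_pow_right (by norm_num) (by omega)
  have h9 : M < 2 ^ (A * N ^ A + d * N ^ d + 29 * N ^ 3) := by
    have h10 : M < 2 ^ N := (hM.trans_le hkN).trans Nat.lt_two_pow_self
    exact h10.trans_le (Nat.pow_le_pow_right (by norm_num) (by omega))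
  have h10 : 2 ^ (A * N ^ A + d * N ^ d + 29 * N ^ 3) ≤ n0 - M := by omega
  refine ⟨(Nat.pow_le_pow_right (by norm_num) (by omega)).trans h10, ?_, by omega⟩
  have h11 : 2 ^ (A * N ^ A) * 2 ^ (d * N ^ d) * 2 ^ (20 * N ^ 3) ≤
      2 ^ (A * N ^ A + d * N ^ d + 29 * N ^ 3) := by
    rw [← pow_add, ← pow_add]
    exact Nat.pow_le_pow_right (by norm_num) (by omega)
  omega

/-- the top level of a recurrence -/
theorem exists_top {l : Rec} {k : ℕ} {z : Fin k → ℂ} {j : Fin k → ℕ} (hb : Basis l k z j)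
    (hk : l.length = k) (hl : 1 ≤ l.length) :
    (∀ l' : Rec, l'.length = l.length → coef l' = coef l → ∀ n, k ≤ n → seq l' n = 0) ∨
      ∃ p : Fin k, 0 < ‖z p‖ ∧ ∀ c : Fin k → ℂ, Level z j ‖z p‖ (j p) c := by
  classical
  have hk1 : 1 ≤ k := hk ▸ hl
  have hne : (Finset.univ : Finset (Fin k)).Nonempty := ⟨⟨0, hk1⟩, Finset.mem_univ _⟩
  obtain ⟨i0, -, hi0⟩ := Finset.exists_max_image Finset.univ (fun i => ‖z i‖) hne
  rcases eq_or_lt_of_le (norm_nonneg (z i0)) with hρ0 | hρ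
  · left
    intro l' h1 h2 n hn
    have hb' := hb.congr h1 h2
    have hrep := rep' l' k (h1.trans hk) z j hb' _ (mat_ivec hb') n
    have h0 : ((seq l' n : ℚ) : ℂ) = 0 := by
      rw [hrep]
      refine Finset.sum_eq_zero fun i _ => ?_
      have h1 : z i = 0 := by
        have := hi0 i (Finset.mem_univ _)
        rw [← hρ0] at this
        exact norm_le_zero_iff.1 this
      have h2 : j i < k := by
        have := hb.jlt hl i
        omega
      unfold bs
      rw [h1, zero_pow (by omega)]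
      simp
    exact_mod_cast h0
  · right
    obtain ⟨p, hp, hpmax⟩ := Finset.exists_max_image
      (Finset.univ.filter fun i => ‖z i‖ = ‖z i0‖) j
      ⟨i0, Finset.mem_filter.2 ⟨Finset.mem_univ _, rfl⟩⟩
    have hpρ : ‖z p‖ = ‖z i0‖ := (Finset.mem_filter.1 hp).2
    refine ⟨p, by rw [hpρ]; exact hρ, fun c i _ => ?_⟩
    rw [hpρ]
    rcases lt_or_eq_of_le (hi0 i (Finset.mem_univ _)) with h | h
    · exact Or.inl h
    · exact Or.inr ⟨h, hpmax i (Finset.mem_filter.2 ⟨Finset.mem_univ _, h⟩)⟩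

/-- The exceptional instances are close to instances whose dominant part has a negative value. -/
theorem near_neg : ∃ A : ℕ, ∀ (d C : ℕ), A + d ≤ C → ∀ (l : Rec) (k : ℕ) (z : Fin k → ℂ)
    (j : Fin k → ℕ), Basis l k z j → l.length = k → 1 ≤ l.length →
    BanachNull {n | seq l n ≤ 0} → (∃ n, 2 ^ (C * sz l ^ C) ≤ n ∧ seq l n ≤ 0) →
    ∀ p : Fin k, 0 < ‖z p‖ → (∀ c : Fin k → ℂ, Level z j ‖z p‖ (j p) c) →
    (∀ t, 0 ≤ phi z j ‖z p‖ (j p) t (ivec l k)) ∧
    ∃ (i : Fin k) (s : ℝ) (t : ℕ), (s = 1 ∨ s = -1) ∧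
      phi z j ‖z p‖ (j p) t (ivec l k + (s * (1 / 2 ^ (d * sz l ^ d))) • Pi.single i 1) < 0 := by
  obtain ⟨A, hA⟩ := inst_est
  refine ⟨A + 30, fun d C hC l k z j hb hlk hl hnull hbad p hp hlev => ?_⟩
  obtain ⟨n0, hn0, hn0'⟩ := hbad
  have hN : l.length ≤ sz l := TOR.len_le_sz l
  have hN1 : 1 ≤ sz l := hl.trans hN
  set N := sz l with hNd
  have hk : 1 ≤ k := hlk ▸ hl
  have hkN : k ≤ N := hlk ▸ hN
  have hn' : 2 ^ ((A + d + 30) * N ^ (A + d + 30)) ≤ n0 := by
    refine le_trans (Nat.pow_le_pow_right (by norm_num) ?_) hn0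
    exact Nat.mul_le_mul (by omega) (Nat.pow_le_pow_right hN1 (by omega))
  have hjk : ∀ i, j i < k := fun i => by
    have := hb.jlt hl i
    omega
  set ρ := ‖z p‖ with hρ
  set M := j p with hM
  have hest : ∀ t : ℕ, 2 ^ (A * N ^ A) ≤ t → |(seq l (t + M) : ℝ) -
      (((t + M).choose M : ℝ) * ρ ^ t) * phi z j ρ M t (ivec l k)| ≤
      2 ^ (A * N ^ A) * (((t + M).choose M : ℝ) * ρ ^ t) / ((t : ℝ) + 1) := fun t ht =>
    hA l k z j hb hlk hl _ (mat_ivec hb) ρ M hp ⟨p, rfl, rfl⟩ (hlev _) t ht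
  have hnn : ∀ t, 0 ≤ phi z j ρ M t (ivec l k) := by
    intro t
    by_contra hcon
    rw [not_le] at hcon
    exact (gaps_of_phi ρ M hp _ _ (2 ^ (A * N ^ A)) (by positivity) hest t hcon).not_null hnull
  refine ⟨hnn, ?_⟩
  obtain ⟨h1, h2, h3⟩ := thresholds2 A d N k M n0 hN1 hkN (hjk p) hn'
  have h4 := hest (n0 - M) h1
  rw [Nat.sub_add_cancel h3] at h4
  have hCpos : (0 : ℝ) < ((n0).choose M : ℝ) * ρ ^ (n0 - M) := by
    have : 0 < n0.choose M := Nat.choose_pos h3
    have : (0 : ℝ) < (n0.choose M : ℝ) := by exact_mod_cast this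
    positivity
  set E : ℝ := (n0.choose M : ℝ) * ρ ^ (n0 - M) with hE
  set φ := phi z j ρ M (n0 - M) (ivec l k) with hφ
  have h5 : φ ≤ 2 ^ (A * N ^ A) / (((n0 - M : ℕ) : ℝ) + 1) := by
    rw [abs_le] at h4
    have h6 := h4.1
    have h7 : (seq l n0 : ℝ) ≤ 0 := by exact_mod_cast hn0'
    have e : 2 ^ (A * N ^ A) * E / (((n0 - M : ℕ) : ℝ) + 1) =
        E * (2 ^ (A * N ^ A) / (((n0 - M : ℕ) : ℝ) + 1)) := by ring
    rw [e] at h6
    have h8 : E * φ ≤ E * (2 ^ (A * N ^ A) / (((n0 - M : ℕ) : ℝ) + 1)) := by linarith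
    exact le_of_mul_le_mul_left h8 hCpos
  have hk1 : (0 : ℝ) < k := by exact_mod_cast hk
  have h6 : φ < (1 / 2 ^ (d * N ^ d)) / (k * 2 ^ (3 * N ^ 2)) := by
    refine lt_of_le_of_lt h5 ?_
    rw [div_div, div_lt_div_iff₀ (by positivity) (by positivity), one_mul]
    have h7 : ((2 ^ (A * N ^ A) * 2 ^ (d * N ^ d) * 2 ^ (20 * N ^ 3) : ℕ) : ℝ) <
        (((n0 - M) + 1 : ℕ) : ℝ) := by exact_mod_cast h2
    push_cast at h7
    refine lt_of_le_of_lt ?_ h7
    have hk2 : (k : ℝ) ≤ 2 ^ N := by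
      have : k ≤ 2 ^ N := hkN.trans (Nat.lt_two_pow_self).le
      exact_mod_cast this
    have h8 : (k : ℝ) * 2 ^ (3 * N ^ 2) ≤ 2 ^ (20 * N ^ 3) := by
      calc (k : ℝ) * 2 ^ (3 * N ^ 2) ≤ 2 ^ N * 2 ^ (3 * N ^ 2) :=
            mul_le_mul_of_nonneg_right hk2 (by positivity)
        _ = 2 ^ (N + 3 * N ^ 2) := by rw [← pow_add]
        _ ≤ _ := by
          refine pow_le_pow_right₀ (by norm_num) ?_
          have h9 : N ^ 2 ≤ N ^ 3 := Nat.pow_le_pow_right hN1 (by norm_num)
          have h10 : N ≤ N ^ 3 := by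
            calc N = N ^ 1 := (pow_one N).symm
              _ ≤ N ^ 3 := Nat.pow_le_pow_right hN1 (by norm_num)
          omega
    calc (2 : ℝ) ^ (A * N ^ A) * (2 ^ (d * N ^ d) * (k * 2 ^ (3 * N ^ 2)))
        ≤ 2 ^ (A * N ^ A) * (2 ^ (d * N ^ d) * 2 ^ (20 * N ^ 3)) := by
          refine mul_le_mul_of_nonneg_left ?_ (by positivity)
          exact mul_le_mul_of_nonneg_left h8 (by positivity)
      _ = _ := by ring
  exact key (M := M) (1 / 2 ^ (d * N ^ d)) (by positivity) hk hb.det_ne hp hb.conj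
    ⟨p, rfl, rfl⟩ (2 ^ (3 * N ^ 2)) (by positivity)
    (fun i _ _ n hn => entry_bound hl (z i) (hb.isRoot i) (j i) n (by rw [hlk]; exact hn))
    (ivec l k) hnn (n0 - M) h6

theorem ivec_inst {k : ℕ} (a : Fin k → ℚ) (v : Fin k → ℤ) :
    ivec (inst a v) k = fun i => (v i : ℝ) := by
  funext i
  unfold ivec
  rw [seq_inst]
  push_cast
  rfl

open Classical in
/-- **The number of exceptional initial values.** -/
theorem bad_count : ∃ A : ℕ, ∀ C : ℕ, A ≤ C → ∀ (k : ℕ) (a : Fin k → ℚ) (R : ℕ),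
    ((box k R).filter fun v => BanachNull {n | seq (inst a v) n ≤ 0} ∧
      ∃ n, 2 ^ (C * sz (inst a v) ^ C) ≤ n ∧ seq (inst a v) n ≤ 0).card ≤
        2 * k * (2 * R + 1) ^ (k - 1) := by
  obtain ⟨A, hA⟩ := near_neg
  refine ⟨A, fun C hC k a R => ?_⟩
  rcases Nat.eq_zero_or_pos k with hk0 | hk
  · subst hk0
    rw [Finset.filter_false_of_mem]
    · simp
    · rintro v - ⟨hnull, -⟩
      refine BoundedGaps.not_null (A := {n | seq (inst a v) n ≤ 0}) ⟨1, fun n => ⟨n, ?_, le_rfl,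
        Nat.lt_succ_self n⟩⟩ hnull
      show seq (inst a v) n ≤ 0
      have : inst a v = [] := List.eq_nil_of_length_eq_zero (length_inst a v)
      rw [this, seq_nil]
  obtain ⟨z, j, hb0⟩ := exists_basis' (inst a 0) k (length_inst a 0)
  have hb : ∀ v, Basis (inst a v) k z j := fun v =>
    hb0.congr (by rw [length_inst, length_inst]) (coef_inst a v 0)
  have hlen : ∀ v, 1 ≤ (inst a v).length := fun v => by rw [length_inst]; exact hk
  rcases exists_top hb0 (length_inst a 0) (hlen 0) with h0 | ⟨p, hp, hlev⟩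
  · rw [Finset.filter_false_of_mem]
    · simp
    · rintro v - ⟨hnull, -⟩
      refine BoundedGaps.not_null (A := {n | seq (inst a v) n ≤ 0}) ⟨k + 1, fun n => ⟨n + k, ?_,
        by omega, by omega⟩⟩ hnull
      show seq (inst a v) (n + k) ≤ 0
      rw [h0 (inst a v) (by rw [length_inst, length_inst]) (coef_inst a v 0) (n + k) (by omega)]
  · refine count k R (fun v => ∀ t, 0 ≤ phi z j ‖z p‖ (j p) t v) ?_ _ (Finset.filter_subset _ _) ?_
    · intro v w hv hw s hs0 hs1 t
      rw [map_add, map_smul, map_smul, smul_eq_mul, smul_eq_mul]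
      have := hv t
      have := hw t
      have h1 : 0 ≤ 1 - s := by linarith
      positivity
    · intro v hv
      obtain ⟨-, hnull, hex⟩ := Finset.mem_filter.1 hv
      obtain ⟨hnn, i, s, t, hs, ht⟩ := hA 0 C (by omega) (inst a v) k z j (hb v)
        (length_inst a v) (hlen v) hnull hex p hp hlev
      rw [ivec_inst] at hnn ht
      refine ⟨hnn, i, s, hs, fun hcon => absurd (hcon t) (not_le.2 ?_)⟩
      have e : s * (1 / 2 ^ (0 * sz (inst a v) ^ 0)) = s := by
        rw [zero_mul, pow_zero, div_one, mul_one]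
      rw [e] at ht
      exact ht

/-- the instance with one changed initial value -/
def pert (l : Rec) (i : ℕ) (δ : ℚ) : Rec :=
  List.ofFn fun r : Fin l.length => (coef l r, ini l r + if (r : ℕ) = i then δ else 0)

theorem pert_length (l : Rec) (i : ℕ) (δ : ℚ) : (pert l i δ).length = l.length := by
  unfold pert
  simp

theorem pert_coef (l : Rec) (i : ℕ) (δ : ℚ) : coef (pert l i δ) = coef l := by
  funext r
  unfold coef pert
  by_cases h : r < l.length
  · rw [List.getD_eq_getElem _ _ (by simpa using h), List.getD_eq_getElem _ _ h]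
    simp [coef]
  · rw [List.getD_eq_default _ _ (by simpa using h), List.getD_eq_default _ _ (by simpa using h)]

theorem pert_ini (l : Rec) (i : ℕ) (δ : ℚ) (r : ℕ) (hr : r < l.length) :
    ini (pert l i δ) r = ini l r + if r = i then δ else 0 := by
  unfold pert
  conv_lhs => unfold ini
  rw [List.getD_eq_getElem _ _ (by simpa using hr)]
  have h1 : ini l r = (l[r]).2 := by
    unfold ini
    rw [List.getD_eq_getElem _ _ hr]
  rw [h1]
  simp

theorem pert_ini' (l : Rec) (i : ℕ) (δ : ℚ) (r : ℕ) (hr : l.length ≤ r) :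
    ini (pert l i δ) r = ini l r := by
  unfold pert ini
  rw [List.getD_eq_default _ _ (by simpa using hr), List.getD_eq_default _ _ (by simpa using hr)]

/-- The two instances have the same order and the same coefficients, and their initial values
differ by at most `ε`. -/
def Near (ε : ℚ) (l l' : Rec) : Prop :=
  l'.length = l.length ∧ (∀ i, coef l' i = coef l i) ∧ ∀ i, |ini l' i - ini l i| ≤ ε

/-- **The exceptional instances are close to instances with nonpositive terms in bounded gaps.** -/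
theorem near_gaps : ∃ A : ℕ, ∀ (d C : ℕ), A + d ≤ C → ∀ l : Rec, 1 ≤ l.length →
    BanachNull {n | seq l n ≤ 0} → (∃ n, 2 ^ (C * sz l ^ C) ≤ n ∧ seq l n ≤ 0) →
    ∃ l' : Rec, Near (1 / 2 ^ (d * sz l ^ d)) l l' ∧ BoundedGaps {n | seq l' n ≤ 0} := by
  obtain ⟨A, hA⟩ := near_neg
  obtain ⟨A', hA'⟩ := inst_est
  refine ⟨A, fun d C hC l hl hnull hbad => ?_⟩
  obtain ⟨z, j, hb⟩ := exists_basis' l l.length rfl
  rcases exists_top hb rfl hl with h0 | ⟨p, hp, hlev⟩
  · refine ⟨l, ⟨rfl, fun _ => rfl, fun i => ?_⟩, l.length + 1, fun n => ⟨n + l.length, ?_,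
      by omega, by omega⟩⟩
    · rw [sub_self, abs_zero]
      positivity
    · show seq l (n + l.length) ≤ 0
      rw [h0 l rfl rfl (n + l.length) (by omega)]
  · obtain ⟨-, i, s, t, hs, ht⟩ := hA d C hC l l.length z j hb rfl hl hnull hbad p hp hlev
    obtain ⟨s', hs', hss⟩ : ∃ s' : ℚ, (s' = 1 ∨ s' = -1) ∧ (s' : ℝ) = s := by
      rcases hs with rfl | rfl
      · exact ⟨1, Or.inl rfl, by norm_num⟩
      · exact ⟨-1, Or.inr rfl, by norm_num⟩
    set δ : ℚ := s' * (1 / 2 ^ (d * sz l ^ d)) with hδ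
    set l' := pert l i δ with hl'
    have hb' : Basis l' l.length z j := hb.congr (pert_length l i δ) (pert_coef l i δ)
    have hiv : ivec l' l.length = ivec l l.length +
        (s * (1 / 2 ^ (d * sz l ^ d))) • Pi.single i 1 := by
      funext r
      unfold ivec
      have h1 : seq l' r = ini l' r := by
        rw [seq, if_pos (by rw [hl', pert_length]; exact r.2)]
      have h2 : seq l r = ini l r := by rw [seq, if_pos r.2]
      rw [h1, hl', pert_ini l i δ r r.2, Pi.add_apply, Pi.smul_apply, Pi.single_apply,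
        smul_eq_mul, h2]
      by_cases hri : r = i
      · rw [if_pos (by rw [hri]), if_pos hri, hδ]
        push_cast
        rw [hss]
        ring
      · rw [if_neg (fun h => hri (Fin.ext h)), if_neg hri]
        push_cast
        ring
    refine ⟨l', ⟨pert_length l i δ, fun r => by rw [hl', pert_coef], fun r => ?_⟩, ?_⟩
    · rcases Nat.lt_or_ge r l.length with hr | hr
      · rw [hl', pert_ini l i δ r hr]
        rw [add_sub_cancel_left]
        split_ifs
        · rw [hδ, abs_mul]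
          have h1 : |s'| = 1 := by
            rcases hs' with h | h <;> rw [h] <;> norm_num
          rw [h1, one_mul, abs_of_nonneg (by positivity)]
        · rw [abs_zero]
          positivity
      · rw [hl', pert_ini' l i δ r hr, sub_self, abs_zero]
        positivity
    · have hlen' : l'.length = l.length := pert_length l i δ
      refine gaps_of_phi ‖z p‖ (j p) hp (ivec l' l.length) (2 ^ (A' * sz l' ^ A'))
        (2 ^ (A' * sz l' ^ A')) (by positivity) (fun t ht => ?_) t (by rw [hiv]; exact ht)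
      exact hA' l' l.length z j hb' hlen' (by rw [hlen']; exact hl) _ (mat_ivec hb') ‖z p‖ (j p)
        hp ⟨p, rfl, rfl⟩ (hlev _) t ht

end Pool.Agent.J4H65.GP
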