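import Pool.Agent.H612.LR.Defs

/-!
# Sizes of instances
-/

set_option autoImplicit false

namespace Pool.Agent.J4H65.GP

open Pool.Agent.H612.LR

theorem nat_le_bits (n : ℕ) : n < 2 ^ n.bits.length := by
  rw [Nat.size_eq_bits_len]
  exact Nat.lt_size_self n

theorem mem_sz (l : Rec) (p : ℚ × ℚ) (hp : p ∈ l) :
    1 + (p.1.num.natAbs.bits.length + (p.1.den.bits.length + (p.2.num.natAbs.bits.length +
      p.2.den.bits.length))) ≤ sz l := by
  unfold sz szList
  rw [List.length_flatMap]
  refine le_trans ?_ (List.le_sum_of_mem (List.mem_map_of_mem hp))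
  simp only [List.length_cons, List.length_append]
  omega

theorem rat_bounds (r : ℚ) (N : ℕ) (h1 : r.num.natAbs.bits.length ≤ N)
    (h2 : r.den.bits.length ≤ N) : |r| ≤ 2 ^ N ∧ (r ≠ 0 → 1 / 2 ^ N ≤ |r|) := by
  have hd : (0 : ℚ) < r.den := by exact_mod_cast r.den_pos
  have hd1 : (1 : ℚ) ≤ r.den := by exact_mod_cast r.den_pos
  have habs : |r| = (r.num.natAbs : ℚ) / r.den := by
    conv_lhs => rw [← Rat.num_div_den r]
    rw [abs_div, abs_of_pos hd, Nat.cast_natAbs, Int.cast_abs]
  have hn : (r.num.natAbs : ℚ) ≤ 2 ^ N := by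
    have := (nat_le_bits r.num.natAbs).le.trans (Nat.pow_le_pow_right (by norm_num) h1)
    exact_mod_cast this
  have hdn : (r.den : ℚ) ≤ 2 ^ N := by
    have := (nat_le_bits r.den).le.trans (Nat.pow_le_pow_right (by norm_num) h2)
    exact_mod_cast this
  rw [habs]
  constructor
  · rw [div_le_iff₀ hd]
    nlinarith [hn, hd1, (by positivity : (0 : ℚ) ≤ 2 ^ N)]
  · intro hr
    have h3 : (1 : ℚ) ≤ r.num.natAbs := by
      have : 1 ≤ r.num.natAbs := Int.natAbs_pos.2 (Rat.num_ne_zero.2 hr)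
      exact_mod_cast this
    rw [div_le_div_iff₀ (by positivity) hd]
    nlinarith

theorem getD_mem (l : Rec) (i : ℕ) (hi : i < l.length) : l.getD i (0, 0) ∈ l := by
  rw [List.getD_eq_getElem l _ hi]
  exact List.getElem_mem hi

theorem coef_bounds (l : Rec) (i : ℕ) (hi : i < l.length) :
    |coef l i| ≤ 2 ^ sz l ∧ (coef l i ≠ 0 → 1 / 2 ^ sz l ≤ |coef l i|) := by
  have h := mem_sz l _ (getD_mem l i hi)
  unfold coef
  exact rat_bounds _ _ (by omega) (by omega)

theorem ini_bounds (l : Rec) (i : ℕ) (hi : i < l.length) : |ini l i| ≤ 2 ^ sz l := by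
  have h := mem_sz l _ (getD_mem l i hi)
  unfold ini
  exact (rat_bounds _ _ (by omega) (by omega)).1

theorem prod_getD (l : Rec) (d : ℚ × ℚ) (g : ℚ × ℚ → ℕ) :
    ∏ i ∈ Finset.range l.length, g (l.getD i d) = (l.map g).prod := by
  induction l with
  | nil => simp
  | cons b l ih =>
    rw [List.length_cons, Finset.prod_range_succ', List.map_cons, List.prod_cons, ← ih, mul_comm]
    simp

/-- the common denominator of the coefficients -/
def cden (k : ℕ) (a : ℕ → ℚ) : ℕ := ∏ i ∈ Finset.range k, (a i).den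

theorem cden_pos (k : ℕ) (a : ℕ → ℚ) : 1 ≤ cden k a :=
  Nat.succ_le_of_lt (Finset.prod_pos fun i _ => (a i).den_pos)

theorem cden_int (k : ℕ) (a : ℕ → ℚ) (i : ℕ) (hi : i < k) : ∃ c : ℤ, a i * cden k a = c := by
  obtain ⟨m, hm⟩ : (a i).den ∣ cden k a := Finset.dvd_prod_of_mem _ (Finset.mem_range.2 hi)
  refine ⟨(a i).num * m, ?_⟩
  rw [hm]
  push_cast
  rw [← mul_assoc, Rat.mul_den_eq_num]

theorem cden_le (l : Rec) : cden l.length (coef l) ≤ 2 ^ sz l := by
  have h1 : cden l.length (coef l) = (l.map fun p : ℚ × ℚ => p.1.den).prod :=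
    prod_getD l (0, 0) fun p => p.1.den
  rw [h1]
  unfold sz szList
  induction l with
  | nil => simp
  | cons p l ih =>
    rw [List.map_cons, List.prod_cons, List.flatMap_cons, List.length_append]
    have h2 : ∀ t : Rec, (∏ i ∈ Finset.range t.length, ((t.getD i (0, 0)).1).den) =
        (t.map fun p : ℚ × ℚ => p.1.den).prod := fun t => prod_getD t (0, 0) fun p => p.1.den
    have ih' := ih (h2 l)
    have h3 : p.1.den ≤ 2 ^ (p.1.den.bits.length) := (nat_le_bits _).le
    calc p.1.den * (l.map fun p : ℚ × ℚ => p.1.den).prod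
        ≤ 2 ^ (p.1.den.bits.length) * 2 ^ (l.flatMap fun p => true ::
          (p.1.num.natAbs.bits ++ (p.1.den.bits ++ (p.2.num.natAbs.bits ++ p.2.den.bits)))).length
          := Nat.mul_le_mul h3 ih'
      _ ≤ _ := by
        rw [← pow_add]
        refine Nat.pow_le_pow_right (by norm_num) ?_
        simp only [List.length_cons, List.length_append]
        omega

end Pool.Agent.J4H65.GP
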