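import Pool.Agent.J4H65.GP.Det
import Pool.Agent.J4H65.GP.Size

/-!
# The coefficients of a linear recurrence sequence in the basis of the sequences `bs z j`
-/

set_option autoImplicit false

namespace Pool.Agent.J4H65.GP

open Polynomial Pool.Agent.H612.LR

theorem chi_monic (l : Rec) : (chi l).Monic ∧ (chi l).natDegree = l.length := by
  have hdeg : (∑ i ∈ Finset.range l.length, C (coef l i) * X ^ (l.length - 1 - i) : ℚ[X]).degree
      < (l.length : WithBot ℕ) := by
    refine (Polynomial.degree_sum_le _ _).trans_lt ?_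
    rw [Finset.sup_lt_iff (by exact_mod_cast WithBot.bot_lt_coe _)]
    intro i hi
    refine (degree_C_mul_X_pow_le _ _).trans_lt ?_
    have := Finset.mem_range.1 hi
    exact_mod_cast (by omega : l.length - 1 - i < l.length)
  have hm : (chi l).Monic := monic_X_pow_sub hdeg
  refine ⟨hm, ?_⟩
  have h1 : (chi l).degree = (l.length : WithBot ℕ) := by
    unfold chi
    rw [degree_sub_eq_left_of_degree_lt (by rw [degree_X_pow]; exact hdeg), degree_X_pow]
  exact natDegree_eq_of_degree_eq_some h1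

theorem chi_int (l : Rec) (i : ℕ) :
    ∃ c : ℤ, (chi l).coeff i * cden l.length (coef l) = c := by
  have key : (chi l).coeff i * cden l.length (coef l) ∈ (Int.castRingHom ℚ).range := by
    unfold chi
    rw [coeff_sub, finsetSum_coeff, sub_mul, Finset.sum_mul]
    refine sub_mem ?_ (sum_mem fun s hs => ?_)
    · rw [coeff_X_pow]
      split_ifs
      · exact ⟨cden l.length (coef l), by simp⟩
      · exact ⟨0, by simp⟩
    · rw [coeff_C_mul, coeff_X_pow]
      split_ifs
      · obtain ⟨c, hc⟩ := cden_int l.length (coef l) s (Finset.mem_range.1 hs)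
        exact ⟨c, by rw [mul_one, hc]; simp⟩
      · exact ⟨0, by simp⟩
  obtain ⟨c, hc⟩ := key
  exact ⟨c, by rw [← hc]; simp⟩

/-- a basis of the sequences of the recurrence -/
structure Basis (l : Rec) (k : ℕ) (z : Fin k → ℂ) (j : Fin k → ℕ) : Prop where
  lt : ∀ i, j i < (croots l).count (z i)
  sur : ∀ x : ℂ, ∀ s < (croots l).count x, ∃ i, z i = x ∧ j i = s
  inj : ∀ i i', z i = z i' → j i = j i' → i = i'
  det : 1 ≤ ‖(mat z j).det‖ * (cden l.length (coef l) : ℝ) ^ (k * k)

theorem exists_basis (l : Rec) : ∃ (z : Fin l.length → ℂ) (j : Fin l.length → ℕ),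
    Basis l l.length z j := by
  obtain ⟨z, j, h1, h2, h3, h4⟩ := det_lower l.length (chi l) (chi_monic l).1 (chi_monic l).2
    (cden l.length (coef l)) (cden_pos _ _) (chi_int l)
  refine ⟨z, j, ?_, ?_, h3, h4⟩
  · intro i
    convert h1 i using 1
    unfold croots
    congr
  · intro x s hs
    refine h2 x s ?_
    convert hs using 1
    unfold croots
    congr

theorem bs_rec (l : Rec) (x : ℂ) (s : ℕ) (hs : s < (croots l).count x) (n : ℕ)
    (hn : l.length ≤ n) :
    bs x s n = ∑ i ∈ Finset.range l.length, ((coef l i : ℚ) : ℂ) * bs x s (n - 1 - i) := by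
  classical
  have hd : (X - C x) ^ (s + 1) ∣ (chi l).map (algebraMap ℚ ℂ) := by
    refine (pow_dvd_pow _ ?_).trans (pow_rootMultiplicity_dvd _ x)
    rw [← count_roots]
    exact Nat.succ_le_of_lt (by
      unfold croots at hs
      convert hs)
  have hd2 := coeff_of_dvd x (X ^ (n - l.length) * (chi l).map (algebraMap ℚ ℂ)) (s + 1)
    (hd.mul_left _) s (Nat.lt_succ_self s)
  have h2 : X ^ (n - l.length) * (chi l).map (algebraMap ℚ ℂ) =
      X ^ n - ∑ i ∈ Finset.range l.length, C ((coef l i : ℚ) : ℂ) * X ^ (n - 1 - i) := by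
    unfold chi
    rw [Polynomial.map_sub, Polynomial.map_pow, map_X, Polynomial.map_sum, mul_sub, ← pow_add,
      Nat.sub_add_cancel hn, Finset.mul_sum]
    congr 1
    refine Finset.sum_congr rfl fun i hi => ?_
    rw [Polynomial.map_mul, map_C, Polynomial.map_pow, map_X, mul_left_comm, ← pow_add]
    have := Finset.mem_range.1 hi
    rw [show n - l.length + (l.length - 1 - i) = n - 1 - i by omega]
    simp
  rw [h2, map_sub, coeff_sub, bs_eq, map_sum, finsetSum_coeff] at hd2
  rw [eq_of_sub_eq_zero hd2]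
  refine Finset.sum_congr rfl fun i _ => ?_
  rw [taylor_mul, taylor_C, coeff_C_mul, bs_eq]

theorem seq_rec (l : Rec) (n : ℕ) (hn : l.length ≤ n) :
    seq l n = ∑ i ∈ Finset.range l.length, coef l i * seq l (n - 1 - i) := by
  conv_lhs => rw [seq]
  rw [if_neg (by omega), Finset.sum_range]

theorem rep (l : Rec) (z : Fin l.length → ℂ) (j : Fin l.length → ℕ) (hb : Basis l l.length z j)
    (c : Fin l.length → ℂ)
    (hc : (mat z j).mulVec c = fun n : Fin l.length => ((seq l n : ℚ) : ℂ)) :
    ∀ n, ((seq l n : ℚ) : ℂ) = ∑ i, c i * bs (z i) (j i) n := by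
  intro n
  induction n using Nat.strong_induction_on with
  | _ n ih =>
    rcases Nat.lt_or_ge n l.length with h | h
    · have := congrFun hc ⟨n, h⟩
      simp only [Matrix.mulVec, dotProduct, mat, Matrix.of_apply] at this
      rw [← this]
      exact Finset.sum_congr rfl fun i _ => mul_comm _ _
    · rw [seq_rec l n h]
      push_cast
      have h1 : ∀ i ∈ Finset.range l.length, ((coef l i : ℚ) : ℂ) * ((seq l (n - 1 - i) : ℚ) : ℂ) =
          ∑ p, c p * (((coef l i : ℚ) : ℂ) * bs (z p) (j p) (n - 1 - i)) := by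
        intro i hi
        have := Finset.mem_range.1 hi
        rw [ih (n - 1 - i) (by omega), Finset.mul_sum]
        exact Finset.sum_congr rfl fun p _ => by ring
      rw [Finset.sum_congr rfl h1, Finset.sum_comm]
      refine Finset.sum_congr rfl fun p _ => ?_
      rw [← Finset.mul_sum, ← bs_rec l (z p) (j p) (hb.lt p) n h]

theorem coef_bound (k : ℕ) (A : Matrix (Fin k) (Fin k) ℂ) (v c : Fin k → ℂ) (x δ : ℝ)
    (hA : ∀ i j, ‖A i j‖ ≤ x) (hv : ∀ i, ‖v i‖ ≤ x) (hδ : 0 < δ) (hdet : δ ≤ ‖A.det‖)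
    (hc : A.mulVec c = v) (i : Fin k) : ‖c i‖ ≤ (k.factorial : ℝ) * x ^ k / δ := by
  have h1 : (A.updateCol i v).det = A.det * c i := by
    rw [← Matrix.cramer_apply, Matrix.cramer_eq_adjugate_mulVec, ← hc, Matrix.mulVec_mulVec,
      Matrix.adjugate_mul, Matrix.smul_mulVec, Matrix.one_mulVec]
    rfl
  have h2 : ‖(A.updateCol i v).det‖ ≤ (k.factorial : ℝ) * x ^ k := by
    have := Matrix.det_le (A := A.updateCol i v)
      (abv := IsAbsoluteValue.toAbsoluteValue (norm : ℂ → ℝ)) (x := x) (fun p q => by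
        simp only [IsAbsoluteValue.toAbsoluteValue_apply]
        rw [Matrix.updateCol_apply]
        split_ifs
        · exact hv p
        · exact hA p q)
    simpa [IsAbsoluteValue.toAbsoluteValue_apply, nsmul_eq_mul] using this
  rw [le_div_iff₀ hδ]
  rw [h1, norm_mul] at h2
  calc ‖c i‖ * δ ≤ ‖c i‖ * ‖A.det‖ := mul_le_mul_of_nonneg_left hdet (norm_nonneg _)
    _ ≤ _ := by rw [mul_comm]; exact h2

/-- characteristic roots -/
theorem isRoot_of_count (l : Rec) (x : ℂ) (hx : 0 < (croots l).count x) : IsRoot l x := by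
  classical
  have h : x ∈ croots l := Multiset.count_pos.1 hx
  unfold croots at h
  rw [mem_roots', IsRoot.def, eval_map] at h
  have h2 := h.2
  unfold chi at h2
  rw [eval₂_sub, eval₂_pow, eval₂_X, eval₂_finsetSum] at h2
  unfold Pool.Agent.H612.LR.IsRoot
  rw [eq_of_sub_eq_zero h2]
  refine Finset.sum_congr rfl fun i _ => ?_
  rw [eval₂_mul, eval₂_C, eval₂_pow, eval₂_X]
  simp

theorem root_upper (l : Rec) (x : ℂ) (hx : Pool.Agent.H612.LR.IsRoot l x) (hl : 1 ≤ l.length)
    (N : ℕ) (hN : sz l ≤ N) (hN1 : l.length ≤ N) : ‖x‖ ≤ 2 ^ (2 * N) := by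
  rcases le_or_gt ‖x‖ 1 with h | h
  · exact h.trans (one_le_pow₀ (by norm_num))
  · have h0 : 0 < ‖x‖ := lt_trans one_pos h
    have h1 : ‖x‖ ^ l.length ≤ (l.length * 2 ^ N) * ‖x‖ ^ (l.length - 1) := by
      rw [← norm_pow, hx]
      refine (norm_sum_le _ _).trans ?_
      calc ∑ i ∈ Finset.range l.length, ‖((coef l i : ℚ) : ℂ) * x ^ (l.length - 1 - i)‖
          ≤ ∑ _i ∈ Finset.range l.length, 2 ^ N * ‖x‖ ^ (l.length - 1) := by
            refine Finset.sum_le_sum fun i hi => ?_
            rw [norm_mul, norm_pow]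
            have h3 := (coef_bounds l i (Finset.mem_range.1 hi)).1
            have h4 : ‖((coef l i : ℚ) : ℂ)‖ ≤ 2 ^ N := by
              have h5 : ((|coef l i| : ℚ) : ℝ) ≤ ((2 ^ sz l : ℚ) : ℝ) := by exact_mod_cast h3
              push_cast at h5
              rw [show ((coef l i : ℚ) : ℂ) = (((coef l i : ℚ) : ℝ) : ℂ) by push_cast; rfl,
                Complex.norm_real, Real.norm_eq_abs]
              exact h5.trans (pow_le_pow_right₀ (by norm_num) hN)
            exact mul_le_mul h4 (pow_le_pow_right₀ h.le (by omega)) (by positivity)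
              (by positivity)
        _ = _ := by rw [Finset.sum_const, Finset.card_range, nsmul_eq_mul]; ring
    obtain ⟨m, hm⟩ : ∃ m, l.length = m + 1 := ⟨l.length - 1, by omega⟩
    rw [show l.length - 1 = m by omega] at h1
    have h2 : ‖x‖ ≤ l.length * 2 ^ N := by
      have h6 : ‖x‖ ^ m * ‖x‖ ≤ ‖x‖ ^ m * (l.length * 2 ^ N) := by
        calc ‖x‖ ^ m * ‖x‖ = ‖x‖ ^ l.length := by rw [hm, pow_succ]
          _ ≤ _ := by rw [mul_comm (‖x‖ ^ m)]; exact h1
      exact le_of_mul_le_mul_left h6 (by positivity)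
    have h7 : (l.length : ℝ) ≤ 2 ^ N := by
      have : l.length ≤ 2 ^ N := hN1.trans (Nat.lt_two_pow_self).le
      exact_mod_cast this
    calc ‖x‖ ≤ l.length * 2 ^ N := h2
      _ ≤ 2 ^ N * 2 ^ N := mul_le_mul_of_nonneg_right h7 (by positivity)
      _ = 2 ^ (2 * N) := by rw [← pow_add]; congr 1; ring

theorem root_lower (l : Rec) (x : ℂ) (hx : Pool.Agent.H612.LR.IsRoot l x) (hx0 : x ≠ 0)
    (hl : 1 ≤ l.length) (N : ℕ) (hN : sz l ≤ N) (hN1 : l.length ≤ N) :
    1 ≤ ‖x‖ * 2 ^ (4 * N) := by
  classical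
  rcases le_or_gt 1 ‖x‖ with h | h
  · have : (1 : ℝ) ≤ 2 ^ (4 * N) := one_le_pow₀ (by norm_num)
    nlinarith [norm_nonneg x]
  · have h0 : 0 < ‖x‖ := norm_pos_iff.2 hx0
    -- the last nonzero coefficient
    have hex : ∃ r, r < l.length ∧ coef l r ≠ 0 ∧ ∀ s < l.length, r < s → coef l s = 0 := by
      have hne : ((Finset.range l.length).filter fun s => coef l s ≠ 0).Nonempty := by
        by_contra hcon
        rw [Finset.not_nonempty_iff_eq_empty, Finset.filter_eq_empty_iff] at hcon
        push Not at hcon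
        have : x ^ l.length = 0 := by
          rw [hx]
          refine Finset.sum_eq_zero fun i hi => ?_
          rw [hcon hi]
          simp
        exact hx0 (pow_eq_zero_iff (by omega) |>.1 this)
      refine ⟨((Finset.range l.length).filter fun s => coef l s ≠ 0).max' hne, ?_, ?_, ?_⟩
      · have := Finset.max'_mem _ hne
        rw [Finset.mem_filter, Finset.mem_range] at this
        exact this.1
      · have := Finset.max'_mem _ hne
        rw [Finset.mem_filter, Finset.mem_range] at this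
        exact this.2
      · intro s hs hlt
        by_contra hcon
        have := Finset.le_max' ((Finset.range l.length).filter fun s => coef l s ≠ 0) s
          (Finset.mem_filter.2 ⟨Finset.mem_range.2 hs, hcon⟩)
        exact absurd this (not_le.2 hlt)
    obtain ⟨r, hr, hr0, hr1⟩ := hex
    have h1 : x ^ (r + 1) = ∑ i ∈ Finset.range (r + 1), ((coef l i : ℚ) : ℂ) * x ^ (r - i) := by
      have h2 : x ^ (l.length - 1 - r) * x ^ (r + 1) = x ^ (l.length - 1 - r) *
          ∑ i ∈ Finset.range (r + 1), ((coef l i : ℚ) : ℂ) * x ^ (r - i) := by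
        rw [← pow_add, show l.length - 1 - r + (r + 1) = l.length by omega, hx, Finset.mul_sum]
        have h3 : Finset.range (r + 1) ⊆ Finset.range l.length :=
          Finset.range_subset_range.2 (by omega)
        rw [← Finset.sum_subset h3]
        · refine Finset.sum_congr rfl fun i hi => ?_
          have := Finset.mem_range.1 hi
          rw [mul_left_comm, ← pow_add, show l.length - 1 - r + (r - i) = l.length - 1 - i by omega]
        · intro i hi hni
          rw [Finset.mem_range] at hi hni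
          rw [hr1 i hi (by omega)]
          simp
      exact mul_left_cancel₀ (pow_ne_zero _ hx0) h2
    rw [Finset.sum_range_succ, Nat.sub_self, pow_zero, mul_one] at h1
    have hco : ∀ i < l.length, ‖((coef l i : ℚ) : ℂ)‖ ≤ 2 ^ N := by
      intro i hi
      have h3 := (coef_bounds l i hi).1
      have h5 : ((|coef l i| : ℚ) : ℝ) ≤ ((2 ^ sz l : ℚ) : ℝ) := by exact_mod_cast h3
      push_cast at h5
      rw [show ((coef l i : ℚ) : ℂ) = (((coef l i : ℚ) : ℝ) : ℂ) by push_cast; rfl,
        Complex.norm_real, Real.norm_eq_abs]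
      exact h5.trans (pow_le_pow_right₀ (by norm_num) hN)
    have hlow : 1 ≤ ‖((coef l r : ℚ) : ℂ)‖ * 2 ^ N := by
      have h3 := (coef_bounds l r hr).2 hr0
      have h5 : ((1 / 2 ^ sz l : ℚ) : ℝ) ≤ ((|coef l r| : ℚ) : ℝ) := by exact_mod_cast h3
      push_cast at h5
      rw [show ((coef l r : ℚ) : ℂ) = (((coef l r : ℚ) : ℝ) : ℂ) by push_cast; rfl,
        Complex.norm_real, Real.norm_eq_abs]
      rw [div_le_iff₀ (by positivity)] at h5
      exact h5.trans (mul_le_mul_of_nonneg_left (pow_le_pow_right₀ (by norm_num) hN)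
        (abs_nonneg _))
    have h2 : ‖((coef l r : ℚ) : ℂ)‖ ≤ ‖x‖ * (1 + r * 2 ^ N) := by
      have h3 : ((coef l r : ℚ) : ℂ) = x ^ (r + 1) -
          ∑ i ∈ Finset.range r, ((coef l i : ℚ) : ℂ) * x ^ (r - i) := by
        rw [h1]
        ring
      rw [h3]
      refine (norm_sub_le _ _).trans ?_
      rw [mul_add, mul_one]
      refine add_le_add ?_ ?_
      · rw [norm_pow, pow_succ]
        exact mul_le_of_le_one_left h0.le (pow_le_one₀ h0.le h.le)
      · refine (norm_sum_le _ _).trans ?_
        calc ∑ i ∈ Finset.range r, ‖((coef l i : ℚ) : ℂ) * x ^ (r - i)‖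
            ≤ ∑ _i ∈ Finset.range r, 2 ^ N * ‖x‖ := by
              refine Finset.sum_le_sum fun i hi => ?_
              have hi' := Finset.mem_range.1 hi
              rw [norm_mul, norm_pow]
              refine mul_le_mul (hco i (by omega)) ?_ (by positivity) (by positivity)
              obtain ⟨e, he⟩ : ∃ e, r - i = e + 1 := ⟨r - i - 1, by omega⟩
              rw [he, pow_succ]
              exact mul_le_of_le_one_left h0.le (pow_le_one₀ h0.le h.le)
          _ = _ := by rw [Finset.sum_const, Finset.card_range, nsmul_eq_mul]; ring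
    have h7 : (1 + r * 2 ^ N : ℝ) ≤ 2 ^ (3 * N) := by
      have h8 : (r : ℝ) + 1 ≤ 2 ^ N := by
        have : r + 1 ≤ 2 ^ N := by
          have := Nat.lt_two_pow_self (n := N)
          omega
        exact_mod_cast this
      have h9 : (1 : ℝ) ≤ 2 ^ N := one_le_pow₀ (by norm_num)
      calc (1 + r * 2 ^ N : ℝ) ≤ ((r : ℝ) + 1) * 2 ^ N := by nlinarith
        _ ≤ 2 ^ N * 2 ^ N := mul_le_mul_of_nonneg_right h8 (by positivity)
        _ ≤ 2 ^ N * 2 ^ N * 2 ^ N := le_mul_of_one_le_right (by positivity) h9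
        _ = 2 ^ (3 * N) := by rw [← pow_add, ← pow_add]; congr 1; ring
    calc (1 : ℝ) ≤ ‖((coef l r : ℚ) : ℂ)‖ * 2 ^ N := hlow
      _ ≤ (‖x‖ * 2 ^ (3 * N)) * 2 ^ N := by
        refine mul_le_mul_of_nonneg_right (h2.trans ?_) (by positivity)
        exact mul_le_mul_of_nonneg_left h7 h0.le
      _ = ‖x‖ * 2 ^ (4 * N) := by rw [mul_assoc, ← pow_add]; congr 2; ring

end Pool.Agent.J4H65.GP
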