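import Pool.Agent.H612.LR.T_NUM
import Pool.Agent.J4H65.GP.Coef

/-!
# Effective asymptotics
-/

set_option autoImplicit false

namespace Pool.Agent.J4H65.GP

open Pool.Agent.H612.LR

open Classical in
/-- the dominant part of level `(ρ, M)` -/
noncomputable def dom {k : ℕ} (z : Fin k → ℂ) (j : Fin k → ℕ) (ρ : ℝ) (M : ℕ) (c : Fin k → ℂ)
    (t : ℕ) : ℂ :=
  ∑ i ∈ Finset.univ.filter (fun i => ‖z i‖ = ρ ∧ j i = M), c i * (z i / (ρ : ℂ)) ^ t

theorem choose_ratio (t M j : ℕ) (hj : j < M) :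
    (t + M).choose j * (t + 1) ≤ 2 ^ M * (t + M).choose M := by
  have h1 : (t + M).choose M * M.choose j = (t + M).choose j * (t + M - j).choose (M - j) :=
    Nat.choose_mul hj.le
  have h2 : t + 1 ≤ (t + M - j).choose (M - j) := by
    have e : t + M - j = t + (M - j) := by omega
    rw [e, Nat.choose_symm_add.symm]
    calc t + 1 = (t + 1).choose t := by simp
      _ ≤ (t + (M - j)).choose t := Nat.choose_le_choose t (by omega)
  calc (t + M).choose j * (t + 1) ≤ (t + M).choose j * (t + M - j).choose (M - j) :=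
        Nat.mul_le_mul_left _ h2
    _ = (t + M).choose M * M.choose j := h1.symm
    _ ≤ (t + M).choose M * 2 ^ M := Nat.mul_le_mul_left _ (Nat.choose_le_two_pow _ _)
    _ = _ := mul_comm _ _

theorem term_eq (k : ℕ) (x : ℂ) (ρ Q : ℝ) (M j t : ℕ) (hM : M < k) (hρ : 0 < ρ)
    (hQ : 1 ≤ Q) (hρQ : ρ ≤ Q) (hx : ‖x‖ = ρ) (hj : j < M) :
    ‖bs x j (t + M)‖ ≤ 2 ^ k * Q ^ k * (((t + M).choose M : ℝ) * ρ ^ t) / ((t : ℝ) + 1) := by
  unfold bs
  rw [norm_mul, norm_pow, hx, Complex.norm_natCast, le_div_iff₀ (by positivity)]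
  have h1 : ((t + M).choose j : ℝ) * ((t : ℝ) + 1) ≤ 2 ^ M * ((t + M).choose M : ℝ) := by
    exact_mod_cast choose_ratio t M j hj
  have h2 : ρ ^ (t + M - j) ≤ ρ ^ t * Q ^ k := by
    rw [show t + M - j = t + (M - j) by omega, pow_add]
    refine mul_le_mul_of_nonneg_left ?_ (by positivity)
    exact (pow_le_pow_left₀ hρ.le hρQ _).trans (pow_le_pow_right₀ hQ (by omega))
  calc ρ ^ (t + M - j) * ((t + M).choose j : ℝ) * ((t : ℝ) + 1)
      = ρ ^ (t + M - j) * (((t + M).choose j : ℝ) * ((t : ℝ) + 1)) := by ring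
    _ ≤ (ρ ^ t * Q ^ k) * (2 ^ M * ((t + M).choose M : ℝ)) :=
        mul_le_mul h2 h1 (by positivity) (by positivity)
    _ ≤ (ρ ^ t * Q ^ k) * (2 ^ k * ((t + M).choose M : ℝ)) := by
        refine mul_le_mul_of_nonneg_left ?_ (by positivity)
        exact mul_le_mul_of_nonneg_right (pow_le_pow_right₀ (by norm_num) hM.le) (by positivity)
    _ = _ := by ring

theorem num_small (k p M t : ℕ) (hk : 1 ≤ k) (ht : 2 ^ (2 * p + 2 * k + 40) ≤ t) :
    ((t + M : ℕ) : ℝ) ^ k * (1 - 1 / 2 ^ p) ^ (t + M) ≤ 1 / ((t : ℝ) + 1) := by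
  have h0 : 1 ≤ t := le_trans Nat.one_le_two_pow ht
  have h := t_NUM (k + 1) p 0 0 (t + M) (by omega)
    ((Nat.pow_le_pow_right (by norm_num) (by omega)).trans (ht.trans (Nat.le_add_right t M)))
  have hθ : (0 : ℝ) ≤ (1 - 1 / 2 ^ p) ^ (t + M) := by
    refine pow_nonneg ?_ _
    rw [sub_nonneg, div_le_one (by positivity)]
    exact one_le_pow₀ (by norm_num)
  have ht1 : (1 : ℝ) ≤ t := by exact_mod_cast h0
  have hk1 : (1 : ℝ) ≤ ((k + 1 : ℕ) : ℝ) ^ 2 := by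
    refine one_le_pow₀ ?_
    push_cast
    have : (0 : ℝ) ≤ k := Nat.cast_nonneg k
    linarith
  have hn : (t : ℝ) ≤ ((t + M : ℕ) : ℝ) := by
    push_cast
    have : (0 : ℝ) ≤ M := Nat.cast_nonneg M
    linarith
  set n : ℝ := ((t + M : ℕ) : ℝ) with hnd
  set θ : ℝ := (1 - 1 / 2 ^ p) ^ (t + M) with hθd
  have h1 : n ^ (k + 1) * θ * 4 < 1 := by
    have h3 : n ^ (k + 1) * θ * 4 ≤ ((k + 1 : ℕ) : ℝ) ^ 2 * 2 ^ 2 ^ 0 * n ^ (k + 1) * θ * 2 ^ 2 ^ 0 := by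
      have e : ((k + 1 : ℕ) : ℝ) ^ 2 * 2 ^ 2 ^ 0 * n ^ (k + 1) * θ * 2 ^ 2 ^ 0 =
          ((k + 1 : ℕ) : ℝ) ^ 2 * (n ^ (k + 1) * θ * 4) := by
        norm_num
        ring
      rw [e]
      exact le_mul_of_one_le_left (by positivity) hk1
    exact lt_of_le_of_lt h3 h
  rw [le_div_iff₀ (by positivity)]
  calc n ^ k * θ * ((t : ℝ) + 1) ≤ n ^ k * θ * (n * 4) := by
        refine mul_le_mul_of_nonneg_left ?_ (by positivity)
        nlinarith
    _ = n ^ (k + 1) * θ * 4 := by ring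
    _ ≤ 1 := h1.le

theorem term_lt (k : ℕ) (hk : 1 ≤ k) (x : ℂ) (ρ Q : ℝ) (M p j t : ℕ) (hM : M < k) (hρ : 0 < ρ)
    (hQ : 1 ≤ Q) (hρQ : ρ ≤ Q) (hρQ' : 1 ≤ ρ * Q) (hp : 1 ≤ p) (hx : ‖x‖ ≤ ρ * (1 - 1 / 2 ^ p))
    (hj : j < k) (ht : 2 ^ (2 * p + 2 * k + 40) ≤ t) :
    ‖bs x j (t + M)‖ ≤ 2 ^ k * Q ^ k * (((t + M).choose M : ℝ) * ρ ^ t) / ((t : ℝ) + 1) := by
  have hC : (1 : ℝ) ≤ ((t + M).choose M : ℝ) := by
    exact_mod_cast Nat.choose_pos (Nat.le_add_left M t)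
  have hnum := num_small k p M t hk ht
  unfold bs
  rw [norm_mul, norm_pow, Complex.norm_natCast]
  have htk : k ≤ t := by
    have h1 : k < 2 ^ k := Nat.lt_two_pow_self
    have h2 : 2 ^ k ≤ 2 ^ (2 * p + 2 * k + 40) := Nat.pow_le_pow_right (by norm_num) (by omega)
    omega
  set θ : ℝ := 1 - 1 / 2 ^ p with hθ
  have hθ1 : 1 / 2 ≤ θ := by
    have : (1 : ℝ) / 2 ^ p ≤ 1 / 2 := by
      rw [div_le_div_iff₀ (by positivity) (by norm_num)]
      have : (2 : ℝ) ^ 1 ≤ 2 ^ p := pow_le_pow_right₀ (by norm_num) hp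
      linarith
    rw [hθ]
    linarith
  have hθ0 : 0 < θ := by linarith
  have h1 : θ ^ (t + M - j) ≤ 2 ^ k * θ ^ (t + M) := by
    have e : θ ^ (t + M) = θ ^ (t + M - j) * θ ^ j := by
      rw [← pow_add, Nat.sub_add_cancel (by omega)]
    have h2 : 1 ≤ 2 ^ k * θ ^ j := by
      calc (1 : ℝ) = 2 ^ j * (1 / 2) ^ j := by rw [← mul_pow]; norm_num
        _ ≤ 2 ^ k * θ ^ j := mul_le_mul (pow_le_pow_right₀ (by norm_num) hj.le)
            (pow_le_pow_left₀ (by norm_num) hθ1 j) (by positivity) (by positivity)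
    rw [e, mul_left_comm]
    exact le_mul_of_one_le_right (by positivity) h2
  have h2 : ρ ^ (t + M - j) ≤ ρ ^ t * Q ^ k := by
    rcases Nat.le_total j M with h | h
    · rw [show t + M - j = t + (M - j) by omega, pow_add]
      refine mul_le_mul_of_nonneg_left ?_ (by positivity)
      exact (pow_le_pow_left₀ hρ.le hρQ _).trans (pow_le_pow_right₀ hQ (by omega))
    · have e : ρ ^ t = ρ ^ (t + M - j) * ρ ^ (j - M) := by
        rw [← pow_add]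
        congr 1
        omega
      have h3 : 1 ≤ ρ ^ (j - M) * Q ^ k := by
        calc (1 : ℝ) ≤ (ρ * Q) ^ (j - M) := one_le_pow₀ hρQ'
          _ = ρ ^ (j - M) * Q ^ (j - M) := mul_pow _ _ _
          _ ≤ ρ ^ (j - M) * Q ^ k :=
            mul_le_mul_of_nonneg_left (pow_le_pow_right₀ hQ (by omega)) (by positivity)
      rw [e, mul_assoc]
      exact le_mul_of_one_le_right (by positivity) h3
  have h3 : (((t + M).choose j : ℕ) : ℝ) ≤ ((t + M : ℕ) : ℝ) ^ k := by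
    have h4 : (t + M).choose j ≤ (t + M) ^ k :=
      (Nat.choose_le_pow _ _).trans (Nat.pow_le_pow_right (by omega) hj.le)
    exact_mod_cast h4
  have h5 : ‖x‖ ^ (t + M - j) ≤ (ρ ^ t * Q ^ k) * (2 ^ k * θ ^ (t + M)) := by
    calc ‖x‖ ^ (t + M - j) ≤ (ρ * θ) ^ (t + M - j) := pow_le_pow_left₀ (norm_nonneg _) hx _
      _ = ρ ^ (t + M - j) * θ ^ (t + M - j) := mul_pow _ _ _
      _ ≤ _ := mul_le_mul h2 h1 (by positivity) (by positivity)
  calc ‖x‖ ^ (t + M - j) * ((t + M).choose j : ℝ)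
      ≤ ((ρ ^ t * Q ^ k) * (2 ^ k * θ ^ (t + M))) * ((t + M : ℕ) : ℝ) ^ k :=
        mul_le_mul h5 h3 (by positivity) (by positivity)
    _ = 2 ^ k * Q ^ k * ρ ^ t * (((t + M : ℕ) : ℝ) ^ k * θ ^ (t + M)) := by ring
    _ ≤ 2 ^ k * Q ^ k * ρ ^ t * (1 / ((t : ℝ) + 1)) :=
        mul_le_mul_of_nonneg_left hnum (by positivity)
    _ = 2 ^ k * Q ^ k * (1 * ρ ^ t) / ((t : ℝ) + 1) := by ring
    _ ≤ _ := by
        refine div_le_div_of_nonneg_right ?_ (by positivity)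
        refine mul_le_mul_of_nonneg_left ?_ (by positivity)
        exact mul_le_mul_of_nonneg_right hC (by positivity)

theorem est (k : ℕ) (hk : 1 ≤ k) (z : Fin k → ℂ) (j : Fin k → ℕ) (c : Fin k → ℂ)
    (hj : ∀ i, j i < k) (u : ℕ → ℂ) (hu : ∀ n, u n = ∑ i, c i * bs (z i) (j i) n)
    (ρ Q Cb : ℝ) (M p : ℕ) (hM : M < k) (hρ : 0 < ρ) (hQ : 1 ≤ Q) (hρQ : ρ ≤ Q)
    (hρQ' : 1 ≤ ρ * Q) (hp : 1 ≤ p)
    (hlev : ∀ i, c i ≠ 0 → ‖z i‖ < ρ ∨ (‖z i‖ = ρ ∧ j i ≤ M))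
    (hgap : ∀ i, ‖z i‖ < ρ → ‖z i‖ ≤ ρ * (1 - 1 / 2 ^ p)) (hCb : ∀ i, ‖c i‖ ≤ Cb)
    (t : ℕ) (ht : 2 ^ (2 * p + 2 * k + 40) ≤ t) :
    ‖u (t + M) - (((t + M).choose M : ℂ) * (ρ : ℂ) ^ t) * dom z j ρ M c t‖ ≤
      (k * Cb * (2 ^ k * Q ^ k)) * (((t + M).choose M : ℝ) * ρ ^ t) / ((t : ℝ) + 1) := by
  classical
  have hρc : (ρ : ℂ) ≠ 0 := by exact_mod_cast hρ.ne'
  have hCb0 : 0 ≤ Cb := (norm_nonneg _).trans (hCb ⟨0, hk⟩)
  set top : Finset (Fin k) := Finset.univ.filter (fun i => ‖z i‖ = ρ ∧ j i = M) with htop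
  have e1 : (((t + M).choose M : ℂ) * (ρ : ℂ) ^ t) * dom z j ρ M c t =
      ∑ i ∈ top, c i * bs (z i) (j i) (t + M) := by
    unfold dom
    rw [Finset.mul_sum]
    refine Finset.sum_congr (by rw [htop]) fun i hi => ?_
    have hi' := (Finset.mem_filter.1 hi).2
    unfold bs
    rw [hi'.2, Nat.add_sub_cancel, div_pow]
    field_simp
  rw [e1, hu, ← Finset.sum_sdiff (Finset.subset_univ top), add_sub_cancel_right]
  refine (norm_sum_le _ _).trans ?_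
  have hterm : ∀ i ∈ Finset.univ \ top, ‖c i * bs (z i) (j i) (t + M)‖ ≤
      Cb * (2 ^ k * Q ^ k * (((t + M).choose M : ℝ) * ρ ^ t) / ((t : ℝ) + 1)) := by
    intro i hi
    have hni : ¬ (‖z i‖ = ρ ∧ j i = M) := by
      intro h
      rw [Finset.mem_sdiff] at hi
      exact hi.2 (Finset.mem_filter.2 ⟨Finset.mem_univ i, h⟩)
    by_cases hc : c i = 0
    · rw [hc, zero_mul, norm_zero]
      positivity
    · rw [norm_mul]
      refine mul_le_mul (hCb i) ?_ (norm_nonneg _) hCb0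
      rcases hlev i hc with h | ⟨h, h'⟩
      · exact term_lt k hk (z i) ρ Q M p (j i) t hM hρ hQ hρQ hρQ' hp (hgap i h) (hj i) ht
      · have hlt : j i < M := lt_of_le_of_ne h' fun h2 => hni ⟨h, h2⟩
        exact term_eq k (z i) ρ Q M (j i) t hM hρ hQ hρQ h hlt
  refine (Finset.sum_le_sum hterm).trans ?_
  rw [Finset.sum_const, nsmul_eq_mul]
  have hcard : (((Finset.univ \ top).card : ℕ) : ℝ) ≤ k := by
    have : (Finset.univ \ top).card ≤ k := by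
      simpa using Finset.card_le_univ (Finset.univ \ top)
    exact_mod_cast this
  calc (((Finset.univ \ top).card : ℕ) : ℝ) *
      (Cb * (2 ^ k * Q ^ k * (((t + M).choose M : ℝ) * ρ ^ t) / ((t : ℝ) + 1)))
      ≤ k * (Cb * (2 ^ k * Q ^ k * (((t + M).choose M : ℝ) * ρ ^ t) / ((t : ℝ) + 1))) :=
        mul_le_mul_of_nonneg_right hcard (by positivity)
    _ = _ := by ring

end Pool.Agent.J4H65.GP
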