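import Pool.Agent.J4H65.UP.Small
import Pool.Agent.J4H65.GP.Est

/-!
# The cone of the initial values with nonnegative dominant part
-/

set_option autoImplicit false

namespace Pool.Agent.J4H65.GP

open Pool.Agent.H612.LR

/-! ### The functionals -/

section

variable {k : ℕ} (z : Fin k → ℂ) (j : Fin k → ℕ) (ρ : ℝ) (M : ℕ)

theorem dom_add (c c' : Fin k → ℂ) (t : ℕ) :
    dom z j ρ M (c + c') t = dom z j ρ M c t + dom z j ρ M c' t := by
  unfold dom
  rw [← Finset.sum_add_distrib]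
  exact Finset.sum_congr rfl fun i _ => by rw [Pi.add_apply, add_mul]

theorem dom_smul (s : ℂ) (c : Fin k → ℂ) (t : ℕ) :
    dom z j ρ M (s • c) t = s * dom z j ρ M c t := by
  unfold dom
  rw [Finset.mul_sum]
  exact Finset.sum_congr rfl fun i _ => by rw [Pi.smul_apply, smul_eq_mul, mul_assoc]

/-- the coefficients of a real vector -/
noncomputable def cvec (v : Fin k → ℝ) : Fin k → ℂ :=
  (mat z j)⁻¹.mulVec (fun n => (v n : ℂ))

theorem cvec_add (v w : Fin k → ℝ) : cvec z j (v + w) = cvec z j v + cvec z j w := by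
  unfold cvec
  rw [← Matrix.mulVec_add]
  congr 1
  funext n
  simp

theorem cvec_smul (s : ℝ) (v : Fin k → ℝ) : cvec z j (s • v) = (s : ℂ) • cvec z j v := by
  unfold cvec
  rw [← Matrix.mulVec_smul]
  congr 1
  funext n
  simp

/-- the real part of the dominant part as a linear functional of the initial values -/
noncomputable def phi (t : ℕ) : (Fin k → ℝ) →ₗ[ℝ] ℝ where
  toFun v := (dom z j ρ M (cvec z j v) t).re
  map_add' v w := by rw [cvec_add, dom_add, Complex.add_re]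
  map_smul' s v := by
    rw [cvec_smul, dom_smul, Complex.re_ofReal_mul]
    rfl

theorem phi_apply (t : ℕ) (v : Fin k → ℝ) :
    phi z j ρ M t v = (dom z j ρ M (cvec z j v) t).re := rfl

variable {z j ρ M}

theorem mat_cvec (hdet : (mat z j).det ≠ 0) (v : Fin k → ℝ) :
    (mat z j).mulVec (cvec z j v) = fun n => (v n : ℂ) := by
  unfold cvec
  rw [Matrix.mulVec_mulVec, Matrix.mul_nonsing_inv _ (isUnit_iff_ne_zero.2 hdet),
    Matrix.one_mulVec]

theorem cvec_uniq (hdet : (mat z j).det ≠ 0) (v : Fin k → ℝ) (c : Fin k → ℂ)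
    (h : (mat z j).mulVec c = fun n => (v n : ℂ)) : cvec z j v = c := by
  unfold cvec
  rw [← h, Matrix.mulVec_mulVec, Matrix.nonsing_inv_mul _ (isUnit_iff_ne_zero.2 hdet),
    Matrix.one_mulVec]

/-! ### Almost periodicity -/

theorem dom_return (hρ : 0 < ρ) (c : Fin k → ℂ) (ε : ℝ) (hε : 0 < ε) (t0 : ℕ) :
    ∃ L : ℕ, ∀ n, ∃ t, n ≤ t ∧ t < n + L ∧ ‖dom z j ρ M c t - dom z j ρ M c t0‖ < ε := by
  classical
  set g : ℕ → ℂ := fun m => if h : m < k then (if ‖z ⟨m, h⟩‖ = ρ then z ⟨m, h⟩ / (ρ : ℂ) else 1)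
    else 1 with hg
  have hg1 : ∀ i ∈ Finset.range k, ‖g i‖ = 1 := by
    intro i hi
    rw [hg]
    simp only [Finset.mem_range.1 hi, dite_true]
    split_ifs with h
    · rw [norm_div, h, Complex.norm_real, Real.norm_of_nonneg hρ.le, div_self hρ.ne']
    · exact norm_one
  have hS : 0 < 1 + ∑ i, ‖c i‖ := by positivity
  obtain ⟨L, hL⟩ := Pool.Agent.J4H65.UP.bohr (Finset.range k) g hg1 (ε / (1 + ∑ i, ‖c i‖))
    (by positivity) t0
  refine ⟨L, fun n => ?_⟩
  obtain ⟨t, h1, h2, h3⟩ := hL n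
  refine ⟨t, h1, h2, ?_⟩
  unfold dom
  rw [← Finset.sum_sub_distrib]
  have hterm : ∀ i ∈ Finset.univ.filter (fun i => ‖z i‖ = ρ ∧ j i = M),
      ‖c i * (z i / (ρ : ℂ)) ^ t - c i * (z i / (ρ : ℂ)) ^ t0‖ ≤
        ‖c i‖ * (ε / (1 + ∑ i, ‖c i‖)) := by
    intro i hi
    rw [← mul_sub, norm_mul]
    refine mul_le_mul_of_nonneg_left ?_ (norm_nonneg _)
    have h4 := h3 i.1 (Finset.mem_range.2 i.2)
    have h5 : g i.1 = z i / (ρ : ℂ) := by
      rw [hg]
      simp only [i.2, dite_true, Fin.eta]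
      rw [if_pos (Finset.mem_filter.1 hi).2.1]
    rw [h5] at h4
    exact h4.le
  refine lt_of_le_of_lt ((norm_sum_le _ _).trans (Finset.sum_le_sum hterm)) ?_
  rw [← Finset.sum_mul]
  have h6 : ∑ i ∈ Finset.univ.filter (fun i => ‖z i‖ = ρ ∧ j i = M), ‖c i‖ ≤ ∑ i, ‖c i‖ :=
    Finset.sum_le_sum_of_subset_of_nonneg (Finset.filter_subset _ _) fun _ _ _ => norm_nonneg _
  calc (∑ i ∈ Finset.univ.filter (fun i => ‖z i‖ = ρ ∧ j i = M), ‖c i‖) *
      (ε / (1 + ∑ i, ‖c i‖)) ≤ (∑ i, ‖c i‖) * (ε / (1 + ∑ i, ‖c i‖)) :=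
        mul_le_mul_of_nonneg_right h6 (by positivity)
    _ < (1 + ∑ i, ‖c i‖) * (ε / (1 + ∑ i, ‖c i‖)) :=
        mul_lt_mul_of_pos_right (by linarith) (by positivity)
    _ = ε := by field_simp

theorem phi_return (hρ : 0 < ρ) (v : Fin k → ℝ) (ε : ℝ) (hε : 0 < ε) (t0 : ℕ) :
    ∃ L : ℕ, ∀ n, ∃ t, n ≤ t ∧ t < n + L ∧ |phi z j ρ M t v - phi z j ρ M t0 v| < ε := by
  obtain ⟨L, hL⟩ := dom_return (M := M) (j := j) hρ (cvec z j v) ε hε t0
  refine ⟨L, fun n => ?_⟩
  obtain ⟨t, h1, h2, h3⟩ := hL n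
  refine ⟨t, h1, h2, lt_of_le_of_lt ?_ h3⟩
  rw [phi_apply, phi_apply, ← Complex.sub_re]
  exact Complex.abs_re_le_norm _

/-- bounded partial sums -/
theorem partial_bdd (hρ : 0 < ρ) (c : Fin k → ℂ)
    (h1 : ∀ i, ‖z i‖ = ρ → j i = M → z i ≠ (ρ : ℂ)) :
    ∃ B : ℝ, ∀ N, ‖∑ t ∈ Finset.range N, dom z j ρ M c t‖ ≤ B := by
  classical
  have hρc : (ρ : ℂ) ≠ 0 := by exact_mod_cast hρ.ne'
  refine ⟨∑ i ∈ Finset.univ.filter (fun i => ‖z i‖ = ρ ∧ j i = M),
    ‖c i‖ * (2 / ‖z i / (ρ : ℂ) - 1‖), fun N => ?_⟩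
  unfold dom
  rw [Finset.sum_comm]
  refine (norm_sum_le _ _).trans ?_
  refine Finset.sum_le_sum fun i hi => ?_
  have hi' := (Finset.mem_filter.1 hi).2
  rw [← Finset.mul_sum, norm_mul]
  refine mul_le_mul_of_nonneg_left ?_ (norm_nonneg _)
  have hne : z i / (ρ : ℂ) ≠ 1 := by
    intro h
    exact h1 i hi'.1 hi'.2 ((div_eq_one_iff_eq hρc).1 h)
  rw [geom_sum_eq hne, norm_div]
  refine div_le_div_of_nonneg_right ?_ (norm_nonneg _)
  refine (norm_sub_le _ _).trans ?_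
  rw [norm_pow, norm_div, hi'.1, Complex.norm_real, Real.norm_of_nonneg hρ.le,
    div_self hρ.ne', one_pow, norm_one]
  norm_num

/-- if `ρ` is no base of the dominant part, then a nonnegative dominant part vanishes -/
theorem phi_zero (hρ : 0 < ρ) (v : Fin k → ℝ)
    (h1 : ∀ i, ‖z i‖ = ρ → j i = M → z i ≠ (ρ : ℂ))
    (hnn : ∀ t, 0 ≤ phi z j ρ M t v) (t0 : ℕ) : phi z j ρ M t0 v = 0 := by
  by_contra hne
  have hpos : 0 < phi z j ρ M t0 v := lt_of_le_of_ne (hnn t0) (Ne.symm hne)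
  obtain ⟨B, hB⟩ := partial_bdd (j := j) (M := M) hρ (cvec z j v) h1
  obtain ⟨L, hL⟩ := phi_return (M := M) (j := j) hρ v (phi z j ρ M t0 v / 2) (by positivity) t0
  set δ := phi z j ρ M t0 v / 2 with hδ
  have hδ0 : 0 < δ := by positivity
  have hsum : ∀ m : ℕ, (m : ℝ) * δ ≤ ∑ t ∈ Finset.range (m * L), phi z j ρ M t v := by
    intro m
    induction m with
    | zero => simp
    | succ m ih =>
      obtain ⟨t, h2, h3, h4⟩ := hL (m * L)
      have h5 : δ ≤ ∑ t ∈ Finset.Ico (m * L) ((m + 1) * L), phi z j ρ M t v := by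
        have h6 : δ ≤ phi z j ρ M t v := by
          rw [abs_lt] at h4
          have := h4.1
          linarith
        refine h6.trans (Finset.single_le_sum (f := fun t => phi z j ρ M t v)
          (fun t _ => hnn t) (Finset.mem_Ico.2 ⟨h2, ?_⟩))
        rw [add_mul, one_mul]
        exact h3
      rw [Finset.range_eq_Ico, ← Finset.sum_Ico_consecutive _ (Nat.zero_le (m * L))
        (Nat.mul_le_mul_right L (Nat.le_succ m)), ← Finset.range_eq_Ico]
      push_cast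
      linarith
  obtain ⟨m, hm⟩ := exists_nat_gt (B / δ)
  have h2 := hsum m
  have h3 : ∑ t ∈ Finset.range (m * L), phi z j ρ M t v ≤ B := by
    refine le_trans ?_ (hB (m * L))
    have e : ∑ t ∈ Finset.range (m * L), phi z j ρ M t v =
        (∑ t ∈ Finset.range (m * L), dom z j ρ M (cvec z j v) t).re := by
      rw [Complex.re_sum]
      rfl
    rw [e]
    exact Complex.re_le_norm _
  rw [div_lt_iff₀ hδ0] at hm
  linarith

/-! ### A vector with dominant part one -/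

theorem real_col (hdet : (mat z j).det ≠ 0) (p q : Fin k)
    (hq : z q = (starRingEnd ℂ) (z p)) (hqj : j q = j p) :
    cvec z j (fun n => (bs (z p) (j p) (n : ℕ)).re) =
      fun i => ((if i = p then 1 else 0) + (if i = q then 1 else 0)) / 2 := by
  apply cvec_uniq hdet
  funext n
  simp only [Matrix.mulVec, dotProduct, mat, Matrix.of_apply]
  have h1 : ∀ i : Fin k, bs (z i) (j i) (n : ℕ) *
      (((if i = p then 1 else 0) + (if i = q then 1 else 0)) / 2) =
      (if i = p then bs (z i) (j i) (n : ℕ) / 2 else 0) +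
        (if i = q then bs (z i) (j i) (n : ℕ) / 2 else 0) := by
    intro i
    split_ifs <;> ring
  rw [Finset.sum_congr rfl fun i _ => h1 i, Finset.sum_add_distrib, Finset.sum_ite_eq',
    Finset.sum_ite_eq', if_pos (Finset.mem_univ _), if_pos (Finset.mem_univ _), hq, hqj,
    ← bs_map (starRingEnd ℂ), ← add_div, Complex.add_conj]
  push_cast
  ring

theorem dom_col (hdet : (mat z j).det ≠ 0) (p q : Fin k) (hp : ‖z p‖ = ρ)
    (hpj : j p = M) (hq : z q = (starRingEnd ℂ) (z p)) (hqj : j q = j p) (t : ℕ) :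
    phi z j ρ M t (fun n => (bs (z p) (j p) (n : ℕ)).re) = ((z p / (ρ : ℂ)) ^ t).re := by
  classical
  rw [phi_apply, real_col hdet p q hq hqj]
  unfold dom
  have hpt : p ∈ Finset.univ.filter (fun i => ‖z i‖ = ρ ∧ j i = M) :=
    Finset.mem_filter.2 ⟨Finset.mem_univ _, hp, hpj⟩
  have hqt : q ∈ Finset.univ.filter (fun i => ‖z i‖ = ρ ∧ j i = M) :=
    Finset.mem_filter.2 ⟨Finset.mem_univ _, by rw [hq, RCLike.norm_conj, hp], by rw [hqj, hpj]⟩
  have h1 : ∀ i : Fin k, ((if i = p then (1 : ℂ) else 0) + (if i = q then 1 else 0)) / 2 *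
      (z i / (ρ : ℂ)) ^ t = (if i = p then (z i / (ρ : ℂ)) ^ t / 2 else 0) +
        (if i = q then (z i / (ρ : ℂ)) ^ t / 2 else 0) := by
    intro i
    split_ifs <;> ring
  rw [Finset.sum_congr rfl fun i _ => h1 i, Finset.sum_add_distrib, Finset.sum_ite_eq',
    Finset.sum_ite_eq', if_pos hpt, if_pos hqt, hq]
  have h2 : ((starRingEnd ℂ) (z p) / (ρ : ℂ)) ^ t = (starRingEnd ℂ) ((z p / (ρ : ℂ)) ^ t) := by
    rw [map_pow, map_div₀, Complex.conj_ofReal]
  rw [h2, ← add_div, Complex.add_conj]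
  have h3 : (2 * (((z p / (ρ : ℂ)) ^ t).re : ℂ)) / 2 = ((((z p / (ρ : ℂ)) ^ t).re : ℝ) : ℂ) := by
    ring
  push_cast at h3 ⊢
  rw [h3, Complex.ofReal_re]

/-- **The key lemma.** If the dominant part is nonnegative and has a small value, then it becomes
negative somewhere after a change of one of the initial values by `δ`. -/
theorem key (δ : ℝ) (hδ : 0 < δ) (hk : 1 ≤ k) (hdet : (mat z j).det ≠ 0) (hρ : 0 < ρ)
    (hconj : ∀ i, ∃ i', z i' = (starRingEnd ℂ) (z i) ∧ j i' = j i)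
    (htop : ∃ i, ‖z i‖ = ρ ∧ j i = M) (W : ℝ) (hW : 0 < W)
    (hWb : ∀ i, ‖z i‖ = ρ → j i = M → ∀ n < k, ‖bs (z i) (j i) n‖ ≤ W)
    (v : Fin k → ℝ) (hnn : ∀ t, 0 ≤ phi z j ρ M t v) (t0 : ℕ)
    (hsm : phi z j ρ M t0 v < δ / (k * W)) :
    ∃ (i : Fin k) (s : ℝ) (t : ℕ), (s = 1 ∨ s = -1) ∧
      phi z j ρ M t (v + (s * δ) • Pi.single i 1) < 0 := by
  classical
  have hk0 : (0 : ℝ) < k := by exact_mod_cast hk
  -- a functional and a vector
  have main : ∃ (t : ℕ) (w : Fin k → ℝ), phi z j ρ M t w = 1 ∧ (∀ n, |w n| ≤ W) ∧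
      phi z j ρ M t v < δ / (k * W) := by
    by_cases hr : ∃ i, ‖z i‖ = ρ ∧ j i = M ∧ z i = (ρ : ℂ)
    · obtain ⟨p, h1, h2, h3⟩ := hr
      refine ⟨t0, fun n => (bs (z p) (j p) (n : ℕ)).re, ?_, fun n => ?_, hsm⟩
      · rw [dom_col hdet p p h1 h2 (by rw [h3, Complex.conj_ofReal]) rfl, h3,
          div_self (by exact_mod_cast hρ.ne'), one_pow, Complex.one_re]
      · exact (Complex.abs_re_le_norm _).trans (hWb p h1 h2 n n.2)
    · push Not at hr
      obtain ⟨p, h1, h2⟩ := htop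
      obtain ⟨q, h3, h4⟩ := hconj p
      refine ⟨0, fun n => (bs (z p) (j p) (n : ℕ)).re, ?_, fun n => ?_, ?_⟩
      · rw [dom_col hdet p q h1 h2 h3 h4, pow_zero, Complex.one_re]
      · exact (Complex.abs_re_le_norm _).trans (hWb p h1 h2 n n.2)
      · rw [phi_zero hρ v hr hnn 0]
        positivity
  obtain ⟨t, w, hw1, hw2, hv⟩ := main
  have hsum : phi z j ρ M t w = ∑ i, w i * phi z j ρ M t (Pi.single i 1) := by
    have := LinearMap.pi_apply_eq_sum_univ (phi z j ρ M t) w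
    rw [this]
    refine Finset.sum_congr rfl fun i _ => ?_
    rw [smul_eq_mul]
    congr 2
    funext l
    rw [Pi.single_apply]
    simp only [eq_comm]
  obtain ⟨i, hi⟩ : ∃ i, 1 / (k * W) ≤ |phi z j ρ M t (Pi.single i 1)| := by
    by_contra hcon
    push Not at hcon
    have h1 : |∑ i, w i * phi z j ρ M t (Pi.single i 1)| < 1 := by
      refine lt_of_le_of_lt (Finset.abs_sum_le_sum_abs _ _) ?_
      have : ∀ i ∈ Finset.univ, |w i * phi z j ρ M t (Pi.single i 1)| < W * (1 / (k * W)) := by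
        intro i _
        rw [abs_mul]
        calc |w i| * |phi z j ρ M t (Pi.single i 1)|
            ≤ W * |phi z j ρ M t (Pi.single i 1)| :=
              mul_le_mul_of_nonneg_right (hw2 i) (abs_nonneg _)
          _ < W * (1 / (k * W)) := mul_lt_mul_of_pos_left (hcon i) hW
      refine lt_of_lt_of_le (Finset.sum_lt_sum_of_nonempty ⟨⟨0, hk⟩, Finset.mem_univ _⟩ this) ?_
      rw [Finset.sum_const, Finset.card_univ, Fintype.card_fin, nsmul_eq_mul]
      have : (k : ℝ) * (W * (1 / (k * W))) = 1 := by field_simp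
      rw [this]
    rw [← hsum, hw1, abs_one] at h1
    exact lt_irrefl _ h1
  have hi' : δ / (k * W) ≤ δ * |phi z j ρ M t (Pi.single i 1)| := by
    rw [div_eq_mul_one_div]
    exact mul_le_mul_of_nonneg_left hi hδ.le
  rcases le_or_gt 0 (phi z j ρ M t (Pi.single i 1)) with h | h
  · refine ⟨i, -1, t, Or.inr rfl, ?_⟩
    rw [map_add, map_smul, smul_eq_mul]
    rw [abs_of_nonneg h] at hi'
    linarith
  · refine ⟨i, 1, t, Or.inl rfl, ?_⟩
    rw [map_add, map_smul, smul_eq_mul]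
    rw [abs_of_neg h] at hi'
    linarith

end

end Pool.Agent.J4H65.GP
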