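import Mathlib

/-!
# Lattice points next to the boundary of a convex set
-/

set_option autoImplicit false

namespace Pool.Agent.J4H65.GP

/-- the vectors of `k` integers of absolute value at most `R` -/
noncomputable def box (k R : ℕ) : Finset (Fin k → ℤ) := Fintype.piFinset fun _ => Finset.Icc (-(R : ℤ)) R

theorem step {k : ℕ} (C : (Fin k → ℝ) → Prop)
    (hC : ∀ v w, C v → C w → ∀ s : ℝ, 0 ≤ s → s ≤ 1 → C ((1 - s) • v + s • w))
    (v w : Fin k → ℤ) (i : Fin k) (s : ℤ) (hs : s * s = 1)
    (hv : C fun l => (v l : ℝ)) (hw : C fun l => (w l : ℝ)) (hl : ∀ l, l ≠ i → v l = w l)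
    (hd : 1 ≤ (w i - v i) * s) : C ((fun l => (v l : ℝ)) + (s : ℝ) • Pi.single i 1) := by
  have hd' : (1 : ℝ) ≤ ((w i : ℝ) - v i) * s := by exact_mod_cast hd
  set d : ℝ := ((w i : ℝ) - v i) * s with hdd
  have hs' : (s : ℝ) * s = 1 := by exact_mod_cast hs
  have h := hC _ _ hv hw (1 / d) (by positivity) (by rw [div_le_one (by linarith)]; exact hd')
  have e : (1 - 1 / d) • (fun l => (v l : ℝ)) + (1 / d) • (fun l => (w l : ℝ)) =
      (fun l => (v l : ℝ)) + (s : ℝ) • (Pi.single i 1 : Fin k → ℝ) := by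
    funext l
    simp only [Pi.add_apply, Pi.smul_apply, smul_eq_mul]
    by_cases hli : l = i
    · subst hli
      rw [Pi.single_eq_same, mul_one]
      have h1 : (w l : ℝ) - v l = d * s := by rw [hdd, mul_assoc, hs', mul_one]
      have h2 : (w l : ℝ) = v l + d * s := by linarith
      rw [h2]
      have h3 : d ≠ 0 := by linarith
      field_simp
      ring
    · rw [Pi.single_eq_of_ne hli, mul_zero, add_zero, hl l hli]
      ring
  rw [e] at h
  exact h

theorem count (k R : ℕ) (C : (Fin k → ℝ) → Prop)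
    (hC : ∀ v w, C v → C w → ∀ s : ℝ, 0 ≤ s → s ≤ 1 → C ((1 - s) • v + s • w))
    (Bad : Finset (Fin k → ℤ)) (hbox : Bad ⊆ box k R)
    (hbad : ∀ v ∈ Bad, C (fun l => (v l : ℝ)) ∧ ∃ (i : Fin k) (s : ℝ), (s = 1 ∨ s = -1) ∧
      ¬ C ((fun l => (v l : ℝ)) + s • Pi.single i 1)) :
    Bad.card ≤ 2 * k * (2 * R + 1) ^ (k - 1) := by
  classical
  set T : Fin k × Bool → Finset (Fin k → ℤ) := fun p => Bad.filter fun v =>
    ¬ C ((fun l => (v l : ℝ)) + ((if p.2 then (1 : ℤ) else -1 : ℤ) : ℝ) • Pi.single p.1 1) with hT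
  have hsub : Bad ⊆ Finset.univ.biUnion T := by
    intro v hv
    obtain ⟨-, i, s, hs, h⟩ := hbad v hv
    rw [Finset.mem_biUnion]
    rcases hs with rfl | rfl
    · refine ⟨(i, true), Finset.mem_univ _, Finset.mem_filter.2 ⟨hv, ?_⟩⟩
      simpa using h
    · refine ⟨(i, false), Finset.mem_univ _, Finset.mem_filter.2 ⟨hv, ?_⟩⟩
      simpa using h
  have hcard : ∀ p, (T p).card ≤ (2 * R + 1) ^ (k - 1) := by
    rintro ⟨i, b⟩
    set s : ℤ := if b then (1 : ℤ) else -1 with hs
    have hss : s * s = 1 := by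
      rw [hs]
      split_ifs <;> norm_num
    have hinj : Set.InjOn (fun (v : Fin k → ℤ) (l : {l // l ≠ i}) => v l) (T (i, b)) := by
      intro v hv w hw hvw
      have hv' := Finset.mem_filter.1 (Finset.mem_coe.1 hv)
      have hw' := Finset.mem_filter.1 (Finset.mem_coe.1 hw)
      have hl : ∀ l, l ≠ i → v l = w l := fun l hl => congrFun hvw ⟨l, hl⟩
      have hCv := (hbad v hv'.1).1
      have hCw := (hbad w hw'.1).1
      have hi : v i = w i := by
        rcases lt_trichotomy ((w i - v i) * s) 0 with h | h | h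
        · exfalso
          apply hw'.2
          exact step C hC w v i s hss hCw hCv (fun l hli => (hl l hli).symm) (by nlinarith)
        · rcases mul_eq_zero.1 h with h | h
          · omega
          · rw [h] at hss
            norm_num at hss
        · exfalso
          apply hv'.2
          exact step C hC v w i s hss hCv hCw hl (by omega)
      funext l
      by_cases hli : l = i
      · rw [hli, hi]
      · exact hl l hli
    have hmaps : ∀ v ∈ T (i, b), (fun (v : Fin k → ℤ) (l : {l // l ≠ i}) => v l) v ∈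
        Fintype.piFinset fun _ : {l // l ≠ i} => Finset.Icc (-(R : ℤ)) R := by
      intro v hv
      have h1 := hbox (Finset.mem_filter.1 hv).1
      rw [Fintype.mem_piFinset]
      unfold box at h1
      rw [Fintype.mem_piFinset] at h1
      exact fun l => h1 l
    refine (Finset.card_le_card_of_injOn _ hmaps hinj).trans ?_
    rw [Fintype.card_piFinset, Finset.prod_const, Finset.card_univ, Int.card_Icc]
    have h2 : Fintype.card {l : Fin k // l ≠ i} = k - 1 := by
      rw [Fintype.card_subtype_compl]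
      simp
    rw [h2]
    refine Nat.pow_le_pow_left ?_ _
    omega
  calc Bad.card ≤ (Finset.univ.biUnion T).card := Finset.card_le_card hsub
    _ ≤ ∑ p : Fin k × Bool, (T p).card := Finset.card_biUnion_le
    _ ≤ ∑ _p : Fin k × Bool, (2 * R + 1) ^ (k - 1) := Finset.sum_le_sum fun p _ => hcard p
    _ = 2 * k * (2 * R + 1) ^ (k - 1) := by
      rw [Finset.sum_const, Finset.card_univ, Fintype.card_prod, Fintype.card_fin,
        Fintype.card_bool, smul_eq_mul, mul_comm k 2]

end Pool.Agent.J4H65.GP
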