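import Pool.Agent.J4H65.GP.Van

/-!
# Lower bounds for confluent Vandermonde determinants
-/

set_option autoImplicit false

namespace Pool.Agent.J4H65.GP

open Polynomial

theorem int_root {K : Type} [Field K] [Algebra ℚ K] (P : ℚ[X]) (hP : P.Monic) (D : ℕ)
    (hint : ∀ i, ∃ c : ℤ, P.coeff i * D = c) (x : K) (hx : aeval x P = 0) :
    IsIntegral ℤ ((D : K) * x) := by
  have h1 : scaleRoots P (D : ℚ) ∈ lifts (algebraMap ℤ ℚ) := by
    rw [lifts_iff_coeff_lifts]
    intro n
    rw [coeff_scaleRoots]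
    rcases lt_trichotomy n P.natDegree with h | h | h
    · obtain ⟨c, hc⟩ := hint n
      obtain ⟨e, he⟩ : ∃ e, P.natDegree - n = e + 1 := ⟨P.natDegree - n - 1, by omega⟩
      refine ⟨c * (D : ℤ) ^ e, ?_⟩
      rw [he, pow_succ', ← mul_assoc, hc]
      simp
    · refine ⟨1, ?_⟩
      rw [h, hP.coeff_natDegree]
      simp
    · refine ⟨0, ?_⟩
      rw [coeff_eq_zero_of_natDegree_lt h]
      simp
  obtain ⟨q, hq1, -, hq2⟩ := lifts_and_natDegree_eq_and_monic h1
    ((monic_scaleRoots_iff (D : ℚ)).2 hP)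
  refine ⟨q, hq2, ?_⟩
  have h2 := scaleRoots_aeval_eq_zero (r := (D : ℚ)) hx
  rw [← hq1, aeval_map_algebraMap, aeval_def] at h2
  rw [map_natCast] at h2
  exact h2

theorem int_bs {K : Type} [Field K] [Algebra ℚ K] (D : ℕ) (x : K)
    (hx : IsIntegral ℤ ((D : K) * x)) (j n : ℕ) : IsIntegral ℤ ((D : K) ^ n * bs x j n) := by
  unfold bs
  rcases Nat.lt_or_ge n j with h | h
  · rw [Nat.choose_eq_zero_of_lt h]
    simp only [Nat.cast_zero, mul_zero]
    exact isIntegral_zero
  · have e : (D : K) ^ n * (x ^ (n - j) * (n.choose j : K)) =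
        (D : K) ^ j * ((D * x) ^ (n - j) * (n.choose j : K)) := by
      have : (D : K) ^ n = (D : K) ^ j * (D : K) ^ (n - j) := by
        rw [← pow_add, Nat.add_sub_cancel' h]
      rw [this, mul_pow]
      ring
    rw [e]
    have hn : ∀ m : ℕ, IsIntegral ℤ (m : K) := fun m => by
      simpa using (isIntegral_algebraMap (R := ℤ) (A := K) (x := (m : ℤ)))
    exact ((hn D).pow j).mul ((hx.pow _).mul (hn _))

theorem exK (P : ℚ[X]) : ∃ (K : Type) (_ : Field K) (_ : Algebra ℚ K), IsGalois ℚ K ∧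
    FiniteDimensional ℚ K ∧ (P.map (algebraMap ℚ K)).Splits ∧ Nonempty (K →ₐ[ℚ] ℂ) := by
  let _ : Algebra ℚ P.SplittingField := SplittingField.instAlgebra_1 P
  have h0 : IsSplittingField ℚ P.SplittingField P := IsSplittingField.splittingField P
  have h1 : Normal ℚ P.SplittingField := Normal.of_isSplittingField P
  refine ⟨P.SplittingField, inferInstance, SplittingField.instAlgebra_1 P, ⟨⟩,
    IsSplittingField.finiteDimensional P.SplittingField P, SplittingField.splits P, ⟨?_⟩⟩
  exact IsAlgClosed.lift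

theorem det_lower (k : ℕ) (P : ℚ[X]) (hP : P.Monic) (hk : P.natDegree = k) (D : ℕ) (hD : 1 ≤ D)
    (hint : ∀ i, ∃ c : ℤ, P.coeff i * D = c) : ∃ (z : Fin k → ℂ) (j : Fin k → ℕ),
      (∀ i, j i < (P.map (algebraMap ℚ ℂ)).roots.count (z i)) ∧
      (∀ x : ℂ, ∀ s < (P.map (algebraMap ℚ ℂ)).roots.count x, ∃ i, z i = x ∧ j i = s) ∧
      (∀ i i', z i = z i' → j i = j i' → i = i') ∧
      1 ≤ ‖(mat z j).det‖ * (D : ℝ) ^ (k * k) := by
  classical
  obtain ⟨K, _, _, _, _, hsp, ⟨ι⟩⟩ := exK P
  have hch : CharZero K := algebraRat.charZero K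
  set R := (P.map (algebraMap ℚ K)).roots with hR
  have hcard : Multiset.card R = k := by
    rw [hR, ← hsp.natDegree_eq_card_roots, natDegree_map, hk]
  obtain ⟨z, j, h1, h2, h3⟩ := enum k R hcard
  have hdet : (mat z j).det ≠ 0 := det_ne k _ hcard z j h2
  have hroot : ∀ i, aeval (z i) P = 0 := by
    intro i
    have : z i ∈ R := Multiset.count_pos.1 (lt_of_le_of_lt (Nat.zero_le _) (h1 i))
    rw [hR, mem_roots', IsRoot.def, eval_map_algebraMap] at this
    exact this.2
  -- the Galois action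
  have hcount : ∀ (σ : K ≃ₐ[ℚ] K) (x : K), R.count (σ x) = R.count x := by
    intro σ x
    have h4 : R.map (σ : K →+* K) = R := by
      rw [hR, ← hsp.roots_map, Polynomial.map_map]
      congr 2
      exact Subsingleton.elim _ _
    conv_lhs => rw [← h4]
    exact Multiset.count_map_eq_count' (σ : K →+* K) R σ.injective x
  have hfix : ∀ σ : K ≃ₐ[ℚ] K, σ ((mat z j).det ^ 2) = (mat z j).det ^ 2 := by
    intro σ
    choose τ hτ1 hτ2 using fun i => h2 (σ (z i)) (j i) (by rw [hcount]; exact h1 i)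
    have hτ : Function.Injective τ := by
      intro i i' h
      refine h3 i i' (σ.injective ?_) ?_
      · rw [← hτ1, ← hτ1, h]
      · rw [← hτ2 i, ← hτ2 i', h]
    set τ' : Equiv.Perm (Fin k) := Equiv.ofBijective τ (Finite.injective_iff_bijective.1 hτ)
    have h5 : (mat (fun i => σ (z i)) j) = (mat z j).submatrix id τ' := by
      ext n i
      simp only [mat, Matrix.of_apply, Matrix.submatrix_apply, id_eq]
      rw [show τ' i = τ i from rfl, hτ1, hτ2]
    have h6 : σ (mat z j).det = (mat (fun i => σ (z i)) j).det := by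
      have := RingHom.map_det (σ : K →+* K) (mat z j)
      rw [mat_map] at this
      exact this
    rw [map_pow, h6, h5, Matrix.det_permute', mul_pow]
    have h7 : ((Equiv.Perm.sign τ' : ℤ) : K) ^ 2 = 1 := by
      have : ((Equiv.Perm.sign τ' : ℤ)) ^ 2 = 1 := by
        rw [← Units.val_pow_eq_pow_val, Int.units_sq]
        rfl
      exact_mod_cast congrArg (fun x : ℤ => (x : K)) this
    rw [h7, one_mul]
  -- integrality
  set B : Matrix (Fin k) (Fin k) K := Matrix.of fun n i => (D : K) ^ (n : ℕ) * mat z j n i with hB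
  have hBdet : B.det = (∏ n : Fin k, (D : K) ^ (n : ℕ)) * (mat z j).det :=
    Matrix.det_mul_column (fun n : Fin k => (D : K) ^ (n : ℕ)) (mat z j)
  have hBint : IsIntegral ℤ B.det := by
    refine IsIntegral.det fun n i => ?_
    simp only [hB, Matrix.of_apply, mat]
    exact int_bs D (z i) (int_root P hP D hint (z i) (hroot i)) _ _
  have hBfix : ∀ σ : K ≃ₐ[ℚ] K, σ (B.det ^ 2) = B.det ^ 2 := by
    intro σ
    rw [hBdet, mul_pow, map_mul, hfix σ, map_pow, map_prod]
    simp only [map_pow]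
    have : σ (D : K) = (D : K) := map_natCast σ D
    rw [this]
  have hB0 : B.det ≠ 0 := by
    rw [hBdet]
    refine mul_ne_zero ?_ hdet
    rw [Finset.prod_ne_zero_iff]
    intro n _
    refine pow_ne_zero _ ?_
    have : (D : K) ≠ 0 := by
      rw [Nat.cast_ne_zero]
      omega
    exact this
  obtain ⟨N, hN⟩ : ∃ N : ℤ, (N : K) = B.det ^ 2 := by
    have h4 : B.det ^ 2 ∈ (⊥ : IntermediateField ℚ K) := by
      rw [IsGalois.mem_bot_iff_fixed]
      exact hBfix
    rw [IntermediateField.mem_bot] at h4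
    obtain ⟨r, hr⟩ := h4
    have h5 : IsIntegral ℤ (algebraMap ℚ K r) := by
      rw [hr]
      exact hBint.pow 2
    have h6 : IsIntegral ℤ r := (isIntegral_algebraMap_iff (algebraMap ℚ K).injective).1 h5
    obtain ⟨N, hN⟩ := IsIntegrallyClosed.isIntegral_iff.1 h6
    refine ⟨N, ?_⟩
    rw [← hr, ← hN]
    simp
  -- the complex numbers
  have hRC : (P.map (algebraMap ℚ ℂ)).roots = R.map (ι : K →+* ℂ) := by
    rw [hR, ← hsp.roots_map, Polynomial.map_map]
    congr 2
    exact Subsingleton.elim _ _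
  have hcountC : ∀ x : K, (P.map (algebraMap ℚ ℂ)).roots.count (ι x) = R.count x := by
    intro x
    rw [hRC]
    exact Multiset.count_map_eq_count' (ι : K →+* ℂ) R (ι : K →+* ℂ).injective x
  refine ⟨fun i => ι (z i), j, fun i => ?_, fun x s hs => ?_, fun i i' h4 h5 => ?_, ?_⟩
  · simp only [hcountC]
    exact h1 i
  · have hx : x ∈ (P.map (algebraMap ℚ ℂ)).roots :=
      Multiset.count_pos.1 (lt_of_le_of_lt (Nat.zero_le _) hs)
    rw [hRC, Multiset.mem_map] at hx
    obtain ⟨y, -, rfl⟩ := hx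
    have hs' : s < R.count y := by
      rw [← hcountC]
      exact hs
    obtain ⟨i, hi1, hi2⟩ := h2 y s hs'
    exact ⟨i, by show ι (z i) = ι y; rw [hi1], hi2⟩
  · exact h3 i i' ((ι : K →+* ℂ).injective h4) h5
  · have h4 : (mat (fun i => ι (z i)) j).det = ι (mat z j).det := by
      have := RingHom.map_det (ι : K →+* ℂ) (mat z j)
      rw [mat_map] at this
      exact this.symm
    have h5 : (1 : ℝ) ≤ ‖ι B.det‖ := by
      have hN0 : N ≠ 0 := by
        rintro rfl
        apply hB0
        have := hN.symm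
        simpa using this
      have h6 : ‖ι B.det‖ ^ 2 = |(N : ℝ)| := by
        rw [← norm_pow, ← map_pow, ← hN, map_intCast, Complex.norm_intCast]
      have h7 : (1 : ℝ) ≤ |(N : ℝ)| := by
        exact_mod_cast Int.one_le_abs hN0
      by_contra hlt
      rw [not_le] at hlt
      have h8 : ‖ι B.det‖ ^ 2 < 1 := pow_lt_one₀ (norm_nonneg _) hlt two_ne_zero
      linarith
    have h6 : ‖ι B.det‖ ≤ ‖(mat (fun i => ι (z i)) j).det‖ * (D : ℝ) ^ (k * k) := by
      rw [hBdet, map_mul, norm_mul, h4, mul_comm]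
      refine mul_le_mul_of_nonneg_left ?_ (norm_nonneg _)
      rw [map_prod, norm_prod]
      have hD1 : (1 : ℝ) ≤ D := by exact_mod_cast hD
      calc ∏ n : Fin k, ‖ι ((D : K) ^ (n : ℕ))‖ ≤ ∏ _n : Fin k, (D : ℝ) ^ k := by
            refine Finset.prod_le_prod (fun _ _ => norm_nonneg _) fun n _ => ?_
            rw [map_pow, map_natCast, norm_pow, Complex.norm_natCast]
            exact pow_le_pow_right₀ hD1 n.2.le
        _ = (D : ℝ) ^ (k * k) := by
            rw [Finset.prod_const, Finset.card_univ, Fintype.card_fin, ← pow_mul]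
    exact h5.trans h6

end Pool.Agent.J4H65.GP
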