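import Pool.Agent.J4H65.GP.Marg

/-!
# Effective positivity of the instances with a margin
-/

set_option autoImplicit false

namespace Pool.Agent.J4H65.GP

open Pool.Agent.H612.LR Pool.Agent.J4H65.UP Filter Topology

theorem phi_bdd {k : ℕ} {z : Fin k → ℂ} {j : Fin k → ℕ} {ρ : ℝ} {M : ℕ} (hρ : 0 < ρ)
    (v : Fin k → ℝ) : ∀ t, |phi z j ρ M t v| ≤ ∑ i, ‖cvec z j v i‖ := by
  classical
  intro t
  rw [phi_apply]
  refine (Complex.abs_re_le_norm _).trans ?_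
  unfold dom
  refine (norm_sum_le _ _).trans ?_
  refine le_trans (Finset.sum_le_sum fun i hi => ?_) (Finset.sum_le_sum_of_subset_of_nonneg
    (Finset.filter_subset (fun i => ‖z i‖ = ρ ∧ j i = M) Finset.univ)
    fun i _ _ => norm_nonneg (cvec z j v i))
  have hi' := (Finset.mem_filter.1 hi).2
  rw [norm_mul, norm_pow, norm_div, hi'.1, Complex.norm_real, Real.norm_of_nonneg hρ.le,
    div_self hρ.ne', one_pow, mul_one]

/-- the constant of the effective asymptotics -/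
theorem exists_asym : ∃ A : ℕ, ∀ (l : Rec) (k : ℕ) (z : Fin k → ℂ) (j : Fin k → ℕ),
    Basis l k z j → l.length = k → 1 ≤ l.length → ∀ p : Fin k, 0 < ‖z p‖ →
    cvec z j (ivec l k) p ≠ 0 → Level z j ‖z p‖ (j p) (cvec z j (ivec l k)) →
    Asym (fun n => (seq l n : ℝ)) ‖z p‖ (j p) (fun t => phi z j ‖z p‖ (j p) t (ivec l k))
      (2 ^ (A * sz l ^ A)) (2 ^ (A * sz l ^ A)) := by
  obtain ⟨A, hA⟩ := inst_est
  refine ⟨A, fun l k z j hb hk hl p hp hcp hlev => ⟨hp, by positivity, fun t ht => ?_,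
    fun ε hε t0 => phi_return hp _ ε hε t0, ⟨_, ?_, phi_bdd hp _⟩, ?_⟩⟩
  · exact hA l k z j hb hk hl _ (mat_ivec hb) ‖z p‖ (j p) hp ⟨p, rfl, rfl⟩ hlev t ht
  · exact Finset.sum_nonneg fun i _ => norm_nonneg _
  · by_contra hcon
    push Not at hcon
    exact hcp (coef_zero hb.det_ne hb.inj hb.conj hp _ hcon p rfl rfl)

/-- The instance has the margin `ε`: for some `ρ > 0` and `m` the quotients
`u_n / (ρ^n (n+1)^m)` are bounded, and at least `ε` for all large `n`. -/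
def Margin (l : Rec) (ε : ℝ) : Prop :=
  ∃ (ρ C : ℝ) (m N : ℕ), 0 < ρ ∧
    (∀ n : ℕ, |(seq l n : ℝ)| ≤ C * (ρ ^ n * ((n : ℝ) + 1) ^ m)) ∧
    ∀ n : ℕ, N ≤ n → ε * (ρ ^ n * ((n : ℝ) + 1) ^ m) ≤ (seq l n : ℝ)

/-- positivity of the large terms from a lower bound for the dominant part -/
theorem pos_of_lower' {u : ℕ → ℝ} {ρ : ℝ} {M : ℕ} {φ : ℕ → ℝ} {B : ℝ} {T : ℕ}
    (h : Asym u ρ M φ B T) (ε : ℝ) (hφ : ∀ t, ε ≤ φ t) (n : ℕ) (hM : M ≤ n) (hT : T ≤ n - M)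
    (hB : B < ε * (((n - M : ℕ) : ℝ) + 1)) : 0 < u n := by
  have h1 := h.lower (n - M) hT
  rw [Nat.sub_add_cancel hM] at h1
  refine lt_of_lt_of_le ?_ h1
  have h2 := h.cpos (n - M)
  rw [Nat.sub_add_cancel hM] at h2
  refine mul_pos h2 ?_
  rw [sub_pos, div_lt_iff₀ (by positivity)]
  have h3 : (0 : ℝ) ≤ ((n - M : ℕ) : ℝ) + 1 := by positivity
  exact lt_of_lt_of_le hB (mul_le_mul_of_nonneg_right (hφ _) h3)

theorem rho_pow_lower (l : Rec) (x : ℂ) (hx : IsRoot l x) (hx0 : 0 < ‖x‖) (hl : 1 ≤ l.length)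
    (M : ℕ) (hM : M < l.length) : 1 / 2 ^ (4 * sz l ^ 2) ≤ ‖x‖ ^ M := by
  have hN : l.length ≤ sz l := TOR.len_le_sz l
  have h1 := root_lower l x hx (norm_pos_iff.1 hx0) hl (sz l) le_rfl hN
  have h2 : (1 : ℝ) ≤ (‖x‖ * 2 ^ (4 * sz l)) ^ M := one_le_pow₀ h1
  rw [mul_pow, ← pow_mul] at h2
  rw [div_le_iff₀ (by positivity)]
  refine h2.trans (mul_le_mul_of_nonneg_left (pow_le_pow_right₀ (by norm_num) ?_) (by positivity))
  nlinarith

/-- **Instances with a margin `2^(-d s^d)` are decided by their first `2^poly` terms.** -/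
theorem margin_exact : ∃ A : ℕ, ∀ (d C : ℕ), A + d ≤ C → ∀ l : Rec, 1 ≤ l.length →
    Margin l (1 / 2 ^ (d * sz l ^ d)) → (∀ n < 2 ^ (C * sz l ^ C), 0 < seq l n) →
    Positive l := by
  obtain ⟨A, hA⟩ := exists_asym
  refine ⟨A + 30, fun d C hC l hl hmar hsm n => ?_⟩
  by_cases hn : n < 2 ^ (C * sz l ^ C)
  · exact hsm n hn
  rw [not_lt] at hn
  have hN : l.length ≤ sz l := TOR.len_le_sz l
  have hN1 : 1 ≤ sz l := hl.trans hN
  set N := sz l with hNd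
  have hn' : 2 ^ ((A + d + 30) * N ^ (A + d + 30)) ≤ n := by
    refine le_trans (Nat.pow_le_pow_right (by norm_num) ?_) hn
    exact Nat.mul_le_mul (by omega) (Nat.pow_le_pow_right hN1 (by omega))
  obtain ⟨ρ, C1, m, N0, hρ, hup, hlow⟩ := hmar
  obtain ⟨z, j, hb⟩ := exists_basis' l l.length rfl
  rcases exists_level hb rfl hl with h0 | ⟨p, hp, hcp, hlev⟩
  · exfalso
    have h1 := hlow (N0 + l.length) (by omega)
    rw [h0 (N0 + l.length) (by omega), Rat.cast_zero] at h1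
    have : 0 < 1 / 2 ^ (d * N ^ d) * (ρ ^ (N0 + l.length) *
      (((N0 + l.length : ℕ) : ℝ) + 1) ^ m) := by positivity
    linarith
  · have has := hA l l.length z j hb rfl hl p hp hcp hlev
    obtain ⟨hρρ, hmM, hlowφ⟩ := has.margin ρ (1 / 2 ^ (d * N ^ d)) C1 m N0 hρ (by positivity)
      hup hlow
    obtain ⟨h1, h2, h3⟩ := thresholds2 A d N l.length (j p) n hN1 hN (hb.jlt hl p) hn'
    have h4 := pos_of_lower' has _ hlowφ n h3 h1 (by
      have h5 := rho_pow_lower l (z p) (hb.isRoot p) hp hl (j p) (hb.jlt hl p)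
      have h6 : ((2 ^ (A * N ^ A) * 2 ^ (d * N ^ d) * 2 ^ (20 * N ^ 3) : ℕ) : ℝ) <
          (((n - j p) + 1 : ℕ) : ℝ) := by exact_mod_cast h2
      push_cast at h6
      have h7 : (2 : ℝ) ^ (4 * N ^ 2) ≤ 2 ^ (20 * N ^ 3) := by
        refine pow_le_pow_right₀ (by norm_num) ?_
        have : N ^ 2 ≤ N ^ 3 := Nat.pow_le_pow_right hN1 (by norm_num)
        omega
      have h8 : (2 : ℝ) ^ (A * N ^ A) * 2 ^ (d * N ^ d) * 2 ^ (4 * N ^ 2) <
          ((n - j p : ℕ) : ℝ) + 1 := lt_of_le_of_lt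
        (mul_le_mul_of_nonneg_left h7 (by positivity)) h6
      have h9 : (2 : ℝ) ^ (A * N ^ A) < 1 / 2 ^ (d * N ^ d) * (1 / 2 ^ (4 * N ^ 2)) *
          (((n - j p : ℕ) : ℝ) + 1) := by
        have e : (2 : ℝ) ^ (A * N ^ A) = 1 / 2 ^ (d * N ^ d) * (1 / 2 ^ (4 * N ^ 2)) *
            (2 ^ (A * N ^ A) * 2 ^ (d * N ^ d) * 2 ^ (4 * N ^ 2)) := by field_simp
        rw [e]
        exact mul_lt_mul_of_pos_left h8 (by positivity)
      refine lt_of_lt_of_le h9 (mul_le_mul_of_nonneg_right ?_ (by positivity))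
      exact mul_le_mul_of_nonneg_left h5 (by positivity))
    exact_mod_cast h4

end Pool.Agent.J4H65.GP
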