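import Pool.Agent.J4H65.GP.Reg

/-!
# Almost all coefficient vectors are separated
-/

set_option autoImplicit false

namespace Pool.Agent.J4H65.GP

open MvPolynomial Pool.Agent.H612.LR

/-- quadruples `(i, j, p, q)` such that `{i, j} ≠ {p, q}` -/
def quad (k : ℕ) : Finset (Fin k × Fin k × Fin k × Fin k) :=
  Finset.univ.filter fun q => ¬((q.1 = q.2.2.1 ∧ q.2.1 = q.2.2.2) ∨
    (q.1 = q.2.2.2 ∧ q.2.1 = q.2.2.1))

/-- the product of the differences of the products of two roots -/
noncomputable def gpol (k : ℕ) : MvPolynomial (Fin k) ℤ :=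
  ∏ q ∈ quad k, (X q.1 * X q.2.1 - X q.2.2.1 * X q.2.2.2)

theorem gpol_symm (k : ℕ) : (gpol k).IsSymmetric := by
  intro e
  unfold gpol
  rw [map_prod]
  set e4 : (Fin k × Fin k × Fin k × Fin k) ≃ (Fin k × Fin k × Fin k × Fin k) :=
    Equiv.prodCongr e (Equiv.prodCongr e (Equiv.prodCongr e e)) with he4
  refine Finset.prod_equiv e4 ?_ ?_
  · intro q
    unfold quad
    simp [he4]
  · intro q _
    simp [he4]

theorem gpol_ne (k : ℕ) : gpol k ≠ 0 := by
  unfold gpol
  rw [Finset.prod_ne_zero_iff]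
  rintro ⟨i, j, p, q⟩ hq
  unfold quad at hq
  simp only [Finset.mem_filter, Finset.mem_univ, true_and] at hq
  intro h
  rw [sub_eq_zero] at h
  simp only at h
  have h1 : p = i ∨ q = i := by
    by_contra hcon
    push Not at hcon
    have h2 := congrArg (eval fun x : Fin k => if x = i then (0 : ℤ) else 1) h
    simp only [map_mul, eval_X, if_true, zero_mul] at h2
    rw [if_neg hcon.1, if_neg hcon.2] at h2
    norm_num at h2
  have hX : ∀ x : Fin k, (X x : MvPolynomial (Fin k) ℤ) ≠ 0 := fun x => X_ne_zero x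
  rcases h1 with h1 | h1
  · subst h1
    have h2 := X_injective (mul_left_cancel₀ (hX p) h)
    exact hq (Or.inl ⟨rfl, h2⟩)
  · subst h1
    rw [mul_comm (X p)] at h
    have h2 := X_injective (mul_left_cancel₀ (hX q) h)
    exact hq (Or.inr ⟨rfl, h2⟩)

theorem card_croots_eq (l : Rec) : Multiset.card (croots l) = l.length := by
  unfold croots
  have h1 : ((chi l).map (algebraMap ℚ ℂ)).Splits := IsAlgClosed.splits _
  rw [← h1.natDegree_eq_card_roots, Polynomial.natDegree_map, (chi_monic l).2]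

theorem esymm_croots (l : Rec) (i : ℕ) (hi : i < l.length) :
    (croots l).esymm (i + 1) = (-1) ^ i * ((coef l i : ℚ) : ℂ) := by
  have h1 := Polynomial.coeff_eq_esymm_roots_of_card (p := (chi l).map (algebraMap ℚ ℂ))
    (k := l.length - (i + 1)) (by
      rw [Polynomial.natDegree_map, (chi_monic l).2]
      exact card_croots_eq l) (by
      rw [Polynomial.natDegree_map, (chi_monic l).2]
      omega)
  rw [Polynomial.natDegree_map, (chi_monic l).2, ((chi_monic l).1.map _).leadingCoeff, one_mul,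
    Polynomial.coeff_map, show l.length - (l.length - (i + 1)) = i + 1 by omega] at h1
  have h2 : (chi l).coeff (l.length - (i + 1)) = -coef l i := by
    unfold chi
    rw [Polynomial.coeff_sub, Polynomial.coeff_X_pow, if_neg (by omega),
      Polynomial.finsetSum_coeff, Finset.sum_eq_single i]
    · rw [Polynomial.coeff_C_mul, Polynomial.coeff_X_pow, if_pos (by omega)]
      ring
    · intro b hb hne
      have := Finset.mem_range.1 hb
      rw [Polynomial.coeff_C_mul, Polynomial.coeff_X_pow, if_neg (by omega), mul_zero]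
    · intro h
      exact absurd (Finset.mem_range.2 hi) h
  rw [h2] at h1
  have h3 : (croots l).esymm (i + 1) = ((chi l).map (algebraMap ℚ ℂ)).roots.esymm (i + 1) := rfl
  rw [h3]
  have h4 : ((-1 : ℂ) ^ (i + 1)) * (-1) ^ (i + 1) = 1 := by
    rw [← mul_pow]
    norm_num
  calc ((chi l).map (algebraMap ℚ ℂ)).roots.esymm (i + 1)
      = ((-1 : ℂ) ^ (i + 1) * (-1) ^ (i + 1)) *
        ((chi l).map (algebraMap ℚ ℂ)).roots.esymm (i + 1) := by rw [h4, one_mul]
    _ = (-1 : ℂ) ^ (i + 1) * ((-1) ^ (i + 1) *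
        ((chi l).map (algebraMap ℚ ℂ)).roots.esymm (i + 1)) := by ring
    _ = (-1) ^ (i + 1) * (algebraMap ℚ ℂ (-coef l i)) := by rw [h1]
    _ = (-1) ^ i * ((coef l i : ℚ) : ℂ) := by
      rw [pow_succ]
      simp

theorem exists_enum (l : Rec) (k : ℕ) (hk : l.length = k) :
    ∃ lam : Fin k → ℂ, Finset.univ.val.map lam = croots l := by
  obtain ⟨L, hL⟩ := Quot.exists_rep (croots l)
  have hlen : L.length = k := by
    have h1 := card_croots_eq l
    rw [← hL] at h1
    rw [← hk, ← h1]
    rfl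
  subst hlen
  refine ⟨L.get, ?_⟩
  rw [Fin.univ_val_map, List.ofFn_get, ← hL]
  rfl

/-- the polynomial in the coefficients -/
theorem exists_fpol (k : ℕ) : ∃ F : MvPolynomial (Fin k) ℤ, F ≠ 0 ∧
    aeval (fun i : Fin k => esymm (Fin k) ℤ (i + 1)) F = gpol k := by
  obtain ⟨F, hF⟩ := esymmAlgHom_fin_surjective ℤ (le_refl k) ⟨gpol k, gpol_symm k⟩
  have h1 := esymmAlgHom_apply (σ := Fin k) (R := ℤ) (n := k) F
  rw [hF] at h1
  refine ⟨F, ?_, h1.symm⟩
  rintro rfl
  rw [map_zero] at h1
  exact gpol_ne k h1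

/-- recurrences which are not separated satisfy an equation -/
theorem eval_zero (k : ℕ) (F : MvPolynomial (Fin k) ℤ)
    (hF : aeval (fun i : Fin k => esymm (Fin k) ℤ (i + 1)) F = gpol k) (l : Rec)
    (hk : l.length = k) (a : Fin k → ℤ) (ha : ∀ i : Fin k, coef l i = a i)
    (hs : ¬ Separated l) : eval (fun i : Fin k => (-1) ^ (i : ℕ) * a i) F = 0 := by
  obtain ⟨lam, hlam⟩ := exists_enum l k hk
  have h1 : aeval lam (gpol k) = (0 : ℂ) := by
    unfold Separated at hs
    push Not at hs
    obtain ⟨z, hz, w, hw, hzw, hne1, hne2⟩ := hs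
    have hmem : ∀ x ∈ croots l, ∃ i, lam i = x := by
      intro x hx
      rw [← hlam, Multiset.mem_map] at hx
      obtain ⟨i, -, hi⟩ := hx
      exact ⟨i, hi⟩
    have hcj : ∀ x ∈ croots l, (starRingEnd ℂ) x ∈ croots l := by
      intro x hx
      rw [← Multiset.count_pos, Pool.Agent.J4H65.UP.count_conj, Multiset.count_pos]
      exact hx
    obtain ⟨i, hi⟩ := hmem z hz
    obtain ⟨j, hj⟩ := hmem _ (hcj z hz)
    obtain ⟨p, hp⟩ := hmem w hw
    obtain ⟨q, hq⟩ := hmem _ (hcj w hw)
    unfold gpol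
    rw [map_prod]
    refine Finset.prod_eq_zero (i := (i, j, p, q)) ?_ ?_
    · unfold quad
      rw [Finset.mem_filter]
      refine ⟨Finset.mem_univ _, ?_⟩
      rintro (⟨h, -⟩ | ⟨-, h⟩)
      · simp only at h
        apply hne1
        rw [← hi, ← hp, h]
      · simp only at h
        apply hne2
        rw [← hj, ← hp, h]
    · rw [map_sub, map_mul, map_mul, aeval_X, aeval_X, aeval_X, aeval_X, hi, hj, hp, hq,
        Complex.mul_conj, Complex.mul_conj, Complex.normSq_eq_norm_sq, Complex.normSq_eq_norm_sq,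
        hzw, sub_self]
  rw [← hF] at h1
  have h2 : aeval lam (aeval (fun i : Fin k => esymm (Fin k) ℤ (i + 1)) F) =
      aeval (fun i : Fin k => aeval lam (esymm (Fin k) ℤ (i + 1))) F := by
    rw [← AlgHom.comp_apply, comp_aeval]
  rw [h2] at h1
  have h3 : (fun i : Fin k => aeval lam (esymm (Fin k) ℤ (i + 1))) =
      (fun i : Fin k => algebraMap ℤ ℂ ((-1) ^ (i : ℕ) * a i)) := by
    funext i
    rw [aeval_esymm_eq_multiset_esymm, hlam, esymm_croots l i (by rw [hk]; exact i.2), ha]
    push_cast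
    simp
  rw [h3] at h1
  have h4 := aeval_algebraMap_apply (A := ℤ) ℂ (fun i : Fin k => (-1) ^ (i : ℕ) * a i) F
  have h5 : (algebraMap ℤ ℂ) (aeval (fun i : Fin k => (-1) ^ (i : ℕ) * a i) F) = 0 := by
    rw [← h4]
    exact h1
  have h6 : aeval (fun i : Fin k => (-1) ^ (i : ℕ) * a i) F = (0 : ℤ) := by
    have : ((aeval (fun i : Fin k => (-1) ^ (i : ℕ) * a i) F : ℤ) : ℂ) = 0 := h5
    exact_mod_cast this
  rw [← h6]
  rfl

open Classical in
/-- **Almost all coefficient vectors are separated.** -/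
theorem nonsep_count (k : ℕ) : ∃ c : ℕ, ∀ H : ℕ,
    ((box k H).filter fun a => ¬ Separated (inst (fun i => (a i : ℚ)) 0)).card ≤
      c * (2 * H + 1) ^ (k - 1) := by
  rcases Nat.eq_zero_or_pos k with hk | hk
  · subst hk
    refine ⟨0, fun H => ?_⟩
    rw [Finset.filter_false_of_mem]
    · simp
    · intro a _ hs
      apply hs
      intro z hz
      have h1 := card_croots_eq (inst (fun i => (a i : ℚ)) 0)
      rw [length_inst, Multiset.card_eq_zero] at h1
      rw [h1] at hz
      exact absurd hz (Multiset.notMem_zero z)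
  obtain ⟨F, hF0, hF⟩ := exists_fpol k
  refine ⟨F.totalDegree, fun H => ?_⟩
  set S : Finset ℤ := Finset.Icc (-(H : ℤ)) H with hS
  have hScard : S.card = 2 * H + 1 := by
    rw [hS, Int.card_Icc]
    omega
  have h1 := schwartz_zippel_totalDegree hF0 S
  have h2 : ((box k H).filter fun a => ¬ Separated (inst (fun i => (a i : ℚ)) 0)).card ≤
      ((Fintype.piFinset fun _ : Fin k => S).filter fun f => eval f F = 0).card := by
    refine Finset.card_le_card_of_injOn (fun a (i : Fin k) => (-1) ^ (i : ℕ) * a i) ?_ ?_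
    · intro a ha
      obtain ⟨ha1, ha2⟩ := Finset.mem_filter.1 ha
      refine Finset.mem_coe.2 (Finset.mem_filter.2 ⟨?_, ?_⟩)
      · unfold box at ha1
        rw [Fintype.mem_piFinset] at ha1 ⊢
        intro i
        have h3 := Finset.mem_Icc.1 (ha1 i)
        rw [hS, Finset.mem_Icc]
        show -(H : ℤ) ≤ (-1) ^ (i : ℕ) * a i ∧ (-1) ^ (i : ℕ) * a i ≤ H
        rcases neg_one_pow_eq_or ℤ (i : ℕ) with h | h
        · rw [h, one_mul]
          exact h3
        · rw [h]
          constructor <;> linarith [h3.1, h3.2]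
      · refine eval_zero k F hF (inst (fun i => (a i : ℚ)) 0) (length_inst _ _) a ?_ ha2
        intro i
        unfold coef inst
        rw [List.getD_eq_getElem _ _ (by simp)]
        simp
    · intro a _ b _ hab
      funext i
      have h3 := congrFun hab i
      simp only at h3
      exact mul_left_cancel₀ (pow_ne_zero _ (by norm_num)) h3
  have h3 : (((Fintype.piFinset fun _ : Fin k => S).filter fun f => eval f F = 0).card : NNRat) ≤
      (F.totalDegree * (2 * H + 1) ^ (k - 1) : ℕ) := by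
    rw [hScard] at h1
    rw [div_le_div_iff₀ (by positivity) (by positivity)] at h1
    have h4 : (((Fintype.piFinset fun _ : Fin k => S).filter fun f => eval f F = 0).card : NNRat) *
        ((2 * H + 1 : ℕ) : NNRat) ≤
        ((F.totalDegree * (2 * H + 1) ^ (k - 1) : ℕ) : NNRat) * ((2 * H + 1 : ℕ) : NNRat) := by
      refine h1.trans (le_of_eq ?_)
      have h5 : ((2 * H + 1 : ℕ) : NNRat) ^ k = ((2 * H + 1 : ℕ) : NNRat) ^ (k - 1) *
          ((2 * H + 1 : ℕ) : NNRat) := by
        rw [← pow_succ, Nat.sub_add_cancel hk]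
      rw [h5]
      push_cast
      ring
    exact le_of_mul_le_mul_right h4 (by positivity)
  have h4 : ((Fintype.piFinset fun _ : Fin k => S).filter fun f => eval f F = 0).card ≤
      F.totalDegree * (2 * H + 1) ^ (k - 1) := by exact_mod_cast h3
  exact h2.trans h4

end Pool.Agent.J4H65.GP
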