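import Pool.Agent.J4H65.UP.Main
import Pool.Agent.H612.LR.MainP
import Pool.Agent.J4H65.GP.Cone
import Pool.Agent.J4H65.GP.Count

/-!
# Effective asymptotics of the instances
-/

set_option autoImplicit false

namespace Pool.Agent.J4H65.GP

open Pool.Agent.H612.LR

theorem exists_basis' (l : Rec) (k : ℕ) (hk : l.length = k) :
    ∃ (z : Fin k → ℂ) (j : Fin k → ℕ), Basis l k z j := by
  subst hk
  exact exists_basis l

theorem rep' (l : Rec) (k : ℕ) (hk : l.length = k) (z : Fin k → ℂ) (j : Fin k → ℕ)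
    (hb : Basis l k z j) (c : Fin k → ℂ)
    (hc : (mat z j).mulVec c = fun n : Fin k => ((seq l n : ℚ) : ℂ)) :
    ∀ n, ((seq l n : ℚ) : ℂ) = ∑ i, c i * bs (z i) (j i) n := by
  subst hk
  exact rep l z j hb c hc

theorem Basis.congr {l l' : Rec} {k : ℕ} {z : Fin k → ℂ} {j : Fin k → ℕ} (h : Basis l k z j)
    (h1 : l'.length = l.length) (h2 : coef l' = coef l) : Basis l' k z j := by
  have e : croots l' = croots l := by
    unfold croots chi
    rw [h1, h2]
  refine ⟨?_, ?_, h.inj, ?_⟩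
  · rw [e]
    exact h.lt
  · rw [e]
    exact h.sur
  · rw [h1, h2]
    exact h.det

section

variable {l : Rec} {k : ℕ} {z : Fin k → ℂ} {j : Fin k → ℕ}

theorem Basis.isRoot (hb : Basis l k z j) (i : Fin k) : IsRoot l (z i) :=
  isRoot_of_count l (z i) (lt_of_le_of_lt (Nat.zero_le _) (hb.lt i))

theorem Basis.det_ne (hb : Basis l k z j) : (mat z j).det ≠ 0 := by
  intro h
  have := hb.det
  rw [h, norm_zero, zero_mul] at this
  norm_num at this

theorem Basis.conj (hb : Basis l k z j) (i : Fin k) :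
    ∃ i', z i' = (starRingEnd ℂ) (z i) ∧ j i' = j i :=
  hb.sur _ _ (by rw [Pool.Agent.J4H65.UP.count_conj]; exact hb.lt i)

theorem Basis.jlt (hb : Basis l k z j) (hl : 1 ≤ l.length) (i : Fin k) : j i < l.length := by
  have h1 := hb.lt i
  have h2 := Multiset.count_le_card (z i) (croots l)
  have h3 := Pool.Agent.J4H65.UP.card_croots l hl
  omega

theorem entry_bound (hl : 1 ≤ l.length) (x : ℂ) (hx : IsRoot l x) (s n : ℕ)
    (hn : n < l.length) : ‖bs x s n‖ ≤ 2 ^ (3 * sz l ^ 2) := by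
  have hN : l.length ≤ sz l := TOR.len_le_sz l
  have hN1 : 1 ≤ sz l := hl.trans hN
  have h1 := root_upper l x hx hl (sz l) le_rfl hN
  unfold bs
  rw [norm_mul, norm_pow, Complex.norm_natCast]
  have h2 : ‖x‖ ^ (n - s) ≤ 2 ^ (2 * sz l * sz l) := by
    rw [pow_mul]
    refine (pow_le_pow_left₀ (norm_nonneg _) h1 _).trans (pow_le_pow_right₀ ?_ (by omega))
    exact one_le_pow₀ (by norm_num)
  have h3 : ((n.choose s : ℕ) : ℝ) ≤ 2 ^ sz l := by
    have h4 : n.choose s ≤ 2 ^ sz l :=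
      (Nat.choose_le_two_pow n s).trans (Nat.pow_le_pow_right (by norm_num) (by omega))
    exact_mod_cast h4
  calc ‖x‖ ^ (n - s) * (n.choose s : ℝ) ≤ 2 ^ (2 * sz l * sz l) * 2 ^ sz l :=
        mul_le_mul h2 h3 (by positivity) (by positivity)
    _ = 2 ^ (2 * sz l * sz l + sz l) := by rw [pow_add]
    _ ≤ _ := pow_le_pow_right₀ (by norm_num) (by nlinarith)

theorem cb_bound (hb : Basis l k z j) (hk : l.length = k) (hl : 1 ≤ l.length) (c : Fin k → ℂ)
    (hc : (mat z j).mulVec c = fun n : Fin k => ((seq l n : ℚ) : ℂ)) (i : Fin k) :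
    ‖c i‖ ≤ 2 ^ (5 * sz l ^ 3) := by
  have hN : l.length ≤ sz l := TOR.len_le_sz l
  have hN1 : 1 ≤ sz l := hl.trans hN
  have hkN : k ≤ sz l := hk ▸ hN
  set N := sz l with hNd
  have hD0 : (0 : ℝ) < cden l.length (coef l) := by
    have := cden_pos l.length (coef l)
    exact_mod_cast this
  have hD : (cden l.length (coef l) : ℝ) ≤ 2 ^ N := by exact_mod_cast cden_le l
  have hdet : (1 : ℝ) / 2 ^ (N ^ 3) ≤ ‖(mat z j).det‖ := by
    rw [div_le_iff₀ (by positivity)]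
    refine hb.det.trans (mul_le_mul_of_nonneg_left ?_ (norm_nonneg _))
    calc (cden l.length (coef l) : ℝ) ^ (k * k) ≤ (2 ^ N) ^ (k * k) :=
          pow_le_pow_left₀ hD0.le hD _
      _ ≤ (2 ^ N) ^ (N * N) := pow_le_pow_right₀ (one_le_pow₀ (by norm_num))
          (Nat.mul_le_mul hkN hkN)
      _ = 2 ^ (N ^ 3) := by rw [← pow_mul]; congr 1; ring
  have h1 := coef_bound k (mat z j) _ c (2 ^ (3 * N ^ 2)) (1 / 2 ^ (N ^ 3))
    (fun n i => by
      simp only [mat, Matrix.of_apply]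
      exact entry_bound hl (z i) (hb.isRoot i) (j i) n (by rw [hk]; exact n.2))
    (fun n => by
      have h2 : ((seq l n : ℚ) : ℂ) = (((seq l n : ℚ) : ℝ) : ℂ) := by push_cast; rfl
      show ‖((seq l n : ℚ) : ℂ)‖ ≤ 2 ^ (3 * N ^ 2)
      rw [h2, Complex.norm_real, Real.norm_eq_abs]
      have hnl : (n : ℕ) < l.length := by rw [hk]; exact n.2
      have h3 := ini_bounds l n hnl
      have h4 : seq l n = ini l n := by
        rw [seq, if_pos hnl]
      rw [h4]
      have h5 : ((|ini l n| : ℚ) : ℝ) ≤ ((2 ^ sz l : ℚ) : ℝ) := by exact_mod_cast h3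
      push_cast at h5
      refine h5.trans (pow_le_pow_right₀ (by norm_num) ?_)
      nlinarith)
    (by positivity) hdet hc i
  refine h1.trans ?_
  rw [div_div_eq_mul_div, div_one]
  have h2 : (k.factorial : ℝ) ≤ 2 ^ (N ^ 2) := by
    have : k.factorial ≤ 2 ^ (N ^ 2) := by
      calc k.factorial ≤ N.factorial := Nat.factorial_le hkN
        _ ≤ N ^ N := Nat.factorial_le_pow N
        _ ≤ (2 ^ N) ^ N := Nat.pow_le_pow_left (Nat.lt_two_pow_self).le _
        _ = 2 ^ (N ^ 2) := by rw [← pow_mul, sq]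
    exact_mod_cast this
  calc (k.factorial : ℝ) * (2 ^ (3 * N ^ 2)) ^ k * 2 ^ (N ^ 3)
      ≤ 2 ^ (N ^ 2) * (2 ^ (3 * N ^ 2)) ^ N * 2 ^ (N ^ 3) := by
        refine mul_le_mul_of_nonneg_right ?_ (by positivity)
        refine mul_le_mul h2 (pow_le_pow_right₀ (one_le_pow₀ (by norm_num)) hkN) (by positivity)
          (by positivity)
    _ = 2 ^ (N ^ 2 + 3 * N ^ 2 * N + N ^ 3) := by
        rw [← pow_mul, ← pow_add, ← pow_add]
    _ ≤ 2 ^ (5 * N ^ 3) := by
        refine pow_le_pow_right₀ (by norm_num) ?_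
        have e : N ^ 2 + 3 * N ^ 2 * N + N ^ 3 = N ^ 2 + 4 * N ^ 3 := by ring
        rw [e]
        have : N ^ 2 ≤ N ^ 3 := Nat.pow_le_pow_right hN1 (by norm_num)
        omega

/-- the level `(ρ, M)` dominates the sequence with the coefficients `c` -/
def Level (z : Fin k → ℂ) (j : Fin k → ℕ) (ρ : ℝ) (M : ℕ) (c : Fin k → ℂ) : Prop :=
  ∀ i, c i ≠ 0 → ‖z i‖ < ρ ∨ (‖z i‖ = ρ ∧ j i ≤ M)

end

/-- **Effective asymptotics.** -/
theorem inst_est : ∃ A : ℕ, ∀ (l : Rec) (k : ℕ) (z : Fin k → ℂ) (j : Fin k → ℕ),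
    Basis l k z j → l.length = k → 1 ≤ l.length → ∀ c : Fin k → ℂ,
    ((mat z j).mulVec c = fun n : Fin k => ((seq l n : ℚ) : ℂ)) → ∀ (ρ : ℝ) (M : ℕ), 0 < ρ →
    (∃ i, ‖z i‖ = ρ ∧ j i = M) → Level z j ρ M c → ∀ t : ℕ, 2 ^ (A * sz l ^ A) ≤ t →
    |(seq l (t + M) : ℝ) - (((t + M).choose M : ℝ) * ρ ^ t) * (dom z j ρ M c t).re| ≤
      2 ^ (A * sz l ^ A) * (((t + M).choose M : ℝ) * ρ ^ t) / ((t : ℝ) + 1) := by
  obtain ⟨C, hC⟩ := t_GAPM t_HROOT
  refine ⟨2 * C + 60, fun l k z j hb hk hl c hc ρ M hρ htop hlev t ht => ?_⟩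
  have hN : l.length ≤ sz l := TOR.len_le_sz l
  have hN1 : 1 ≤ sz l := hl.trans hN
  have hkN : k ≤ sz l := hk ▸ hN
  obtain ⟨i0, hi0, hi0'⟩ := htop
  set N := sz l with hNd
  have hpowC : N ^ C ≤ N ^ (2 * C + 60) := Nat.pow_le_pow_right hN1 (by omega)
  have hpow3 : N ^ 3 ≤ N ^ (2 * C + 60) := Nat.pow_le_pow_right hN1 (by omega)
  have hpow1 : N ≤ N ^ (2 * C + 60) := by
    calc N = N ^ 1 := (pow_one N).symm
      _ ≤ _ := Nat.pow_le_pow_right hN1 (by omega)
  have hone : 1 ≤ N ^ (2 * C + 60) := Nat.one_le_pow _ _ hN1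
  have hest := est k (hk ▸ hl) z j c (fun i => hk ▸ hb.jlt hl i)
    (fun n => ((seq l n : ℚ) : ℂ)) (rep' l k hk z j hb c hc) ρ (2 ^ (4 * N)) (2 ^ (5 * N ^ 3)) M
    (C * N ^ C + 1) (by rw [← hi0']; exact hk ▸ hb.jlt hl i0) hρ (one_le_pow₀ (by norm_num))
    (by
      rw [← hi0]
      exact (root_upper l _ (hb.isRoot i0) hl N le_rfl hN).trans
        (pow_le_pow_right₀ (by norm_num) (by omega)))
    (by
      rw [← hi0]
      refine root_lower l _ (hb.isRoot i0) ?_ hl N le_rfl hN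
      intro h
      rw [h, norm_zero] at hi0
      exact hρ.ne hi0)
    (Nat.le_add_left 1 _) hlev
    (fun i hi => by
      rw [← hi0] at hi ⊢
      refine (hC l (z i) (z i0) hl (hb.isRoot i) (hb.isRoot i0) hi).trans ?_
      refine mul_le_mul_of_nonneg_left ?_ (norm_nonneg _)
      have : (1 : ℝ) / 2 ^ (C * N ^ C + 1) ≤ 1 / 2 ^ (C * N ^ C) :=
        one_div_le_one_div_of_le (by positivity) (pow_le_pow_right₀ (by norm_num) (by omega))
      linarith)
    (fun i => cb_bound hb hk hl c hc i) t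
    (by
      refine le_trans (Nat.pow_le_pow_right (by norm_num) ?_) ht
      nlinarith)
  have hre : |(seq l (t + M) : ℝ) - (((t + M).choose M : ℝ) * ρ ^ t) * (dom z j ρ M c t).re| ≤
      ‖((seq l (t + M) : ℚ) : ℂ) - (((t + M).choose M : ℂ) * (ρ : ℂ) ^ t) * dom z j ρ M c t‖ := by
    refine le_trans (le_of_eq ?_) (Complex.abs_re_le_norm _)
    congr 1
    have e1 : ((seq l (t + M) : ℚ) : ℂ) = (((seq l (t + M) : ℚ) : ℝ) : ℂ) := by push_cast; rfl
    have e2 : (((t + M).choose M : ℂ) * (ρ : ℂ) ^ t) =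
        ((((t + M).choose M : ℝ) * ρ ^ t : ℝ) : ℂ) := by push_cast; rfl
    rw [e1, e2, Complex.sub_re, Complex.ofReal_re, Complex.re_ofReal_mul]
  refine (hre.trans hest).trans ?_
  refine div_le_div_of_nonneg_right ?_ (by positivity)
  refine mul_le_mul_of_nonneg_right ?_ (by positivity)
  have hk2 : (k : ℝ) ≤ 2 ^ N := by
    have : k ≤ 2 ^ N := hkN.trans (Nat.lt_two_pow_self).le
    exact_mod_cast this
  calc (k : ℝ) * 2 ^ (5 * N ^ 3) * (2 ^ k * (2 ^ (4 * N)) ^ k)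
      ≤ 2 ^ N * 2 ^ (5 * N ^ 3) * (2 ^ N * (2 ^ (4 * N)) ^ N) := by
        refine mul_le_mul (mul_le_mul_of_nonneg_right hk2 (by positivity)) ?_ (by positivity)
          (by positivity)
        refine mul_le_mul (pow_le_pow_right₀ (by norm_num) hkN)
          (pow_le_pow_right₀ (one_le_pow₀ (by norm_num)) hkN) (by positivity) (by positivity)
    _ = 2 ^ (N + 5 * N ^ 3 + (N + 4 * N * N)) := by
        rw [← pow_mul, ← pow_add, ← pow_add, ← pow_add]
    _ ≤ 2 ^ ((2 * C + 60) * N ^ (2 * C + 60)) := by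
        refine pow_le_pow_right₀ (by norm_num) ?_
        have h4 : N * N ≤ N ^ 3 := by
          calc N * N = N ^ 2 := (sq N).symm
            _ ≤ N ^ 3 := Nat.pow_le_pow_right hN1 (by norm_num)
        nlinarith

end Pool.Agent.J4H65.GP
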