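import Pool.Agent.J4H65.GP.Gen

/-!
# Positivity up to exceptional instances in `∀ℝ`: assembly
-/

set_option autoImplicit false

namespace Pool.Agent.J4H65.GP

open Pool.Agent.NPC Pool.Agent.NPC.ER Pool.Agent.NPC.H612 Pool.Agent.H612.PG
open Pool.Agent.H612.LR Pool.Agent.J4H65.UP

/-- The problem: the nonpositive terms have upper Banach density zero and large indices, and the
library certificates of failure do not exist. -/
theorem typed (C : ℕ) : ∃ f : Rec → Fm, Pool.Agent.NPC.Poly f ∧ ∀ l : Rec, l ≠ [] →
    (ETR (f l) → ¬ Positive l) ∧ (¬ ETR (f l) → BanachNull {n | seq l n ≤ 0} ∧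
      (∀ n < 2 ^ (C * Pool.Agent.H612.LR.sz l ^ C), 0 < seq l n) ∧
      (NonTight0 l → Positive l)) := by
  obtain ⟨g, hg, h⟩ := main_typed
  obtain ⟨g', hg', h'⟩ := main_pos
  have hN : UPoly (fun l : Rec => C * Pool.Agent.H612.LR.sz l ^ C) :=
    Pool.Agent.NPC.H612.LRP.upoly_pow
      (Pool.Agent.NPC.H612.LRP.upoly_sz Pool.Agent.NPC.Poly.id) C
  refine ⟨fun l => disj [g l, g' l, tmFm l (C * Pool.Agent.H612.LR.sz l ^ C), smFm l], ?_, fun l hl => ?_⟩
  · exact poly_disj (Pool.Agent.NPC.Poly.cons hg (Pool.Agent.NPC.Poly.cons hg'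
      (Pool.Agent.NPC.Poly.cons (t_PLP.2.2.1 _ hN) (Pool.Agent.NPC.Poly.cons t_PLP.2.2.2
        (Pool.Agent.NPC.Poly.const [])))))
  · have hk : 1 ≤ l.length := List.length_pos_iff.2 hl
    have hT := t_TM t_RPE t_RPU l (C * Pool.Agent.H612.LR.sz l ^ C) hk
    have hS := t_SM l
    rw [etr_disj]
    simp only [List.mem_cons, List.not_mem_nil, or_false, exists_eq_or_imp, exists_eq_left]
    constructor
    · rintro (he | he | he | he)
      · intro hp
        obtain ⟨L, hL⟩ := (h l hl).1 he
        obtain ⟨m, hm, -⟩ := hL 0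
        exact absurd (hp m) (not_lt.2 hm)
      · exact (h' l hl).1 he
      · obtain ⟨n, _, _, hn⟩ := hT.1 he
        exact fun hp => absurd (hp n) (not_lt.2 hn)
      · obtain ⟨n, _, hn⟩ := hS.1 he
        exact fun hp => absurd (hp n) (not_lt.2 hn)
    · intro hne
      push Not at hne
      obtain ⟨h1, h2, h3, h4⟩ := hne
      refine ⟨((h l hl).2 h1).1, fun n hn => ?_, fun hnt => ?_⟩
      · by_contra hcon
        rw [not_lt] at hcon
        by_cases hnk : n < l.length
        · exact h4 (hS.2 ⟨n, hnk, hcon⟩)
        · exact h3 (hT.2 ⟨n, not_lt.1 hnk, hn, hcon⟩)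
      · by_contra hnp
        exact h2 ((h' l hl).2 hnt hnp)

/-- From typed reductions to strings. -/
theorem to_str (f : Rec → Fm) (hf : Pool.Agent.NPC.Poly f) :
    InER (lang fun l : Rec => l ≠ [] ∧ ¬ ETR (f l))ᶜ := by
  set tt : Fm := Fm.eq Tm.zero Tm.zero with htt
  have htrue : ETR tt := ⟨fun _ => 0, rfl⟩
  set g' : Rec → Fm := fun l => match l with | [] => tt | b :: t => f (b :: t) with hg'
  have hg'P : Pool.Agent.NPC.Poly g' := by
    refine (Pool.Agent.NPC.Poly.listCases (l := fun l : Rec => l) (g := fun _ => tt)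
      (h := fun l _ _ => f l) Pool.Agent.NPC.Poly.id (Pool.Agent.NPC.Poly.const _)
      (hf.comp (Pool.Agent.NPC.Poly.fst Pool.Agent.NPC.Poly.id))).congr fun l => ?_
    cases l <;> rfl
  refine ⟨fun w => match unbits Rec w with | none => tt | some a => g' a, ?_, fun w => ?_⟩
  · refine polyTime_bits (g := fun w => match unbits Rec w with | none => tt | some a => g' a) ?_
    refine (Pool.Agent.NPC.Poly.optCases (g := fun _ => tt) (h := fun _ a => g' a) poly_unbits
      (Pool.Agent.NPC.Poly.const _)
      (hg'P.comp (Pool.Agent.NPC.Poly.snd Pool.Agent.NPC.Poly.id))).congr fun w => ?_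
    cases unbits Rec w <;> rfl
  · cases hu : unbits Rec w with
    | none =>
      simp only [hu]
      refine ⟨fun _ => htrue, fun _ => ?_⟩
      rintro ⟨l, hl, -⟩
      rw [← hl, unbits_bits] at hu
      exact absurd hu (by simp)
    | some a =>
      have ha : bits a = w := bits_of_unbits hu
      simp only [hu]
      constructor
      · intro hmem
        cases a with
        | nil => exact htrue
        | cons b t =>
          by_contra he
          exact hmem ⟨b :: t, ha, List.cons_ne_nil b t, he⟩
      · rintro he ⟨l, hl, hne, hnot⟩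
        have hla : l = a := by
          have := congrArg (unbits Rec) (hl.trans ha.symm)
          rw [unbits_bits, unbits_bits] at this
          exact Option.some.inj this
        subst hla
        cases l with
        | nil => exact hne rfl
        | cons b t => exact hnot he

end Pool.Agent.J4H65.GP
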