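import Pool.Agent.J4H65.GP.Real

/-!
# Instances with a positive margin
-/

set_option autoImplicit false

namespace Pool.Agent.J4H65.GP

open Pool.Agent.H612.LR Pool.Agent.J4H65.UP Filter Topology

/-- the asymptotics of a sequence -/
structure Asym (u : ℕ → ℝ) (ρ : ℝ) (M : ℕ) (φ : ℕ → ℝ) (B : ℝ) (T : ℕ) : Prop where
  pos : 0 < ρ
  bpos : 0 ≤ B
  est : ∀ t : ℕ, T ≤ t → |u (t + M) - (((t + M).choose M : ℝ) * ρ ^ t) * φ t| ≤
    B * (((t + M).choose M : ℝ) * ρ ^ t) / ((t : ℝ) + 1)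
  ret : ∀ ε : ℝ, 0 < ε → ∀ t0 : ℕ, ∃ L : ℕ, ∀ n, ∃ t, n ≤ t ∧ t < n + L ∧ |φ t - φ t0| < ε
  bdd : ∃ b : ℝ, 0 ≤ b ∧ ∀ t, |φ t| ≤ b
  ne : ∃ t, φ t ≠ 0

section

variable {u : ℕ → ℝ} {ρ : ℝ} {M : ℕ} {φ : ℕ → ℝ} {B : ℝ} {T : ℕ}

theorem Asym.cpos (h : Asym u ρ M φ B T) (t : ℕ) : 0 < ((t + M).choose M : ℝ) * ρ ^ t := by
  have h1 : 0 < (t + M).choose M := Nat.choose_pos (Nat.le_add_left M t)
  have h2 : (0 : ℝ) < ((t + M).choose M : ℝ) := by exact_mod_cast h1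
  have := h.pos
  positivity

theorem Asym.upper (h : Asym u ρ M φ B T) (t : ℕ) (ht : T ≤ t) :
    u (t + M) ≤ (((t + M).choose M : ℝ) * ρ ^ t) * (φ t + B / ((t : ℝ) + 1)) := by
  have h1 := h.est t ht
  rw [abs_le] at h1
  have e : B * (((t + M).choose M : ℝ) * ρ ^ t) / ((t : ℝ) + 1) =
      (((t + M).choose M : ℝ) * ρ ^ t) * (B / ((t : ℝ) + 1)) := by ring
  rw [e] at h1
  rw [mul_add]
  linarith [h1.2]

theorem Asym.lower (h : Asym u ρ M φ B T) (t : ℕ) (ht : T ≤ t) :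
    (((t + M).choose M : ℝ) * ρ ^ t) * (φ t - B / ((t : ℝ) + 1)) ≤ u (t + M) := by
  have h1 := h.est t ht
  rw [abs_le] at h1
  have e : B * (((t + M).choose M : ℝ) * ρ ^ t) / ((t : ℝ) + 1) =
      (((t + M).choose M : ℝ) * ρ ^ t) * (B / ((t : ℝ) + 1)) := by ring
  rw [e] at h1
  rw [mul_sub]
  linarith [h1.1]

/-- large times with `B / (t + 1)` small -/
theorem small_err (B ε : ℝ) (hε : 0 < ε) :
    ∃ T1 : ℕ, ∀ t : ℕ, T1 ≤ t → B / ((t : ℝ) + 1) < ε := by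
  obtain ⟨T1, hT1⟩ := exists_nat_gt (B / ε)
  refine ⟨T1, fun t ht => ?_⟩
  have h1 : (T1 : ℝ) ≤ t := by exact_mod_cast ht
  rw [div_lt_iff₀ hε] at hT1
  rw [div_lt_iff₀ (by positivity)]
  nlinarith

/-- a negative value of the dominant part is seen in every window -/
theorem Asym.neg (h : Asym u ρ M φ B T) (t0 : ℕ) (h0 : φ t0 < 0) :
    BoundedGaps {n | u n < 0} := by
  obtain ⟨L, hL⟩ := h.ret (-(φ t0) / 2) (by linarith) t0
  obtain ⟨T1, hT1⟩ := small_err B (-(φ t0) / 2) (by linarith)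
  refine ⟨T + T1 + L + M, fun n => ?_⟩
  obtain ⟨t, h1, h2, h3⟩ := hL (n + T + T1)
  refine ⟨t + M, ?_, by omega, by omega⟩
  have h4 := h.upper t (by omega)
  have h5 := hT1 t (by omega)
  rw [abs_lt] at h3
  have h6 : φ t + B / ((t : ℝ) + 1) < 0 := by linarith [h3.2]
  exact lt_of_le_of_lt h4 (mul_neg_of_pos_of_neg (h.cpos t) h6)

/-- nonnegative sequences have a nonnegative dominant part -/
theorem Asym.nonneg (h : Asym u ρ M φ B T) (N0 : ℕ) (hu : ∀ n, N0 ≤ n → 0 ≤ u n) (t : ℕ) :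
    0 ≤ φ t := by
  by_contra hcon
  rw [not_le] at hcon
  obtain ⟨L, hL⟩ := h.neg t hcon
  obtain ⟨m, h1, h2, -⟩ := hL N0
  exact absurd h1 (not_lt.2 (hu m h2))

/-- comparison of the growth -/
theorem lex_le (ρ1 ρ2 A1 A2 : ℝ) (m1 m2 : ℕ) (h1 : 0 < ρ1) (h2 : 0 < ρ2) (hA1 : 0 < A1)
    (hA2 : 0 < A2) (h : ∀ N : ℕ, ∃ n, N ≤ n ∧
      A1 * (ρ1 ^ n * ((n : ℝ) + 1) ^ m1) ≤ A2 * (ρ2 ^ n * ((n : ℝ) + 1) ^ m2)) :
    ρ1 < ρ2 ∨ (ρ1 = ρ2 ∧ m1 ≤ m2) := by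
  by_contra hcon
  push Not at hcon
  obtain ⟨hc1, hc2⟩ := hcon
  have hlim : Tendsto (fun n : ℕ => (ρ2 / ρ1) ^ n * ((n : ℝ) + 1) ^ m2 / ((n : ℝ) + 1) ^ m1)
      atTop (𝓝 0) := by
    rcases lt_or_eq_of_le hc1 with hlt | heq
    · exact phi_lt (ρ2 / ρ1) (by positivity) (by rw [div_lt_one h1]; exact hlt) m2 m1
    · have := phi_poly m2 m1 (hc2 heq.symm)
      rw [heq, div_self h1.ne']
      simpa using this
  rw [Metric.tendsto_atTop] at hlim
  obtain ⟨N, hN⟩ := hlim (A1 / A2) (by positivity)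
  obtain ⟨n, hn, hle⟩ := h N
  have h3 := hN n hn
  rw [Real.dist_eq, sub_zero, abs_of_nonneg (by positivity), div_pow, div_mul_eq_mul_div,
    div_div, div_lt_div_iff₀ (by positivity) hA2] at h3
  nlinarith

/-- **Margins.** -/
theorem Asym.margin (h : Asym u ρ M φ B T) (ρ' ε C1 : ℝ) (m N0 : ℕ) (hρ' : 0 < ρ')
    (hε : 0 < ε) (hup : ∀ n : ℕ, |u n| ≤ C1 * (ρ' ^ n * ((n : ℝ) + 1) ^ m))
    (hlow : ∀ n, N0 ≤ n → ε * (ρ' ^ n * ((n : ℝ) + 1) ^ m) ≤ u n) :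
    ρ' = ρ ∧ m = M ∧ ∀ t, ε * ρ ^ M ≤ φ t := by
  have hρ := h.pos
  have hnn : ∀ t, 0 ≤ φ t := h.nonneg N0 fun n hn => le_trans (by positivity) (hlow n hn)
  obtain ⟨b, hb0, hb⟩ := h.bdd
  obtain ⟨c0, hc0, hkap⟩ := kap_bounds M
  have hchoose : ∀ t : ℕ, ((t + M).choose M : ℝ) ≤ (((t + M : ℕ) : ℝ) + 1) ^ M :=
    fun t => choose_le_pow' (t + M) M
  -- the first comparison
  have hcmp1 : ρ' < ρ ∨ (ρ' = ρ ∧ m ≤ M) := by
    refine lex_le ρ' ρ ε ((b + B + 1) / ρ ^ M) m M hρ' hρ hε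
      (by have := h.bpos; positivity) fun N => ?_
    obtain ⟨t, ht⟩ : ∃ t, t = N + T + N0 := ⟨_, rfl⟩
    refine ⟨t + M, by omega, ?_⟩
    refine (hlow _ (by omega)).trans ?_
    have h1 := h.upper t (by omega)
    refine h1.trans ?_
    have h2 : φ t + B / ((t : ℝ) + 1) ≤ b + B + 1 := by
      have h3 := (abs_le.1 (hb t)).2
      have h4 : B / ((t : ℝ) + 1) ≤ B := by
        refine div_le_self h.bpos ?_
        have : (0 : ℝ) ≤ t := Nat.cast_nonneg t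
        linarith
      linarith
    have hbB : 0 ≤ b + B + 1 := by have := h.bpos; positivity
    calc (((t + M).choose M : ℝ) * ρ ^ t) * (φ t + B / ((t : ℝ) + 1))
        ≤ (((t + M).choose M : ℝ) * ρ ^ t) * (b + B + 1) :=
          mul_le_mul_of_nonneg_left h2 (h.cpos t).le
      _ ≤ ((((t + M : ℕ) : ℝ) + 1) ^ M * ρ ^ t) * (b + B + 1) := by
          refine mul_le_mul_of_nonneg_right ?_ hbB
          exact mul_le_mul_of_nonneg_right (hchoose t) (by positivity)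
      _ = (b + B + 1) / ρ ^ M * (ρ ^ (t + M) * (((t + M : ℕ) : ℝ) + 1) ^ M) := by
          rw [pow_add]
          field_simp
  -- the second comparison
  have hC1 : 0 < C1 := by
    by_contra hcon
    rw [not_lt] at hcon
    have h1 := (le_abs_self _).trans (hup N0)
    have h2 := hlow N0 le_rfl
    have h3 : 0 < ρ' ^ N0 * ((N0 : ℝ) + 1) ^ m := by positivity
    nlinarith
  obtain ⟨s0, hs0⟩ := h.ne
  have hs : 0 < φ s0 := lt_of_le_of_ne (hnn s0) (Ne.symm hs0)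
  have hcmp2 : ρ < ρ' ∨ (ρ = ρ' ∧ M ≤ m) := by
    refine lex_le ρ ρ' (φ s0 / 4 * c0 / ρ ^ M) C1 M m hρ hρ' (by positivity) hC1 fun N => ?_
    obtain ⟨L, hL⟩ := h.ret (φ s0 / 2) (by positivity) s0
    obtain ⟨T1, hT1⟩ := small_err B (φ s0 / 4) (by positivity)
    obtain ⟨t, h1, h2, h3⟩ := hL (N + T + T1 + 2 * M + 1)
    refine ⟨t + M, by omega, ?_⟩
    have h4 := h.lower t (by omega)
    have h5 := hT1 t (by omega)
    have h6 := (hkap (t + M) (by omega)).1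
    rw [le_div_iff₀ (by positivity)] at h6
    rw [abs_lt] at h3
    have h7 : φ s0 / 4 ≤ φ t - B / ((t : ℝ) + 1) := by linarith [h3.1]
    refine le_trans ?_ (((le_abs_self _).trans (hup (t + M))))
    refine le_trans ?_ h4
    calc φ s0 / 4 * c0 / ρ ^ M * (ρ ^ (t + M) * (((t + M : ℕ) : ℝ) + 1) ^ M)
        = (c0 * (((t + M : ℕ) : ℝ) + 1) ^ M * ρ ^ t) * (φ s0 / 4) := by
          rw [pow_add]
          field_simp
      _ ≤ (((t + M).choose M : ℝ) * ρ ^ t) * (φ s0 / 4) := by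
          refine mul_le_mul_of_nonneg_right ?_ (by positivity)
          exact mul_le_mul_of_nonneg_right h6 (by positivity)
      _ ≤ _ := mul_le_mul_of_nonneg_left h7 (h.cpos t).le
  have hρρ : ρ' = ρ := by
    rcases hcmp1 with h1 | h1
    · rcases hcmp2 with h2 | h2
      · exact absurd h1 (not_lt.2 h2.le)
      · exact h2.1.symm
    · exact h1.1
  have hmM : m = M := by
    rcases hcmp1 with h1 | h1
    · exact absurd h1 (by rw [hρρ]; exact lt_irrefl _)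
    · rcases hcmp2 with h2 | h2
      · exact absurd h2 (by rw [hρρ]; exact lt_irrefl _)
      · exact le_antisymm h1.2 h2.2
  refine ⟨hρρ, hmM, fun t0 => ?_⟩
  subst hρρ hmM
  -- large times
  have hlarge : ∀ t : ℕ, T + N0 ≤ t → ε * ρ' ^ m ≤ φ t + B / ((t : ℝ) + 1) := by
    intro t ht
    have h1 := (hlow (t + m) (by omega)).trans (h.upper t (by omega))
    have h2 : 0 ≤ φ t + B / ((t : ℝ) + 1) := by
      have := hnn t
      have := h.bpos
      positivity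
    have h3 : (((t + m).choose m : ℝ) * ρ' ^ t) * (φ t + B / ((t : ℝ) + 1)) ≤
        (ρ' ^ t * (((t + m : ℕ) : ℝ) + 1) ^ m) * (φ t + B / ((t : ℝ) + 1)) := by
      refine mul_le_mul_of_nonneg_right ?_ h2
      rw [mul_comm]
      exact mul_le_mul_of_nonneg_left (hchoose t) (by positivity)
    have h4 := h1.trans h3
    have h5 : 0 < ρ' ^ t * (((t + m : ℕ) : ℝ) + 1) ^ m := by positivity
    have e : ε * (ρ' ^ (t + m) * (((t + m : ℕ) : ℝ) + 1) ^ m) =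
        (ρ' ^ t * (((t + m : ℕ) : ℝ) + 1) ^ m) * (ε * ρ' ^ m) := by
      rw [pow_add]
      ring
    rw [e] at h4
    exact le_of_mul_le_mul_left h4 h5
  by_contra hcon
  rw [not_le] at hcon
  set η := (ε * ρ' ^ m - φ t0) / 2 with hη
  have hη0 : 0 < η := by
    rw [hη]
    linarith
  obtain ⟨L, hL⟩ := h.ret η hη0 t0
  obtain ⟨T1, hT1⟩ := small_err B η hη0
  obtain ⟨t, h1, h2, h3⟩ := hL (T + N0 + T1)
  have h4 := hlarge t (by omega)
  have h5 := hT1 t (by omega)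
  rw [abs_lt] at h3
  linarith [h3.2]

end

end Pool.Agent.J4H65.GP
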