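import Pool.Agent.J4H65.GP.Exact

/-!
# Lower bounds for the coefficients
-/

set_option autoImplicit false

namespace Pool.Agent.J4H65.GP

open Pool.Agent.H612.LR Pool.Agent.J4H65.UP Polynomial

theorem galois_setup {l : Rec} {k : ℕ} {z : Fin k → ℂ} {j : Fin k → ℕ} (hb : Basis l k z j) :
    ∃ (K : Type) (_ : Field K) (_ : Algebra ℚ K), IsGalois ℚ K ∧ FiniteDimensional ℚ K ∧
      ∃ (ι : K →ₐ[ℚ] ℂ) (y : Fin k → K), (∀ i, ι (y i) = z i) ∧
        (∀ i, aeval (y i) (chi l) = 0) ∧
        ∀ σ : K ≃ₐ[ℚ] K, ∃ τ : Equiv.Perm (Fin k), ∀ i, y (τ i) = σ (y i) ∧ j (τ i) = j i := by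
  classical
  obtain ⟨K, iF, iA, iG, iD, hsp, ⟨ι⟩⟩ := exK (chi l)
  refine ⟨K, iF, iA, iG, iD, ι, ?_⟩
  set R := ((chi l).map (algebraMap ℚ K)).roots with hR
  have hRC : croots l = R.map (ι : K →+* ℂ) := by
    unfold croots
    rw [hR, ← hsp.roots_map, Polynomial.map_map]
    congr 2
    exact Subsingleton.elim _ _
  have hcountC : ∀ x : K, (croots l).count (ι x) = R.count x := by
    intro x
    have := Multiset.count_map_eq_count' (ι : K →+* ℂ) R (ι : K →+* ℂ).injective x
    rw [hRC]
    convert this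
    rfl
  have hcount : ∀ (σ : K ≃ₐ[ℚ] K) (x : K), R.count (σ x) = R.count x := by
    intro σ x
    have h4 : R.map (σ : K →+* K) = R := by
      rw [hR, ← hsp.roots_map, Polynomial.map_map]
      congr 2
      exact Subsingleton.elim _ _
    conv_lhs => rw [← h4]
    exact Multiset.count_map_eq_count' (σ : K →+* K) R σ.injective x
  have hex : ∀ i, ∃ y : K, ι y = z i := by
    intro i
    have h1 : z i ∈ croots l := Multiset.count_pos.1 (lt_of_le_of_lt (Nat.zero_le _) (hb.lt i))
    rw [hRC, Multiset.mem_map] at h1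
    obtain ⟨y, -, hy⟩ := h1
    exact ⟨y, hy⟩
  choose y hy using hex
  refine ⟨y, hy, fun i => ?_, fun σ => ?_⟩
  · have h1 : 0 < R.count (y i) := by
      rw [← hcountC, hy]
      exact lt_of_le_of_lt (Nat.zero_le _) (hb.lt i)
    have h2 := Multiset.count_pos.1 h1
    rw [hR, mem_roots', IsRoot.def, eval_map_algebraMap] at h2
    exact h2.2
  · choose τ hτ1 hτ2 using fun i => hb.sur (ι (σ (y i))) (j i) (by
      rw [hcountC, hcount, ← hcountC, hy]
      exact hb.lt i)
    have hτ3 : ∀ i, y (τ i) = σ (y i) := by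
      intro i
      apply (ι : K →+* ℂ).injective
      show ι (y (τ i)) = ι (σ (y i))
      rw [hy, hτ1]
    have hτ : Function.Injective τ := by
      intro i i' h
      refine hb.inj i i' ?_ ?_
      · rw [← hy i, ← hy i']
        congr 1
        apply σ.injective
        rw [← hτ3, ← hτ3, h]
      · rw [← hτ2 i, ← hτ2 i', h]
    exact ⟨Equiv.ofBijective τ (Finite.injective_iff_bijective.1 hτ), fun i => ⟨hτ3 i, hτ2 i⟩⟩

theorem int_of_fixed' {K : Type} [Field K] [Algebra ℚ K] [IsGalois ℚ K] [FiniteDimensional ℚ K]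
    (x : K) (hint : IsIntegral ℤ x) (h : ∀ σ : K ≃ₐ[ℚ] K, σ x = x) : ∃ N : ℤ, (N : K) = x := by
  have h4 : x ∈ (⊥ : IntermediateField ℚ K) := by
    rw [IsGalois.mem_bot_iff_fixed]
    exact h
  rw [IntermediateField.mem_bot] at h4
  obtain ⟨r, hr⟩ := h4
  have h5 : IsIntegral ℤ (algebraMap ℚ K r) := by rw [hr]; exact hint
  have h6 : IsIntegral ℤ r := (isIntegral_algebraMap_iff (algebraMap ℚ K).injective).1 h5
  obtain ⟨N, hN⟩ := IsIntegrallyClosed.isIntegral_iff.1 h6
  refine ⟨N, ?_⟩
  rw [← hr, ← hN]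
  simp

theorem iden_le (l : Rec) : cden l.length (ini l) ≤ 2 ^ sz l := by
  have h1 : cden l.length (ini l) = (l.map fun p : ℚ × ℚ => p.2.den).prod :=
    prod_getD l (0, 0) fun p => p.2.den
  rw [h1]
  unfold sz szList
  clear h1
  induction l with
  | nil => simp
  | cons p l ih =>
    rw [List.map_cons, List.prod_cons, List.flatMap_cons, List.length_append]
    have h3 : p.2.den ≤ 2 ^ (p.2.den.bits.length) := (nat_le_bits _).le
    calc p.2.den * (l.map fun p : ℚ × ℚ => p.2.den).prod
        ≤ 2 ^ (p.2.den.bits.length) * 2 ^ (l.flatMap fun p => true ::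
          (p.1.num.natAbs.bits ++ (p.1.den.bits ++ (p.2.num.natAbs.bits ++ p.2.den.bits)))).length
          := Nat.mul_le_mul h3 ih
      _ ≤ _ := by
        rw [← pow_add]
        refine Nat.pow_le_pow_right (by norm_num) ?_
        simp only [List.length_cons, List.length_append]
        omega

/-- **Nonzero coefficients are not too small.** -/
theorem coef_lower {l : Rec} {k : ℕ} {z : Fin k → ℂ} {j : Fin k → ℕ} (hb : Basis l k z j)
    (hk : l.length = k) (hl : 1 ≤ l.length) (p : Fin k) (hp : cvec z j (ivec l k) p ≠ 0) :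
    1 / 2 ^ (30 * sz l ^ 4) ≤ ‖cvec z j (ivec l k) p‖ := by
  classical
  obtain ⟨K, _, _, _, _, ι, y, hy, hyr, hgal⟩ := galois_setup hb
  have hch : CharZero K := algebraRat.charZero K
  have hN : l.length ≤ sz l := TOR.len_le_sz l
  have hN1 : 1 ≤ sz l := hl.trans hN
  have hkN : k ≤ sz l := hk ▸ hN
  set N := sz l with hNd
  set D := cden l.length (coef l) with hD
  set D' := cden l.length (ini l) with hD'
  have hD1 : 1 ≤ D := cden_pos _ _
  have hD'1 : 1 ≤ D' := cden_pos _ _
  -- the vector over `K`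
  set v : Fin k → K := fun n => algebraMap ℚ K (seq l n) with hv
  have hmapm : (ι : K →+* ℂ).mapMatrix (mat y j) = mat z j := by
    rw [mat_map]
    congr 1
    funext i
    exact hy i
  have hdety : (mat y j).det ≠ 0 := by
    intro h
    apply hb.det_ne
    rw [← hmapm, ← RingHom.map_det, h, map_zero]
  set c : Fin k → K := (mat y j)⁻¹.mulVec v with hc
  have hmc : (mat y j).mulVec c = v := by
    rw [hc, Matrix.mulVec_mulVec, Matrix.mul_nonsing_inv _ (isUnit_iff_ne_zero.2 hdety),
      Matrix.one_mulVec]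
  have huniq : ∀ c' : Fin k → K, (mat y j).mulVec c' = v → c = c' := by
    intro c' hc'
    rw [hc, ← hc', Matrix.mulVec_mulVec, Matrix.nonsing_inv_mul _ (isUnit_iff_ne_zero.2 hdety),
      Matrix.one_mulVec]
  have hcι : ∀ i, ι (c i) = cvec z j (ivec l k) i := by
    have h1 : cvec z j (ivec l k) = fun i => ι (c i) := by
      apply cvec_uniq hb.det_ne
      funext n
      have h2 := congrArg ι (congrFun hmc n)
      simp only [Matrix.mulVec, dotProduct, mat, Matrix.of_apply, map_sum, map_mul] at h2 ⊢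
      rw [hv] at h2
      simp only [AlgHom.commutes] at h2
      have h3 : ((ivec l k n : ℝ) : ℂ) = algebraMap ℚ ℂ (seq l n) := by
        unfold ivec
        simp
      rw [h3, ← h2]
      refine Finset.sum_congr rfl fun i _ => ?_
      rw [← hy i]
      congr 1
      exact (bs_map (ι : K →+* ℂ) (y i) (j i) n).symm
    intro i
    rw [h1]
  -- the Galois action on the coefficients
  have hcσ : ∀ (σ : K ≃ₐ[ℚ] K) (τ : Equiv.Perm (Fin k)),
      (∀ i, y (τ i) = σ (y i) ∧ j (τ i) = j i) → ∀ i, c (τ i) = σ (c i) := by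
    intro σ τ hτ i
    have h1 : c = fun i => σ.symm (c (τ i)) := by
      apply huniq
      funext n
      apply σ.injective
      simp only [Matrix.mulVec, dotProduct, mat, Matrix.of_apply, map_sum, map_mul,
        AlgEquiv.apply_symm_apply]
      have h2 : ∀ i, σ (bs (y i) (j i) (n : ℕ)) = bs (y (τ i)) (j (τ i)) n := by
        intro i
        rw [(hτ i).1, (hτ i).2]
        exact bs_map (σ : K →+* K) (y i) (j i) n
      rw [Finset.sum_congr rfl fun i _ => by rw [h2 i],
        Equiv.sum_comp τ (fun i => bs (y i) (j i) (n : ℕ) * c i)]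
      have h3 := congrFun hmc n
      simp only [Matrix.mulVec, dotProduct, mat, Matrix.of_apply] at h3
      rw [h3, hv]
      exact (AlgEquiv.commutes σ _).symm
    have h2 := congrFun h1 i
    rw [h2, AlgEquiv.apply_symm_apply]
  -- integral matrices
  set r : Fin k → K := fun n => (D' : K) * (D : K) ^ (n : ℕ) with hr
  set B : Matrix (Fin k) (Fin k) K := Matrix.of fun n i => r n * mat y j n i with hB
  have hBdet : B.det = (∏ n, r n) * (mat y j).det := Matrix.det_mul_column r (mat y j)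
  have hnatint : ∀ m : ℕ, IsIntegral ℤ (m : K) := fun m => by
    simpa using (isIntegral_algebraMap (R := ℤ) (A := K) (x := (m : ℤ)))
  have hBent : ∀ n i, IsIntegral ℤ (B n i) := by
    intro n i
    simp only [hB, hr, Matrix.of_apply, mat]
    rw [mul_assoc]
    exact (hnatint D').mul (int_bs D (y i)
      (int_root (chi l) (chi_monic l).1 D (chi_int l) (y i) (hyr i)) _ _)
  have hBint : IsIntegral ℤ B.det := IsIntegral.det hBent
  set B1 : Fin k → Matrix (Fin k) (Fin k) K := fun i => B.updateCol i (fun n => r n * v n) with hB1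
  have hB1int : ∀ i, IsIntegral ℤ (B1 i).det := by
    intro i
    refine IsIntegral.det fun n i' => ?_
    rw [hB1]
    simp only
    rw [Matrix.updateCol_apply]
    split_ifs
    · have hnl : (n : ℕ) < l.length := by rw [hk]; exact n.2
      have h1 : seq l n = ini l n := by rw [seq, if_pos hnl]
      obtain ⟨m, hm⟩ := cden_int l.length (ini l) n hnl
      have h2 : (D' : K) * v n = ((m : ℤ) : K) := by
        rw [hv]
        simp only
        rw [h1]
        have h3 : algebraMap ℚ K (ini l n * (D' : ℚ)) = algebraMap ℚ K ((m : ℤ) : ℚ) := by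
          rw [hm]
        rw [map_mul, map_natCast, map_intCast] at h3
        rw [mul_comm]
        exact h3
      have h3 : r n * v n = ((m : ℤ) : K) * (D : K) ^ (n : ℕ) := by
        rw [hr]
        simp only
        rw [← h2]
        ring
      rw [h3]
      refine IsIntegral.mul ?_ ((hnatint D).pow _)
      simpa using (isIntegral_algebraMap (R := ℤ) (A := K) (x := m))
    · exact hBent n i'
  have hB1c : ∀ i, (B1 i).det = B.det * c i := by
    intro i
    have h1 : (B1 i) = Matrix.of fun n i' => r n * ((mat y j).updateCol i v) n i' := by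
      ext n i'
      rw [hB1]
      simp only [hB, Matrix.of_apply, Matrix.updateCol_apply]
      split_ifs <;> rfl
    rw [h1, Matrix.det_mul_column, hBdet, mul_assoc]
    congr 1
    rw [← Matrix.cramer_apply, Matrix.cramer_eq_adjugate_mulVec, ← hmc, Matrix.mulVec_mulVec,
      Matrix.adjugate_mul, Matrix.smul_mulVec, Matrix.one_mulVec]
    rfl
  -- the square of the determinant
  have hfix : ∀ σ : K ≃ₐ[ℚ] K, σ (B.det ^ 2) = B.det ^ 2 := by
    intro σ
    obtain ⟨τ, hτ⟩ := hgal σ
    have h5 : (mat (fun i => σ (y i)) j) = (mat y j).submatrix id τ := by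
      ext n i
      simp only [mat, Matrix.of_apply, Matrix.submatrix_apply, id_eq]
      rw [(hτ i).1, (hτ i).2]
    have h6 : σ (mat y j).det = (mat (fun i => σ (y i)) j).det := by
      have := RingHom.map_det (σ : K →+* K) (mat y j)
      rw [mat_map] at this
      exact this
    have h7 : ((Equiv.Perm.sign τ : ℤ) : K) ^ 2 = 1 := by
      have : ((Equiv.Perm.sign τ : ℤ)) ^ 2 = 1 := by
        rw [← Units.val_pow_eq_pow_val, Int.units_sq]
        rfl
      exact_mod_cast congrArg (fun x : ℤ => (x : K)) this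
    have h8 : σ (∏ n, r n) = ∏ n, r n := by
      rw [map_prod]
      refine Finset.prod_congr rfl fun n _ => ?_
      rw [hr]
      simp only [map_mul, map_pow]
      rw [show σ (D : K) = (D : K) from map_natCast σ D,
        show σ (D' : K) = (D' : K) from map_natCast σ D']
    rw [hBdet, mul_pow, map_mul, map_pow, map_pow, h8, h6, h5, Matrix.det_permute',
      mul_pow ((Equiv.Perm.sign τ : ℤ) : K), h7, one_mul]
  obtain ⟨Z, hZ⟩ := int_of_fixed' (B.det ^ 2) (hBint.pow 2) hfix
  have hB0 : B.det ≠ 0 := by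
    rw [hBdet]
    refine mul_ne_zero (Finset.prod_ne_zero_iff.2 fun n _ => ?_) hdety
    rw [hr]
    refine mul_ne_zero ?_ (pow_ne_zero _ ?_)
    · rw [Nat.cast_ne_zero]; omega
    · rw [Nat.cast_ne_zero]; omega
  -- the integral coefficients
  set x : Fin k → K := fun i => (Z : K) * c i with hx
  have hxint : ∀ i, IsIntegral ℤ (x i) := by
    intro i
    have h1 : x i = B.det * (B1 i).det := by
      rw [hx, hB1c]
      simp only
      rw [hZ]
      ring
    rw [h1]
    exact hBint.mul (hB1int i)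
  have hZ0 : (Z : K) ≠ 0 := by
    rw [hZ]
    exact pow_ne_zero _ hB0
  set Act : Finset (Fin k) := Finset.univ.filter fun i => c i ≠ 0 with hAct
  have hP : ∃ m : ℤ, (m : K) = ∏ i ∈ Act, x i := by
    refine int_of_fixed' _ (IsIntegral.prod _ fun i _ => hxint i) fun σ => ?_
    obtain ⟨τ, hτ⟩ := hgal σ
    rw [map_prod]
    have h1 : ∀ i, σ (x i) = x (τ i) := by
      intro i
      rw [hx]
      simp only [map_mul]
      rw [hcσ σ τ hτ, show σ (Z : K) = (Z : K) from map_intCast σ Z]
    rw [Finset.prod_congr rfl fun i _ => h1 i]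
    rw [hAct, Finset.prod_filter, Finset.prod_filter,
      ← Equiv.prod_comp τ (fun i => if c i ≠ 0 then x i else 1)]
    refine Finset.prod_congr rfl fun i _ => ?_
    have h2 : c (τ i) ≠ 0 ↔ c i ≠ 0 := by
      rw [hcσ σ τ hτ]
      exact (map_ne_zero σ)
    by_cases h3 : c i ≠ 0
    · rw [if_pos h3, if_pos (h2.2 h3)]
    · rw [if_neg h3, if_neg (fun h => h3 (h2.1 h))]
  obtain ⟨m, hm⟩ := hP
  have hPne : ∏ i ∈ Act, x i ≠ 0 := by
    rw [Finset.prod_ne_zero_iff]
    intro i hi
    exact mul_ne_zero hZ0 (Finset.mem_filter.1 hi).2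
  have hm0 : m ≠ 0 := by
    rintro rfl
    apply hPne
    rw [← hm]
    simp
  -- the complex numbers
  have hone : (1 : ℝ) ≤ ∏ i ∈ Act, ‖ι (x i)‖ := by
    rw [← norm_prod, ← map_prod, ← hm, map_intCast, Complex.norm_intCast]
    exact_mod_cast Int.one_le_abs hm0
  have hZb : |(Z : ℝ)| ≤ 2 ^ (12 * N ^ 3) := by
    have h1 : |(Z : ℝ)| = ‖ι B.det‖ ^ 2 := by
      rw [← norm_pow, ← map_pow, ← hZ, map_intCast, Complex.norm_intCast]
    have h2 : ‖ι B.det‖ ≤ 2 ^ (6 * N ^ 3) := by
      have h3 : ι B.det = (∏ n : Fin k, ((D' : ℂ) * (D : ℂ) ^ (n : ℕ))) * (mat z j).det := by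
        rw [hBdet, map_mul, map_prod, ← hmapm, ← RingHom.map_det]
        congr 1
        refine Finset.prod_congr rfl fun n _ => ?_
        rw [hr]
        simp
      have hDr : (D : ℝ) ≤ 2 ^ N := by exact_mod_cast cden_le l
      have hDr' : (D' : ℝ) ≤ 2 ^ N := by exact_mod_cast iden_le l
      have hD1r : (1 : ℝ) ≤ D := by exact_mod_cast hD1
      rw [h3, norm_mul]
      have h4 : ‖∏ n : Fin k, ((D' : ℂ) * (D : ℂ) ^ (n : ℕ))‖ ≤ 2 ^ (2 * N ^ 3) := by
        rw [norm_prod]
        calc ∏ n : Fin k, ‖(D' : ℂ) * (D : ℂ) ^ (n : ℕ)‖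
            ≤ ∏ _n : Fin k, (2 : ℝ) ^ (N + N * N) := by
              refine Finset.prod_le_prod (fun _ _ => norm_nonneg _) fun n _ => ?_
              rw [norm_mul, norm_pow, Complex.norm_natCast, Complex.norm_natCast, pow_add]
              refine mul_le_mul hDr' ?_ (by positivity) (by positivity)
              rw [pow_mul]
              exact (pow_le_pow_left₀ (by positivity) hDr _).trans
                (pow_le_pow_right₀ (one_le_pow₀ (by norm_num)) (by omega))
          _ = 2 ^ ((N + N * N) * k) := by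
              rw [Finset.prod_const, Finset.card_univ, Fintype.card_fin, ← pow_mul]
          _ ≤ 2 ^ (2 * N ^ 3) := by
              refine pow_le_pow_right₀ (by norm_num) ?_
              calc (N + N * N) * k ≤ (N + N * N) * N := Nat.mul_le_mul_left _ hkN
                _ ≤ (N * N + N * N) * N := Nat.mul_le_mul_right _ (by nlinarith)
                _ = 2 * N ^ 3 := by ring
      have h5 : ‖(mat z j).det‖ ≤ 2 ^ (4 * N ^ 3) := by
        have h6 := Matrix.det_le (A := mat z j)
          (abv := IsAbsoluteValue.toAbsoluteValue (norm : ℂ → ℝ)) (x := 2 ^ (3 * N ^ 2))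
          (fun n i => by
            simp only [IsAbsoluteValue.toAbsoluteValue_apply, mat, Matrix.of_apply]
            exact entry_bound hl (z i) (hb.isRoot i) (j i) n (by rw [hk]; exact n.2))
        simp only [IsAbsoluteValue.toAbsoluteValue_apply, Fintype.card_fin, nsmul_eq_mul] at h6
        refine h6.trans ?_
        have h7 : (k.factorial : ℝ) ≤ 2 ^ (N ^ 2) := by
          have : k.factorial ≤ 2 ^ (N ^ 2) := by
            calc k.factorial ≤ N.factorial := Nat.factorial_le hkN
              _ ≤ N ^ N := Nat.factorial_le_pow N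
              _ ≤ (2 ^ N) ^ N := Nat.pow_le_pow_left (Nat.lt_two_pow_self).le _
              _ = 2 ^ (N ^ 2) := by rw [← pow_mul, sq]
          exact_mod_cast this
        calc (k.factorial : ℝ) * (2 ^ (3 * N ^ 2)) ^ k
            ≤ 2 ^ (N ^ 2) * (2 ^ (3 * N ^ 2)) ^ N := mul_le_mul h7
              (pow_le_pow_right₀ (one_le_pow₀ (by norm_num)) hkN) (by positivity) (by positivity)
          _ = 2 ^ (N ^ 2 + 3 * N ^ 2 * N) := by rw [← pow_mul, ← pow_add]
          _ ≤ 2 ^ (4 * N ^ 3) := by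
              refine pow_le_pow_right₀ (by norm_num) ?_
              have h8 : N ^ 2 ≤ N ^ 3 := Nat.pow_le_pow_right hN1 (by norm_num)
              have h9 : 3 * N ^ 2 * N = 3 * N ^ 3 := by ring
              omega
      calc ‖∏ n : Fin k, ((D' : ℂ) * (D : ℂ) ^ (n : ℕ))‖ * ‖(mat z j).det‖
          ≤ 2 ^ (2 * N ^ 3) * 2 ^ (4 * N ^ 3) := mul_le_mul h4 h5 (norm_nonneg _) (by positivity)
        _ = 2 ^ (6 * N ^ 3) := by rw [← pow_add]; congr 1; ring
    rw [h1]
    calc ‖ι B.det‖ ^ 2 ≤ (2 ^ (6 * N ^ 3)) ^ 2 := pow_le_pow_left₀ (norm_nonneg _) h2 2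
      _ = 2 ^ (12 * N ^ 3) := by rw [← pow_mul]; congr 1; ring
  have hxn : ∀ i, ‖ι (x i)‖ = |(Z : ℝ)| * ‖cvec z j (ivec l k) i‖ := by
    intro i
    rw [hx]
    simp only [map_mul, norm_mul]
    rw [hcι, map_intCast, Complex.norm_intCast]
  have hxb : ∀ i, ‖ι (x i)‖ ≤ 2 ^ (17 * N ^ 3) := by
    intro i
    rw [hxn]
    calc |(Z : ℝ)| * ‖cvec z j (ivec l k) i‖ ≤ 2 ^ (12 * N ^ 3) * 2 ^ (5 * N ^ 3) :=
          mul_le_mul hZb (cb_bound hb hk hl _ (mat_ivec hb) i) (norm_nonneg _) (by positivity)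
      _ = 2 ^ (17 * N ^ 3) := by rw [← pow_add]; congr 1; ring
  have hpA : p ∈ Act := by
    refine Finset.mem_filter.2 ⟨Finset.mem_univ _, fun h => hp ?_⟩
    rw [← hcι, h, map_zero]
  rw [← Finset.mul_prod_erase Act (fun i => ‖ι (x i)‖) hpA] at hone
  have hrest : ∏ i ∈ Act.erase p, ‖ι (x i)‖ ≤ 2 ^ (17 * N ^ 4) := by
    calc ∏ i ∈ Act.erase p, ‖ι (x i)‖ ≤ ∏ _i ∈ Act.erase p, (2 : ℝ) ^ (17 * N ^ 3) :=
          Finset.prod_le_prod (fun _ _ => norm_nonneg _) fun i _ => hxb i
      _ = (2 ^ (17 * N ^ 3)) ^ (Act.erase p).card := by rw [Finset.prod_const]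
      _ ≤ (2 ^ (17 * N ^ 3)) ^ N := by
          refine pow_le_pow_right₀ (one_le_pow₀ (by norm_num)) ?_
          have : (Act.erase p).card ≤ k := by
            simpa using Finset.card_le_univ (Act.erase p)
          omega
      _ = 2 ^ (17 * N ^ 4) := by rw [← pow_mul]; congr 1; ring
  have hfin : (1 : ℝ) ≤ ‖cvec z j (ivec l k) p‖ * 2 ^ (30 * N ^ 4) := by
    calc (1 : ℝ) ≤ ‖ι (x p)‖ * ∏ i ∈ Act.erase p, ‖ι (x i)‖ := hone
      _ ≤ ‖ι (x p)‖ * 2 ^ (17 * N ^ 4) := mul_le_mul_of_nonneg_left hrest (norm_nonneg _)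
      _ = ‖cvec z j (ivec l k) p‖ * (|(Z : ℝ)| * 2 ^ (17 * N ^ 4)) := by rw [hxn]; ring
      _ ≤ ‖cvec z j (ivec l k) p‖ * (2 ^ (12 * N ^ 3) * 2 ^ (17 * N ^ 4)) := by
          refine mul_le_mul_of_nonneg_left ?_ (norm_nonneg _)
          exact mul_le_mul_of_nonneg_right hZb (by positivity)
      _ ≤ ‖cvec z j (ivec l k) p‖ * 2 ^ (30 * N ^ 4) := by
          refine mul_le_mul_of_nonneg_left ?_ (norm_nonneg _)
          rw [← pow_add]
          refine pow_le_pow_right₀ (by norm_num) ?_
          have : N ^ 3 ≤ N ^ 4 := Nat.pow_le_pow_right hN1 (by norm_num)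
          omega
  rwa [div_le_iff₀ (by positivity)]

end Pool.Agent.J4H65.GP
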