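import Pool.Agent.J4H65.GP.Bad

/-!
# Reality and nonvanishing of the dominant part
-/

set_option autoImplicit false

namespace Pool.Agent.J4H65.GP

open Pool.Agent.H612.LR Pool.Agent.J4H65.UP Filter Topology

section

variable {k : ℕ} {z : Fin k → ℂ} {j : Fin k → ℕ} {ρ : ℝ} {M : ℕ}

/-- the conjugation of the indices -/
theorem conj_perm (hinj : ∀ i i', z i = z i' → j i = j i' → i = i')
    (hconj : ∀ i, ∃ i', z i' = (starRingEnd ℂ) (z i) ∧ j i' = j i) :
    ∃ τ : Equiv.Perm (Fin k), ∀ i, z (τ i) = (starRingEnd ℂ) (z i) ∧ j (τ i) = j i := by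
  choose τ h1 h2 using hconj
  have hτ : Function.Injective τ := by
    intro i i' h
    refine hinj i i' ((starRingEnd ℂ).injective ?_) ?_
    · rw [← h1, ← h1, h]
    · rw [← h2 i, ← h2 i', h]
  exact ⟨Equiv.ofBijective τ (Finite.injective_iff_bijective.1 hτ), fun i => ⟨h1 i, h2 i⟩⟩

theorem cvec_conj (hdet : (mat z j).det ≠ 0) (τ : Equiv.Perm (Fin k))
    (hτ : ∀ i, z (τ i) = (starRingEnd ℂ) (z i) ∧ j (τ i) = j i) (v : Fin k → ℝ) (i : Fin k) :
    cvec z j v (τ i) = (starRingEnd ℂ) (cvec z j v i) := by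
  have h1 : cvec z j v = fun i => (starRingEnd ℂ) (cvec z j v (τ i)) := by
    apply cvec_uniq hdet
    funext n
    have h2 := congrFun (mat_cvec hdet v) n
    simp only [Matrix.mulVec, dotProduct, mat, Matrix.of_apply] at h2 ⊢
    have h3 : ∑ i, bs (z i) (j i) (n : ℕ) * (starRingEnd ℂ) (cvec z j v (τ i)) =
        (starRingEnd ℂ) (∑ i, bs (z (τ i)) (j (τ i)) (n : ℕ) * cvec z j v (τ i)) := by
      rw [map_sum]
      refine Finset.sum_congr rfl fun i _ => ?_
      rw [map_mul, bs_map, (hτ i).1, (hτ i).2, Complex.conj_conj]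
    rw [h3, Equiv.sum_comp τ (fun i => bs (z i) (j i) (n : ℕ) * cvec z j v i), h2,
      Complex.conj_ofReal]
  have h2 := congrFun h1 i
  rw [h2, Complex.conj_conj]

theorem dom_real (hdet : (mat z j).det ≠ 0) (hinj : ∀ i i', z i = z i' → j i = j i' → i = i')
    (hconj : ∀ i, ∃ i', z i' = (starRingEnd ℂ) (z i) ∧ j i' = j i) (v : Fin k → ℝ) (t : ℕ) :
    (dom z j ρ M (cvec z j v) t).im = 0 := by
  classical
  obtain ⟨τ, hτ⟩ := conj_perm hinj hconj
  rw [← Complex.conj_eq_iff_im]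
  unfold dom
  rw [Finset.sum_filter, map_sum, ← Equiv.sum_comp τ]
  refine Finset.sum_congr rfl fun i _ => ?_
  have h1 : (‖z i‖ = ρ ∧ j i = M) ↔ (‖z (τ i)‖ = ρ ∧ j (τ i) = M) := by
    rw [(hτ i).1, (hτ i).2, RCLike.norm_conj]
  by_cases h : ‖z i‖ = ρ ∧ j i = M
  · rw [if_pos h, if_pos (h1.1 h), map_mul, map_pow, map_div₀, Complex.conj_ofReal,
      cvec_conj hdet τ hτ, (hτ i).1, Complex.conj_conj, Complex.conj_conj]
  · rw [if_neg h, if_neg (fun h' => h (h1.2 h')), map_zero]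

theorem dom_eq_phi (hdet : (mat z j).det ≠ 0)
    (hinj : ∀ i i', z i = z i' → j i = j i' → i = i')
    (hconj : ∀ i, ∃ i', z i' = (starRingEnd ℂ) (z i) ∧ j i' = j i) (v : Fin k → ℝ) (t : ℕ) :
    dom z j ρ M (cvec z j v) t = ((phi z j ρ M t v : ℝ) : ℂ) := by
  apply Complex.ext
  · rw [Complex.ofReal_re, phi_apply]
  · rw [dom_real hdet hinj hconj, Complex.ofReal_im]

theorem coef_zero (hdet : (mat z j).det ≠ 0)
    (hinj : ∀ i i', z i = z i' → j i = j i' → i = i')
    (hconj : ∀ i, ∃ i', z i' = (starRingEnd ℂ) (z i) ∧ j i' = j i) (hρ : 0 < ρ)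
    (v : Fin k → ℝ) (h0 : ∀ t, phi z j ρ M t v = 0) (i : Fin k) (hi : ‖z i‖ = ρ)
    (hji : j i = M) : cvec z j v i = 0 := by
  classical
  have hρc : (ρ : ℂ) ≠ 0 := by exact_mod_cast hρ.ne'
  set top : Finset (Fin k) := Finset.univ.filter (fun i => ‖z i‖ = ρ ∧ j i = M) with htop
  set D : Finset ℕ := top.map Fin.valEmbedding with hD
  set g : ℕ → ℂ := fun m => if h : m < k then z ⟨m, h⟩ / (ρ : ℂ) else 1 with hg
  set c : ℕ → ℂ := fun m => if h : m < k then cvec z j v ⟨m, h⟩ else 0 with hc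
  have hgi : ∀ i : Fin k, g i = z i / (ρ : ℂ) := fun i => by
    rw [hg]
    simp only [i.2, dite_true, Fin.eta]
  have hci : ∀ i : Fin k, c i = cvec z j v i := fun i => by
    rw [hc]
    simp only [i.2, dite_true, Fin.eta]
  have hmem : ∀ m ∈ D, ∃ i ∈ top, (i : ℕ) = m := by
    intro m hm
    rw [hD, Finset.mem_map] at hm
    exact hm
  have h1 := t_MEAN D g c (by
      intro m hm
      obtain ⟨i, hi, rfl⟩ := hmem m hm
      rw [hgi, norm_div, (Finset.mem_filter.1 hi).2.1, Complex.norm_real,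
        Real.norm_of_nonneg hρ.le, div_self hρ.ne']) (by
      intro m hm m' hm' h
      obtain ⟨i, hi, rfl⟩ := hmem m hm
      obtain ⟨i', hi', rfl⟩ := hmem m' hm'
      rw [hgi, hgi, div_left_inj' hρc] at h
      have := hinj i i' h ((Finset.mem_filter.1 hi).2.2.trans (Finset.mem_filter.1 hi').2.2.symm)
      rw [this]) (by
      have h2 : (fun n : ℕ => ∑ i ∈ D, c i * g i ^ n) = fun _ => (0 : ℂ) := by
        funext n
        rw [hD, Finset.sum_map]
        have h3 := dom_eq_phi (ρ := ρ) (M := M) hdet hinj hconj v n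
        rw [h0 n] at h3
        unfold dom at h3
        rw [Complex.ofReal_zero] at h3
        rw [← h3]
        refine Finset.sum_congr (by rw [htop]) fun i _ => ?_
        rw [Fin.valEmbedding_apply, hci, hgi]
      rw [h2]
      exact tendsto_const_nhds)
  have h2 := h1 (i : ℕ) (by
    rw [hD, Finset.mem_map]
    exact ⟨i, Finset.mem_filter.2 ⟨Finset.mem_univ _, hi, hji⟩, rfl⟩)
  rwa [hci] at h2

end

/-- the level of an instance: the largest modulus and the largest exponent -/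
theorem exists_level {l : Rec} {k : ℕ} {z : Fin k → ℂ} {j : Fin k → ℕ} (hb : Basis l k z j)
    (hk : l.length = k) (hl : 1 ≤ l.length) :
    (∀ n, k ≤ n → seq l n = 0) ∨ ∃ p : Fin k, 0 < ‖z p‖ ∧ cvec z j (ivec l k) p ≠ 0 ∧
      Level z j ‖z p‖ (j p) (cvec z j (ivec l k)) := by
  classical
  by_cases hex : ∃ i, cvec z j (ivec l k) i ≠ 0 ∧ z i ≠ 0
  · right
    set Act : Finset (Fin k) := Finset.univ.filter fun i => cvec z j (ivec l k) i ≠ 0 with hAct
    obtain ⟨i1, hi1, hi1'⟩ := hex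
    obtain ⟨i0, hi0, hmax⟩ := Finset.exists_max_image Act (fun i => ‖z i‖)
      ⟨i1, Finset.mem_filter.2 ⟨Finset.mem_univ _, hi1⟩⟩
    obtain ⟨p, hp, hpmax⟩ := Finset.exists_max_image (Act.filter fun i => ‖z i‖ = ‖z i0‖) j
      ⟨i0, Finset.mem_filter.2 ⟨hi0, rfl⟩⟩
    obtain ⟨hp1, hp2⟩ := Finset.mem_filter.1 hp
    have hpos : 0 < ‖z p‖ := by
      rw [hp2]
      exact (norm_pos_iff.2 hi1').trans_le
        (hmax i1 (Finset.mem_filter.2 ⟨Finset.mem_univ _, hi1⟩))
    refine ⟨p, hpos, (Finset.mem_filter.1 hp1).2, fun i hi => ?_⟩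
    have hiA : i ∈ Act := Finset.mem_filter.2 ⟨Finset.mem_univ _, hi⟩
    have h1 := hmax i hiA
    rw [← hp2] at h1
    rcases lt_or_eq_of_le h1 with h | h
    · exact Or.inl h
    · exact Or.inr ⟨h, hpmax i (Finset.mem_filter.2 ⟨hiA, by rw [h, hp2]⟩)⟩
  · left
    push Not at hex
    intro n hn
    have hrep := rep' l k hk z j hb _ (mat_ivec hb) n
    have h0 : ((seq l n : ℚ) : ℂ) = 0 := by
      rw [hrep]
      refine Finset.sum_eq_zero fun i _ => ?_
      by_cases hc : cvec z j (ivec l k) i = 0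
      · rw [hc, zero_mul]
      · have h1 := hex i hc
        have h2 : j i < k := by
          have := hb.jlt hl i
          omega
        unfold bs
        rw [h1, zero_pow (by omega)]
        simp
    exact_mod_cast h0

end Pool.Agent.J4H65.GP
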