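import Pool.Agent.J4H65.GP.Nrm

/-!
# Instances with a constant dominant part
-/

set_option autoImplicit false

namespace Pool.Agent.J4H65.GP

open Pool.Agent.H612.LR Pool.Agent.J4H65.UP Filter Topology

/-- Characteristic roots of the same modulus are equal or complex conjugate. -/
def Separated (l : Rec) : Prop :=
  ∀ z ∈ croots l, ∀ w ∈ croots l, ‖z‖ = ‖w‖ → w = z ∨ w = (starRingEnd ℂ) z

/-- The sequence has the asymptotics `u_n ~ L ρ^n n^m` with `L ≠ 0`. -/
def Regular (l : Rec) : Prop :=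
  ∃ (ρ L : ℝ) (m : ℕ), 0 < ρ ∧ L ≠ 0 ∧
    Tendsto (fun n : ℕ => (seq l n : ℝ) / (ρ ^ n * ((n : ℝ) + 1) ^ m)) atTop (𝓝 L)

section

variable {k : ℕ} {z : Fin k → ℂ} {j : Fin k → ℕ} {ρ : ℝ} {M : ℕ}

/-- a constant dominant part is a coefficient -/
theorem const_coef (hdet : (mat z j).det ≠ 0)
    (hinj : ∀ i i', z i = z i' → j i = j i' → i = i')
    (hconj : ∀ i, ∃ i', z i' = (starRingEnd ℂ) (z i) ∧ j i' = j i) (hρ : 0 < ρ)
    (v : Fin k → ℝ) (κ : ℝ) (hκ : 0 < κ) (h : ∀ t, phi z j ρ M t v = κ) :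
    ∃ p, cvec z j v p = (κ : ℂ) := by
  have hex : ∃ i, ‖z i‖ = ρ ∧ j i = M ∧ z i = (ρ : ℂ) := by
    by_contra hcon
    push Not at hcon
    have h1 := phi_zero (M := M) (j := j) hρ v hcon (fun t => by rw [h t]; exact hκ.le) 0
    rw [h 0] at h1
    exact hκ.ne' h1
  obtain ⟨p, hp1, hp2, hp3⟩ := hex
  refine ⟨p, ?_⟩
  set w : Fin k → ℝ := fun n => (bs (z p) (j p) (n : ℕ)).re with hw
  have hpp : z p = (starRingEnd ℂ) (z p) := by rw [hp3, Complex.conj_ofReal]
  have h1 : ∀ t, phi z j ρ M t w = 1 := by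
    intro t
    rw [hw, dom_col hdet p p hp1 hp2 hpp rfl, hp3, div_self (by exact_mod_cast hρ.ne'), one_pow,
      Complex.one_re]
  have h2 : ∀ t, phi z j ρ M t (v + (-κ) • w) = 0 := by
    intro t
    rw [map_add, map_smul, h t, h1 t, smul_eq_mul]
    ring
  have h3 := coef_zero hdet hinj hconj hρ _ h2 p hp1 hp2
  rw [cvec_add, cvec_smul, Pi.add_apply, Pi.smul_apply, smul_eq_mul, hw,
    real_col hdet p p hpp rfl] at h3
  beta_reduce at h3
  rw [if_pos rfl] at h3
  push_cast at h3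
  have h4 : ((1 : ℂ) + 1) / 2 = 1 := by norm_num
  rw [h4, mul_one] at h3
  linear_combination h3

/-- a nonnegative dominant part of a separated recurrence is constant -/
theorem const_of_sep (hinj : ∀ i i', z i = z i' → j i = j i' → i = i') (hρ : 0 < ρ)
    (hsep : ∀ i i', ‖z i‖ = ρ → ‖z i'‖ = ρ → z i' = z i ∨ z i' = (starRingEnd ℂ) (z i))
    (v : Fin k → ℝ) (hnn : ∀ t, 0 ≤ phi z j ρ M t v) (hne : ∃ t, phi z j ρ M t v ≠ 0) :
    ∃ κ : ℝ, 0 < κ ∧ ∀ t, phi z j ρ M t v = κ := by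
  classical
  have hex : ∃ i, ‖z i‖ = ρ ∧ j i = M ∧ z i = (ρ : ℂ) := by
    by_contra hcon
    push Not at hcon
    obtain ⟨t, ht⟩ := hne
    exact ht (phi_zero (M := M) (j := j) hρ v hcon hnn t)
  obtain ⟨p, hp1, hp2, hp3⟩ := hex
  have htop : Finset.univ.filter (fun i => ‖z i‖ = ρ ∧ j i = M) = {p} := by
    ext i
    rw [Finset.mem_filter, Finset.mem_singleton]
    constructor
    · rintro ⟨-, h1, h2⟩
      refine hinj i p ?_ (by rw [h2, hp2])
      rcases hsep p i hp1 h1 with h | h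
      · exact h
      · rw [h, hp3, Complex.conj_ofReal]
    · rintro rfl
      exact ⟨Finset.mem_univ _, hp1, hp2⟩
  have hval : ∀ t, phi z j ρ M t v = (cvec z j v p).re := by
    intro t
    rw [phi_apply]
    unfold dom
    have e : Finset.univ.filter (fun i => ‖z i‖ = ρ ∧ j i = M) = {p} := htop
    rw [show (∑ i ∈ Finset.univ.filter (fun i => ‖z i‖ = ρ ∧ j i = M),
      cvec z j v i * (z i / (ρ : ℂ)) ^ t) = ∑ i ∈ {p}, cvec z j v i * (z i / (ρ : ℂ)) ^ t by
        rw [← e], Finset.sum_singleton, hp3, div_self (by exact_mod_cast hρ.ne'), one_pow,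
      mul_one]
  obtain ⟨t, ht⟩ := hne
  refine ⟨(cvec z j v p).re, ?_, hval⟩
  rw [← hval t]
  exact lt_of_le_of_ne (hnn t) (Ne.symm ht)

end

/-- a convergent dominant part is constant -/
theorem const_of_lim {φ : ℕ → ℝ}
    (ret : ∀ ε : ℝ, 0 < ε → ∀ t0 : ℕ, ∃ L : ℕ, ∀ n, ∃ t, n ≤ t ∧ t < n + L ∧ |φ t - φ t0| < ε)
    (κ : ℝ) (h : Tendsto φ atTop (𝓝 κ)) (t0 : ℕ) : φ t0 = κ := by
  by_contra hne
  have hpos : 0 < |φ t0 - κ| := abs_pos.2 (sub_ne_zero.2 hne)
  rw [Metric.tendsto_atTop] at h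
  obtain ⟨N, hN⟩ := h (|φ t0 - κ| / 2) (by positivity)
  obtain ⟨L, hL⟩ := ret (|φ t0 - κ| / 2) (by positivity) t0
  obtain ⟨t, h1, -, h3⟩ := hL N
  have h2 := hN t h1
  rw [Real.dist_eq] at h2
  have h4 : |φ t0 - κ| ≤ |φ t - φ t0| + |φ t - κ| := by
    have e : φ t0 - κ = -(φ t - φ t0) + (φ t - κ) := by ring
    rw [e]
    refine (abs_add_le _ _).trans ?_
    rw [abs_neg]
  linarith

/-- the dominant part of a regular sequence is constant -/
theorem const_of_regular {u : ℕ → ℝ} {ρ : ℝ} {M : ℕ} {φ : ℕ → ℝ} {B : ℝ} {T : ℕ}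
    (h : Asym u ρ M φ B T) (ρ' L : ℝ) (m : ℕ) (hρ' : 0 < ρ') (hL : 0 < L)
    (hlim : Tendsto (fun n : ℕ => u n / (ρ' ^ n * ((n : ℝ) + 1) ^ m)) atTop (𝓝 L)) :
    ∃ κ : ℝ, 0 < κ ∧ ∀ t, φ t = κ := by
  have hρ := h.pos
  -- a margin
  obtain ⟨N0, hN0⟩ := (Metric.tendsto_atTop.1 hlim) (L / 2) (by positivity)
  have hlow : ∀ n, N0 ≤ n → L / 2 * (ρ' ^ n * ((n : ℝ) + 1) ^ m) ≤ u n := by
    intro n hn
    have h1 := hN0 n hn
    rw [Real.dist_eq, abs_lt] at h1
    have h2 : 0 < ρ' ^ n * ((n : ℝ) + 1) ^ m := by positivity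
    have h3 : L / 2 < u n / (ρ' ^ n * ((n : ℝ) + 1) ^ m) := by linarith [h1.1]
    rw [lt_div_iff₀ h2] at h3
    exact h3.le
  obtain ⟨C1, hC1⟩ : ∃ C1 : ℝ, ∀ n : ℕ, |u n| ≤ C1 * (ρ' ^ n * ((n : ℝ) + 1) ^ m) := by
    obtain ⟨C', hC'⟩ := bdd_of_eventually (fun n => u n / (ρ' ^ n * ((n : ℝ) + 1) ^ m))
      (2 * L) N0 (fun n hn => by
        have h1 := hN0 n hn
        rw [Real.dist_eq, abs_lt] at h1
        rw [abs_le]
        constructor <;> linarith [h1.1, h1.2])
    refine ⟨C', fun n => ?_⟩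
    have h2 : 0 < ρ' ^ n * ((n : ℝ) + 1) ^ m := by positivity
    have h1 := hC' n
    rw [abs_div, abs_of_pos h2, div_le_iff₀ h2] at h1
    exact h1
  obtain ⟨hρρ, hmM, hφlow⟩ := h.margin ρ' (L / 2) C1 m N0 hρ' (by positivity) hC1 hlow
  subst hρρ hmM
  -- the limit of the dominant part
  have hnn : ∀ t, 0 ≤ φ t := fun t => le_trans (by positivity) (hφlow t)
  have hlim2 : Tendsto φ atTop (𝓝 (L * ρ' ^ m * (m.factorial : ℝ))) := by
    have h1 : Tendsto (fun t : ℕ => u (t + m) / (ρ' ^ (t + m) * (((t + m : ℕ) : ℝ) + 1) ^ m))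
        atTop (𝓝 L) := hlim.comp (tendsto_add_atTop_nat m)
    have h2 : Tendsto (fun t : ℕ => (((t + m : ℕ) : ℝ) + 1) ^ m / ((t + m).choose m : ℝ)) atTop
        (𝓝 (m.factorial : ℝ)) := by
      have h3 : ∀ t : ℕ, (((t + m : ℕ) : ℝ) + 1) ^ m / ((t + m).choose m : ℝ) =
          (m.factorial : ℝ) * ∏ i ∈ Finset.range m, ((((t + m : ℕ) : ℝ) + 1) /
            (((t + m : ℕ) : ℝ) - i)) := by
        intro t
        have h4 : ((t + m).descFactorial m : ℝ) = ∏ i ∈ Finset.range m, (((t + m : ℕ) : ℝ) - i) := by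
          rw [Nat.descFactorial_eq_prod_range]
          push_cast
          refine Finset.prod_congr rfl fun i hi => ?_
          have := Finset.mem_range.1 hi
          rw [Nat.cast_sub (by omega)]
          push_cast
          ring
        have h5 : ((t + m).descFactorial m : ℝ) = (m.factorial : ℝ) * ((t + m).choose m : ℝ) := by
          rw [Nat.descFactorial_eq_factorial_mul_choose]
          push_cast
          ring
        have h6 : (0 : ℝ) < ((t + m).choose m : ℝ) := by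
          exact_mod_cast Nat.choose_pos (Nat.le_add_left m t)
        have h7 : (0 : ℝ) < (m.factorial : ℝ) := by exact_mod_cast Nat.factorial_pos m
        rw [Finset.prod_div_distrib, Finset.prod_const, Finset.card_range, ← h4, h5]
        field_simp
      simp_rw [h3]
      have h8 : Tendsto (fun t : ℕ => ∏ i ∈ Finset.range m, ((((t + m : ℕ) : ℝ) + 1) /
            (((t + m : ℕ) : ℝ) - i))) atTop (𝓝 (∏ _i ∈ Finset.range m, (1 : ℝ))) := by
        refine tendsto_finsetProd _ fun i hi => ?_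
        have h9 : Tendsto (fun t : ℕ => ((t : ℕ) : ℝ) + ((m : ℝ) - i)) atTop atTop :=
          tendsto_atTop_add_const_right _ _ tendsto_natCast_atTop_atTop
        have h10 : Tendsto (fun t : ℕ => 1 + ((i : ℝ) + 1) * (((t : ℕ) : ℝ) + ((m : ℝ) - i))⁻¹) atTop
            (𝓝 (1 + ((i : ℝ) + 1) * 0)) :=
          tendsto_const_nhds.add (tendsto_const_nhds.mul (tendsto_inv_atTop_zero.comp h9))
        rw [mul_zero, add_zero] at h10
        refine h10.congr fun t => ?_
        have hlt := Finset.mem_range.1 hi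
        have h11 : (0 : ℝ) < ((t : ℕ) : ℝ) + ((m : ℝ) - i) := by
          have h12 : (i : ℝ) < m := by exact_mod_cast hlt
          have h13 : (0 : ℝ) ≤ t := Nat.cast_nonneg t
          linarith
        push_cast
        rw [show (t : ℝ) + m - i = t + ((m : ℝ) - i) by ring, eq_div_iff h11.ne']
        field_simp
        ring
      rw [Finset.prod_const_one] at h8
      have := h8.const_mul (m.factorial : ℝ)
      rwa [mul_one] at this
    have h3 : Tendsto (fun t : ℕ => u (t + m) / (((t + m).choose m : ℝ) * ρ' ^ t)) atTop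
        (𝓝 (L * ρ' ^ m * (m.factorial : ℝ))) := by
      refine ((h1.mul_const (ρ' ^ m)).mul h2).congr fun t => ?_
      have h6 : (0 : ℝ) < ((t + m).choose m : ℝ) := by
        exact_mod_cast Nat.choose_pos (Nat.le_add_left m t)
      have h7 : (0 : ℝ) < (((t + m : ℕ) : ℝ) + 1) := by positivity
      rw [pow_add]
      field_simp
    have h4 : Tendsto (fun t : ℕ => u (t + m) / (((t + m).choose m : ℝ) * ρ' ^ t) - φ t) atTop
        (𝓝 0) := by
      have h5 : Tendsto (fun t : ℕ => B * (1 / ((t : ℝ) + 1))) atTop (𝓝 (B * 0)) :=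
        tendsto_one_div_add_atTop_nhds_zero_nat.const_mul B
      rw [mul_zero] at h5
      refine squeeze_zero_norm' ?_ h5
      rw [Filter.eventually_atTop]
      refine ⟨T, fun t ht => ?_⟩
      have h6 := h.est t ht
      have h7 := h.cpos t
      rw [Real.norm_eq_abs]
      have e : u (t + m) / (((t + m).choose m : ℝ) * ρ' ^ t) - φ t =
          (u (t + m) - (((t + m).choose m : ℝ) * ρ' ^ t) * φ t) /
            (((t + m).choose m : ℝ) * ρ' ^ t) := by
        rw [sub_div, mul_div_cancel_left₀ _ h7.ne']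
      rw [e, abs_div, abs_of_pos h7, div_le_iff₀ h7]
      refine h6.trans (le_of_eq ?_)
      ring
    have h5 := h3.sub h4
    rw [sub_zero] at h5
    refine h5.congr fun t => ?_
    ring
  refine ⟨L * ρ' ^ m * (m.factorial : ℝ), ?_, fun t => const_of_lim h.ret _ hlim2 t⟩
  have : (0 : ℝ) < (m.factorial : ℝ) := by exact_mod_cast Nat.factorial_pos m
  positivity

/-- **Instances with a constant dominant part are decided by their first `2^poly` terms.** -/
theorem const_exact : ∃ A : ℕ, ∀ C : ℕ, A ≤ C → ∀ l : Rec, 1 ≤ l.length →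
    BanachNull {n | seq l n ≤ 0} → (Separated l ∨ Regular l) →
    (∀ n < 2 ^ (C * sz l ^ C), 0 < seq l n) → Positive l := by
  obtain ⟨A, hA⟩ := exists_asym
  refine ⟨A + 60, fun C hC l hl hnull hcl hsm n => ?_⟩
  by_cases hn : n < 2 ^ (C * sz l ^ C)
  · exact hsm n hn
  rw [not_lt] at hn
  have hN : l.length ≤ sz l := TOR.len_le_sz l
  have hN1 : 1 ≤ sz l := hl.trans hN
  set N := sz l with hNd
  have hn' : 2 ^ ((A + 30 + 30) * N ^ (A + 30 + 30)) ≤ n := by
    refine le_trans (Nat.pow_le_pow_right (by norm_num) ?_) hn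
    exact Nat.mul_le_mul (by omega) (Nat.pow_le_pow_right hN1 (by omega))
  obtain ⟨z, j, hb⟩ := exists_basis' l l.length rfl
  rcases exists_level hb rfl hl with h0 | ⟨p, hp, hcp, hlev⟩
  · exfalso
    refine BoundedGaps.not_null (A := {n | seq l n ≤ 0}) ⟨l.length + 1, fun n =>
      ⟨n + l.length, ?_, by omega, by omega⟩⟩ hnull
    show seq l (n + l.length) ≤ 0
    rw [h0 (n + l.length) (by omega)]
  · have has := hA l l.length z j hb rfl hl p hp hcp hlev
    have hnn : ∀ t, 0 ≤ phi z j ‖z p‖ (j p) t (ivec l l.length) := by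
      intro t
      by_contra hcon
      rw [not_le] at hcon
      refine ((has.neg t hcon).mono ?_).not_null hnull
      intro n hn
      have h1 : ((seq l n : ℚ) : ℝ) < 0 := hn
      show seq l n ≤ 0
      exact_mod_cast h1.le
    have hconst : ∃ κ : ℝ, 0 < κ ∧ ∀ t, phi z j ‖z p‖ (j p) t (ivec l l.length) = κ := by
      rcases hcl with hs | ⟨ρ, L, m, hρ, hL, hlim⟩
      · refine const_of_sep hb.inj hp (fun i i' hi hi' => ?_) _ hnn has.ne
        exact hs (z i) (Multiset.count_pos.1 (lt_of_le_of_lt (Nat.zero_le _) (hb.lt i))) (z i')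
          (Multiset.count_pos.1 (lt_of_le_of_lt (Nat.zero_le _) (hb.lt i'))) (by rw [hi, hi'])
      · rcases lt_or_gt_of_ne hL with hneg | hpos
        · exfalso
          obtain ⟨N0, hN0⟩ := (Metric.tendsto_atTop.1 hlim) (-L) (by linarith)
          refine BoundedGaps.not_null (A := {n | seq l n ≤ 0}) ⟨N0 + 1, fun n =>
            ⟨n + N0, ?_, by omega, by omega⟩⟩ hnull
          show seq l (n + N0) ≤ 0
          have h1 := hN0 (n + N0) (by omega)
          rw [Real.dist_eq, abs_lt] at h1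
          have h2 : 0 < ρ ^ (n + N0) * (((n + N0 : ℕ) : ℝ) + 1) ^ m := by positivity
          have h3 : (seq l (n + N0) : ℝ) / (ρ ^ (n + N0) * (((n + N0 : ℕ) : ℝ) + 1) ^ m) < 0 := by
            linarith [h1.2]
          have h4 : (seq l (n + N0) : ℝ) < 0 := by
            rw [div_lt_iff₀ h2, zero_mul] at h3
            exact h3
          exact_mod_cast h4.le
        · exact const_of_regular has ρ L m hρ hpos hlim
    obtain ⟨κ, hκ, hconst⟩ := hconst
    obtain ⟨p', hp'⟩ := const_coef hb.det_ne hb.inj hb.conj hp _ κ hκ hconst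
    have hlow : 1 / 2 ^ (30 * N ^ 4) ≤ κ := by
      have h1 := coef_lower hb rfl hl p' (by rw [hp']; exact_mod_cast hκ.ne')
      rw [hp', Complex.norm_real, Real.norm_of_nonneg hκ.le] at h1
      exact h1
    obtain ⟨h1, h2, h3⟩ := thresholds2 A 30 N l.length (j p) n hN1 hN (hb.jlt hl p) hn'
    have h4 := pos_of_lower' has (1 / 2 ^ (30 * N ^ 4)) (fun t => by rw [hconst t]; exact hlow)
      n h3 h1 (by
        have h6 : ((2 ^ (A * N ^ A) * 2 ^ (30 * N ^ 30) * 2 ^ (20 * N ^ 3) : ℕ) : ℝ) <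
            (((n - j p) + 1 : ℕ) : ℝ) := by exact_mod_cast h2
        push_cast at h6
        have h7 : (2 : ℝ) ^ (A * N ^ A) * 2 ^ (30 * N ^ 4) ≤
            2 ^ (A * N ^ A) * 2 ^ (30 * N ^ 30) * 2 ^ (20 * N ^ 3) := by
          have h8 : (2 : ℝ) ^ (30 * N ^ 4) ≤ 2 ^ (30 * N ^ 30) := by
            refine pow_le_pow_right₀ (by norm_num) ?_
            exact Nat.mul_le_mul_left _ (Nat.pow_le_pow_right hN1 (by norm_num))
          have h9 : (1 : ℝ) ≤ 2 ^ (20 * N ^ 3) := one_le_pow₀ (by norm_num)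
          calc (2 : ℝ) ^ (A * N ^ A) * 2 ^ (30 * N ^ 4)
              ≤ 2 ^ (A * N ^ A) * 2 ^ (30 * N ^ 30) := mul_le_mul_of_nonneg_left h8 (by positivity)
            _ ≤ _ := le_mul_of_one_le_right (by positivity) h9
        have h8 := lt_of_le_of_lt h7 h6
        rw [one_div, inv_mul_eq_div, lt_div_iff₀ (by positivity)]
        exact h8)
    exact_mod_cast h4

end Pool.Agent.J4H65.GP
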