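import Mathlib

/-!
# Confluent Vandermonde matrices

* `bs z j n = C(n,j) z^(n-j)` : the basic sequences;
* `van` : the rows of the matrix `bs (z i) (j i) n`, `n < k`, are independent when `(z, j)` runs
  over the roots of a polynomial of degree `k` with all smaller exponents `j` than the multiplicity.
-/

set_option autoImplicit false

namespace Pool.Agent.J4H65.GP

open Polynomial

/-- The basic sequences `C(n,j) z^(n-j)`. -/
def bs {R : Type*} [CommRing R] (z : R) (j n : ℕ) : R := z ^ (n - j) * (n.choose j : R)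

theorem bs_eq {R : Type*} [CommRing R] (z : R) (j n : ℕ) :
    (taylor z (X ^ n : R[X])).coeff j = bs z j n := by
  rw [taylor_X_pow, coeff_X_add_C_pow]
  rfl

theorem bs_map {R S : Type*} [CommRing R] [CommRing S] (f : R →+* S) (z : R) (j n : ℕ) :
    f (bs z j n) = bs (f z) j n := by
  unfold bs
  rw [map_mul, map_pow, map_natCast]

/-- the functional of the pair `(z, j)` -/
theorem functional {R : Type*} [CommRing R] (z : R) (j : ℕ) (k : ℕ) (w : Fin k → R) :
    (taylor z (∑ n : Fin k, C (w n) * X ^ (n : ℕ))).coeff j = ∑ n : Fin k, w n * bs z j n := by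
  rw [map_sum, finsetSum_coeff]
  refine Finset.sum_congr rfl fun n _ => ?_
  rw [taylor_mul, taylor_C, coeff_C_mul, bs_eq]

theorem functional' {R : Type*} [CommRing R] (z : R) (j : ℕ) (q : R[X]) (N : ℕ)
    (hN : q.natDegree < N) :
    (taylor z q).coeff j = ∑ n ∈ Finset.range N, q.coeff n * bs z j n := by
  conv_lhs => rw [q.as_sum_range_C_mul_X_pow' hN]
  rw [map_sum, finsetSum_coeff]
  refine Finset.sum_congr rfl fun n _ => ?_
  rw [taylor_mul, taylor_C, coeff_C_mul, bs_eq]

theorem dvd_of_coeff {R : Type*} [CommRing R] (z : R) (q : R[X]) (m : ℕ)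
    (h : ∀ j < m, (taylor z q).coeff j = 0) : (X - C z) ^ m ∣ q := by
  rw [X_sub_C_pow_dvd_iff, X_pow_dvd_iff]
  exact h

theorem coeff_of_dvd {R : Type*} [CommRing R] (z : R) (q : R[X]) (m : ℕ)
    (h : (X - C z) ^ m ∣ q) (j : ℕ) (hj : j < m) : (taylor z q).coeff j = 0 := by
  rw [X_sub_C_pow_dvd_iff, X_pow_dvd_iff] at h
  exact h j hj

theorem van {F : Type*} [Field F] [DecidableEq F] (k : ℕ) (P : F[X])
    (hc : Multiset.card P.roots = k) (w : Fin k → F)
    (h : ∀ z : F, ∀ j < P.roots.count z, ∑ n : Fin k, w n * bs z j n = 0) : w = 0 := by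
  set q : F[X] := ∑ n : Fin k, C (w n) * X ^ (n : ℕ) with hq
  have hdeg : q.degree < k := by
    rw [hq]
    refine (degree_sum_le _ _).trans_lt ?_
    rw [Finset.sup_lt_iff (by exact_mod_cast WithBot.bot_lt_coe k)]
    intro n _
    refine (degree_C_mul_X_pow_le _ _).trans_lt ?_
    exact_mod_cast n.2
  have hq0 : q = 0 := by
    by_contra hne
    have hle : P.roots ≤ q.roots := by
      rw [Multiset.le_iff_count]
      intro z
      rw [count_roots q]
      refine (le_rootMultiplicity_iff hne).2 ?_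
      refine dvd_of_coeff z q _ fun j hj => ?_
      rw [hq, functional]
      exact h z j hj
    have h1 := Multiset.card_le_card hle
    have h2 := card_roots' q
    have h3 : q.natDegree < k := (natDegree_lt_iff_degree_lt hne).2 hdeg
    omega
  funext n
  have := congrArg (fun p => p.coeff (n : ℕ)) hq0
  simp only [hq, finsetSum_coeff, coeff_C_mul, coeff_X_pow, coeff_zero] at this
  rw [Finset.sum_eq_single n] at this
  · simpa using this
  · intro b _ hb
    rw [if_neg (fun h => hb (Fin.ext h.symm)), mul_zero]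
  · intro h
    exact absurd (Finset.mem_univ n) h

/-- the matrix of the basic sequences -/
def mat {R : Type*} [CommRing R] {k : ℕ} (z : Fin k → R) (j : Fin k → ℕ) :
    Matrix (Fin k) (Fin k) R := Matrix.of fun n i => bs (z i) (j i) n

theorem mat_map {R S : Type*} [CommRing R] [CommRing S] (f : R →+* S) {k : ℕ} (z : Fin k → R)
    (j : Fin k → ℕ) : f.mapMatrix (mat z j) = mat (fun i => f (z i)) j := by
  ext n i
  simp only [RingHom.mapMatrix_apply, Matrix.map_apply, mat, Matrix.of_apply]
  exact bs_map f _ _ _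

/-- an enumeration of the pairs -/
theorem enum {F : Type*} [DecidableEq F] (k : ℕ) (m : Multiset F) (hc : Multiset.card m = k) :
    ∃ (z : Fin k → F) (j : Fin k → ℕ), (∀ i, j i < m.count (z i)) ∧
      (∀ x : F, ∀ s < m.count x, ∃ i, z i = x ∧ j i = s) ∧
      ∀ i i', z i = z i' → j i = j i' → i = i' := by
  have e : ((x : F) × Fin (m.count x)) ≃ Fin k := by
    have e0 : m.ToType ≃ Fin k := Fintype.equivFinOfCardEq (by rw [Multiset.card_coe, hc])
    exact e0
  refine ⟨fun i => (e.symm i).1, fun i => (e.symm i).2, fun i => (e.symm i).2.2, ?_, ?_⟩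
  · intro x s hs
    refine ⟨e ⟨x, ⟨s, hs⟩⟩, ?_, ?_⟩
    · exact congrArg (fun p : (x : F) × Fin (m.count x) => p.1) (e.symm_apply_apply _)
    · exact congrArg (fun p : (x : F) × Fin (m.count x) => (p.2 : ℕ)) (e.symm_apply_apply _)
  · intro i i' h1 h2
    apply e.symm.injective
    simp only at h1 h2
    rcases h : e.symm i with ⟨x, s⟩
    rcases h' : e.symm i' with ⟨x', s'⟩
    rw [h, h'] at h1 h2
    simp only at h1 h2
    subst h1
    congr 1
    exact Fin.ext h2

theorem det_ne {F : Type*} [Field F] [DecidableEq F] (k : ℕ) (P : F[X])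
    (hc : Multiset.card P.roots = k) (z : Fin k → F) (j : Fin k → ℕ)
    (hz : ∀ x : F, ∀ s < P.roots.count x, ∃ i, z i = x ∧ j i = s) : (mat z j).det ≠ 0 := by
  intro h0
  obtain ⟨w, hw, hw0⟩ := Matrix.exists_vecMul_eq_zero_iff.2 h0
  apply hw
  refine van k P hc w fun x s hs => ?_
  obtain ⟨i, rfl, rfl⟩ := hz x s hs
  have := congrFun hw0 i
  simpa [Matrix.vecMul, dotProduct, mat] using this

end Pool.Agent.J4H65.GP
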